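import Pool.Agent.helper7.Alm.Basic

/-!
# M9: closing available boxes

`Ev_and`: the intersection of two independent Bernoulli configurations.
`Rn_and`: with `s = p / p'` and an optimal tiling `R` for `ω` (parameter `p'`),
`kap (ω ∧ η) ≤ kap ω + #{b ∈ R | ω b = true, η b = false}`.
-/

set_option autoImplicit false
open scoped Classical
open Finset Pool.Agent.helper17.Dya Pool.Agent.helper17.DyS

namespace Pool.Agent.helper7.Alm

section

variable {ι : Type} [Fintype ι]

lemma sum_prod_two (h : ι → Bool → Bool → ℝ) :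
    ∑ ω : ι → Bool, ∑ η : ι → Bool, ∏ i, h i (ω i) (η i) =
      ∏ i, ∑ a : Bool, ∑ b : Bool, h i a b := by
  rw [← sum_prod fun i a => ∑ b : Bool, h i a b]
  refine sum_congr rfl fun ω _ => ?_
  exact sum_prod fun i b => h i (ω i) b

lemma Ev_op (op : Bool → Bool → Bool) {p s r : ℝ}
    (hr : ∀ c, ∑ a : Bool, ∑ b : Bool, (if op a b = c then wb p a * wb s b else 0) = wb r c)
    (f : (ι → Bool) → ℝ) :
    Ev p (fun ω => Ev s (fun η => f (fun i => op (ω i) (η i)))) = Ev r f := by
  unfold Ev
  have h1 : ∀ ω η : ι → Bool, wt p ω * (wt s η * f (fun i => op (ω i) (η i))) =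
      ∑ ξ : ι → Bool, (∏ i, if op (ω i) (η i) = ξ i then wb p (ω i) * wb s (η i) else 0) * f ξ := by
    intro ω η
    rw [sum_eq_single (fun i => op (ω i) (η i))]
    · unfold wt
      rw [← mul_assoc, ← prod_mul_distrib]
      congr 1
      refine prod_congr rfl fun i _ => ?_
      rw [if_pos rfl]
    · intro ξ _ hξ
      obtain ⟨i, hi⟩ := Function.ne_iff.1 hξ
      rw [prod_eq_zero (mem_univ i), zero_mul]
      rw [if_neg fun h => hi h.symm]
    · intro h
      exact absurd (mem_univ _) h
  have h2 : ∀ ω : ι → Bool, wt p ω * ∑ η : ι → Bool, wt s η * f (fun i => op (ω i) (η i)) =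
      ∑ ξ : ι → Bool, ∑ η : ι → Bool,
        (∏ i, if op (ω i) (η i) = ξ i then wb p (ω i) * wb s (η i) else 0) * f ξ := by
    intro ω
    rw [mul_sum, sum_comm]
    exact sum_congr rfl fun η _ => h1 ω η
  rw [sum_congr rfl fun ω _ => h2 ω, sum_comm]
  refine sum_congr rfl fun ξ _ => ?_
  have h3 : ∀ ω : ι → Bool, ∑ η : ι → Bool,
      (∏ i, if op (ω i) (η i) = ξ i then wb p (ω i) * wb s (η i) else 0) * f ξ =
      (∑ η : ι → Bool, ∏ i, if op (ω i) (η i) = ξ i then wb p (ω i) * wb s (η i) else 0) * f ξ :=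
    fun ω => (sum_mul _ _ _).symm
  rw [sum_congr rfl fun ω _ => h3 ω, ← sum_mul]
  congr 1
  rw [sum_prod_two fun i a b => if op a b = ξ i then wb p a * wb s b else 0]
  exact prod_congr rfl fun i _ => hr (ξ i)

theorem Ev_and (p s : ℝ) (f : (ι → Bool) → ℝ) :
    Ev p (fun ω => Ev s (fun η => f (fun i => ω i && η i))) = Ev (p * s) f := by
  refine Ev_op (fun a b => a && b) (fun c => ?_) f
  simp only [Fintype.sum_bool, wb]
  cases c <;> simp
  ring

lemma Ev_count (s : ℝ) (S : Finset ι) :
    Ev s (fun η : ι → Bool => ((S.filter fun i => η i = false).card : ℝ)) = (1 - s) * S.card := by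
  have h1 : ∀ η : ι → Bool, ((S.filter fun i => η i = false).card : ℝ) =
      ∑ i ∈ S, if η i = false then (1 : ℝ) else 0 := by
    intro η
    rw [card_filter]
    push_cast
    rfl
  have h2 : ∀ i : ι, Ev s (fun η : ι → Bool => if η i = false then (1 : ℝ) else 0) = 1 - s := by
    intro i
    have h3 := Pr_not (p := s) (fun η : ι → Bool => η i = true)
    rw [Pr_coord] at h3
    rw [← h3]
    unfold Pr
    congr 1
    funext η
    simp only [Bool.not_eq_true]
  unfold Ev at h2 ⊢
  simp only [h1, mul_sum]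
  rw [sum_comm]
  rw [sum_congr rfl fun i _ => h2 i, sum_const, nsmul_eq_mul, mul_comm]

end

theorem Rn_and {n : ℕ} {p p' : ℝ} (h0 : 0 ≤ p) (h : p ≤ p') (h1 : p' ≤ 1) :
    p * (1 - Rn n p') ≤ p' * (1 - Rn n p) := by
  rcases eq_or_lt_of_le (h0.trans h) with hp' | hp'
  · have : p = 0 := le_antisymm (h.trans_eq hp'.symm) h0
    rw [this, ← hp']
  set s : ℝ := p / p' with hs
  have hs0 : 0 ≤ s := div_nonneg h0 hp'.le
  have hs1 : s ≤ 1 := (div_le_one hp').2 h
  have hps : p' * s = p := mul_div_cancel₀ p hp'.ne'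
  have key : Ev p (fun ω : It n → Bool => (kap n ω : ℝ)) ≤
      s * Ev p' (fun ω : It n → Bool => (kap n ω : ℝ)) + (1 - s) * 2 ^ n := by
    rw [← hps, ← Ev_and]
    have e1 : s * Ev p' (fun ω : It n → Bool => (kap n ω : ℝ)) + (1 - s) * 2 ^ n =
        Ev p' (fun ω : It n → Bool => s * (kap n ω : ℝ) + (1 - s) * 2 ^ n * 1) := by
      rw [Ev_add]
      unfold Ev
      congr 1
      · rw [mul_sum]
        exact sum_congr rfl fun _ _ => by ring
      · have := sum_wt (ι := It n) p'
        simp only [mul_one]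
        rw [← sum_mul, this, one_mul]
    rw [e1]
    refine Ev_mono hp'.le h1 fun ω => ?_
    obtain ⟨R, hR, hc⟩ := exists_kap ω
    have e2 : ∀ η : It n → Bool, (kap n (fun b => ω b && η b) : ℝ) ≤
        (kap n ω : ℝ) * 1 + (((R.filter fun b => ω b = true).filter fun b => η b = false).card : ℝ) := by
      intro η
      have e3 : kap n (fun b => ω b && η b) ≤ cl (fun b => ω b && η b) R := kap_le_cl hR
      have e4 : cl (fun b => ω b && η b) R ≤ cl ω R +
          ((R.filter fun b => ω b = true).filter fun b => η b = false).card := by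
        unfold cl
        refine (card_le_card ?_).trans (card_union_le _ _)
        intro b hb
        rw [mem_filter] at hb
        rw [mem_union, mem_filter, mem_filter, mem_filter]
        rcases Bool.eq_false_or_eq_true (ω b) with hω | hω
        · right
          refine ⟨⟨hb.1, hω⟩, ?_⟩
          have h5 : (ω b && η b) = false := hb.2
          rwa [hω, Bool.true_and] at h5
        · left
          exact ⟨hb.1, hω⟩
      rw [mul_one]
      have := e3.trans e4
      rw [hc] at this
      exact_mod_cast this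
    refine (Ev_mono hs0 hs1 e2).trans ?_
    rw [Ev_add, Ev_count]
    have e5 : Ev s (fun _ : It n → Bool => (kap n ω : ℝ) * 1) = kap n ω := by
      unfold Ev
      rw [← sum_mul, sum_wt]
      ring
    rw [e5]
    have e6 : ((R.filter fun b => ω b = true).card : ℝ) = 2 ^ n - kap n ω := by
      have e7 : (R.filter fun b => ω b = true).card + (R.filter fun b => ω b = false).card =
          R.card := by
        rw [← card_filter_add_card_filter_not (s := R) (fun b => ω b = true)]
        congr 2
        ext b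
        simp
      have e8 : cl ω R = (R.filter fun b => ω b = false).card := rfl
      rw [← e8, hc, card_Tg hR] at e7
      have e9 : ((R.filter fun b => ω b = true).card : ℝ) + (kap n ω : ℝ) = ((2 ^ n : ℕ) : ℝ) := by
        exact_mod_cast e7
      push_cast at e9
      linarith
    rw [e6]
    have : (0 : ℝ) ≤ 1 - s := by linarith
    nlinarith
  have h2 : (0 : ℝ) < 2 ^ n := by positivity
  have key2 : Rn n p ≤ s * Rn n p' + (1 - s) := by
    unfold Rn
    rw [div_le_iff₀ h2]
    calc _ ≤ _ := key
      _ = _ := by field_simp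
  have h3 : p * (1 - Rn n p') = p' * (s * (1 - Rn n p')) := by rw [← mul_assoc, hps]
  rw [h3]
  refine mul_le_mul_of_nonneg_left ?_ hp'.le
  linarith

end Pool.Agent.helper7.Alm
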