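import Pool.Agent.helper7.Alm.Defs

/-!
# M1: basic facts

`card_Tg`: count the cells: a box of order `n` has `2 ^ (2 n)` cells, the cube has `2 ^ (3 n)`.
`exists_Tg`: for instance all boxes with levels `(n, 0, 0)`.
`kap_zero`: `Al` is in DyS/Geo (`R` is a set there; every box is contained in the cube).
-/

set_option autoImplicit false
open scoped Classical
open Finset Pool.Agent.helper17.Dya Pool.Agent.helper17.DyS

namespace Pool.Agent.helper7.Alm

/-- the numbers below `2 ^ n` in the dyadic interval of level `a` and position `c` -/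
lemma card_div (n a c : ℕ) (ha : a ≤ n) (hc : c < 2 ^ a) :
    ((range (2 ^ n)).filter fun x => x / 2 ^ (n - a) = c).card = 2 ^ (n - a) := by
  have h0 : 0 < 2 ^ (n - a) := by positivity
  have h1 : ((range (2 ^ n)).filter fun x => x / 2 ^ (n - a) = c) =
      Finset.Ico (c * 2 ^ (n - a)) (c * 2 ^ (n - a) + 2 ^ (n - a)) := by
    ext x
    rw [mem_filter, mem_range, mem_Ico, Nat.div_eq_iff h0]
    have h2 : c * 2 ^ (n - a) + 2 ^ (n - a) ≤ 2 ^ n := by
      calc c * 2 ^ (n - a) + 2 ^ (n - a) = (c + 1) * 2 ^ (n - a) := by ring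
        _ ≤ 2 ^ a * 2 ^ (n - a) := Nat.mul_le_mul_right _ hc
        _ = 2 ^ n := by rw [← pow_add, Nat.add_sub_cancel' ha]
    constructor
    · rintro ⟨_, h3, h4⟩
      exact ⟨h3, by omega⟩
    · rintro ⟨h3, h4⟩
      exact ⟨by omega, h3, by omega⟩
  rw [h1, Nat.card_Ico]
  omega

/-- the cells of the cube -/
def cells (n : ℕ) : Finset (Fin 3 → ℕ) := Fintype.piFinset fun _ => range (2 ^ n)

lemma mem_cells {n : ℕ} {x : Fin 3 → ℕ} : x ∈ cells n ↔ ∀ i, x i < 2 ^ n := by
  simp [cells, Fintype.mem_piFinset]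

lemma card_cells (n : ℕ) : (cells n).card = 2 ^ n * 2 ^ (2 * n) := by
  rw [cells, Fintype.card_piFinset]
  simp only [card_range, prod_const, card_univ, Fintype.card_fin]
  rw [← pow_mul, ← pow_add]
  congr 1
  ring

lemma card_box {n : ℕ} (b : It n) : ((cells n).filter fun x => Cv n b.1 x).card = 2 ^ (2 * n) := by
  have h1 : ((cells n).filter fun x => Cv n b.1 x) =
      Fintype.piFinset fun i => (range (2 ^ n)).filter fun x => x / 2 ^ (n - b.1.1 i) = b.1.2 i := by
    ext x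
    rw [mem_filter, mem_cells, Fintype.mem_piFinset]
    simp only [mem_filter, mem_range, Cv]
    exact ⟨fun h i => ⟨h.1 i, h.2 i⟩, fun h => ⟨fun i => (h i).1, fun i => (h i).2⟩⟩
  rw [h1, Fintype.card_piFinset]
  rw [prod_congr rfl fun i _ => card_div n (b.1.1 i) (b.1.2 i) (b.2.le i) (b.2.2 i)]
  rw [prod_pow_eq_pow_sum]
  congr 1
  have h2 := b.2.1
  have h3 : ∑ i, (n - b.1.1 i) + ∑ i, b.1.1 i = 3 * n := by
    rw [← sum_add_distrib, sum_congr rfl fun i _ => Nat.sub_add_cancel (b.2.le i)]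
    simp
  omega

theorem card_Tg {n : ℕ} {R : Finset (It n)} (h : Tg n R) : R.card = 2 ^ n := by
  have h1 : ∑ b ∈ R, ((cells n).filter fun x => Cv n b.1 x).card =
      ∑ x ∈ cells n, (R.filter fun b => Cv n b.1 x).card := by
    simp only [card_filter]
    exact sum_comm
  have h2 : ∀ x ∈ cells n, (R.filter fun b => Cv n b.1 x).card = 1 := by
    intro x hx
    obtain ⟨b, hb, hb'⟩ := h x (mem_cells.1 hx)
    rw [card_eq_one]
    refine ⟨b, ?_⟩
    ext c
    rw [mem_filter, mem_singleton]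
    exact ⟨fun hc => hb' c hc, fun hc => hc ▸ hb⟩
  rw [sum_congr rfl fun b _ => card_box b, sum_congr rfl h2, sum_const, sum_const,
    card_cells, smul_eq_mul, smul_eq_mul, mul_one] at h1
  exact Nat.eq_of_mul_eq_mul_right (by positivity) h1

theorem exists_Tg (n : ℕ) : ∃ R : Finset (It n), Tg n R := by
  refine ⟨univ.filter fun b : It n => b.1.1 = fun i => if i = 0 then n else 0, ?_⟩
  intro x hx
  have hv : Vl n (fun i => if i = 0 then n else 0, fun i => if i = 0 then x 0 else 0) := by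
    refine ⟨by simp, fun i => ?_⟩
    by_cases hi : i = 0
    · simp only [hi, if_true]
      exact hx 0
    · simp [hi]
  refine ⟨⟨_, hv⟩, ⟨by simp, ?_⟩, ?_⟩
  · intro i
    by_cases hi : i = 0
    · subst hi
      simp
    · simp only [hi, if_false, Nat.sub_zero]
      exact Nat.div_eq_of_lt (hx i)
  · rintro b ⟨hb, hb'⟩
    rw [mem_filter] at hb
    refine Subtype.ext (Prod.ext hb.2 ?_)
    funext i
    have h1 := hb' i
    rw [hb.2] at h1
    rw [← h1]
    by_cases hi : i = 0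
    · subst hi
      simp
    · simp only [hi, if_false, Nat.sub_zero]
      exact Nat.div_eq_of_lt (hx i)

theorem kap_le_cl {n : ℕ} {ω : It n → Bool} {R : Finset (It n)} (h : Tg n R) :
    kap n ω ≤ cl ω R := Nat.sInf_le ⟨R, h, rfl⟩

theorem exists_kap {n : ℕ} (ω : It n → Bool) : ∃ R, Tg n R ∧ cl ω R = kap n ω := by
  obtain ⟨R, hR⟩ := exists_Tg n
  exact Nat.sInf_mem (s := {s | ∃ R, Tg n R ∧ cl ω R = s}) ⟨cl ω R, R, hR, rfl⟩

theorem kap_le {n : ℕ} (ω : It n → Bool) : kap n ω ≤ 2 ^ n := by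
  obtain ⟨R, hR⟩ := exists_Tg n
  calc kap n ω ≤ cl ω R := kap_le_cl hR
    _ ≤ R.card := card_filter_le _ _
    _ = 2 ^ n := card_Tg hR

theorem kap_zero {n : ℕ} (ω : It n → Bool) : kap n ω = 0 ↔ Al n cube ω := by
  constructor
  · intro h
    obtain ⟨R, hR, hc⟩ := exists_kap ω
    rw [h, cl, card_eq_zero, filter_eq_empty_iff] at hc
    refine ⟨(R : Set (It n)), fun b hb => ⟨?_, ?_⟩, fun x hx _ => ?_⟩
    · have h1 := hc (mem_coe.1 hb)
      simpa using h1
    · intro i
      refine ⟨Nat.zero_le _, ?_⟩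
      show b.1.2 i / 2 ^ (b.1.1 i - 0) = 0
      rw [Nat.sub_zero]
      exact Nat.div_eq_of_lt (b.2.2 i)
    · simpa only [mem_coe] using hR x hx
  · rintro ⟨R, h1, h2⟩
    have h3 : Tg n (univ.filter fun b => b ∈ R) := by
      intro x hx
      have h4 := h2 x hx (fun i => by
        show x i / 2 ^ (n - 0) = 0
        rw [Nat.sub_zero]
        exact Nat.div_eq_of_lt (hx i))
      simpa only [mem_filter, mem_univ, true_and] using h4
    have h4 : cl ω (univ.filter fun b => b ∈ R) = 0 := by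
      rw [cl, card_eq_zero, filter_eq_empty_iff]
      intro b hb
      rw [mem_filter] at hb
      rw [(h1 b hb.2).1]
      simp
    exact Nat.le_zero.1 (h4 ▸ kap_le_cl h3)

/-- one direction of `kap_lip` -/
lemma kap_lip_aux {n : ℕ} {A : Set (It n)} (hA : ∀ b ∈ A, ∀ b' ∈ A,
    ∃ x : Fin 3 → ℕ, (∀ i, x i < 2 ^ n) ∧ Cv n b.1 x ∧ Cv n b'.1 x)
    {ω ω' : It n → Bool} (h : ∀ b, b ∉ A → ω b = ω' b) : kap n ω ≤ kap n ω' + 1 := by
  obtain ⟨R, hR, hc⟩ := exists_kap ω'
  have h1 : (R.filter fun b => b ∈ A).card ≤ 1 := by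
    rw [card_le_one]
    intro b hb c hc'
    rw [mem_filter] at hb hc'
    obtain ⟨x, hx, hbx, hcx⟩ := hA b hb.2 c hc'.2
    exact (hR x hx).unique ⟨hb.1, hbx⟩ ⟨hc'.1, hcx⟩
  have h2 : (R.filter fun b => ω b = false) ⊆
      (R.filter fun b => ω' b = false) ∪ (R.filter fun b => b ∈ A) := by
    intro b hb
    rw [mem_filter] at hb
    rw [mem_union, mem_filter, mem_filter]
    by_cases hbA : b ∈ A
    · exact Or.inr ⟨hb.1, hbA⟩
    · exact Or.inl ⟨hb.1, (h b hbA) ▸ hb.2⟩
  calc kap n ω ≤ cl ω R := kap_le_cl hR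
    _ ≤ ((R.filter fun b => ω' b = false) ∪ (R.filter fun b => b ∈ A)).card := card_le_card h2
    _ ≤ cl ω' R + (R.filter fun b => b ∈ A).card := card_union_le _ _
    _ ≤ kap n ω' + 1 := by rw [hc]; exact Nat.add_le_add_left h1 _

/-- changing the configuration only on boxes which pairwise meet changes `kap` by at most one -/
theorem kap_lip {n : ℕ} {A : Set (It n)} (hA : ∀ b ∈ A, ∀ b' ∈ A,
    ∃ x : Fin 3 → ℕ, (∀ i, x i < 2 ^ n) ∧ Cv n b.1 x ∧ Cv n b'.1 x)
    {ω ω' : It n → Bool} (h : ∀ b, b ∉ A → ω b = ω' b) :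
    |(kap n ω : ℝ) - kap n ω'| ≤ 1 := by
  have h1 := kap_lip_aux hA h
  have h2 := kap_lip_aux hA (fun b hb => (h b hb).symm)
  have h3 : (kap n ω : ℝ) ≤ kap n ω' + 1 := by exact_mod_cast h1
  have h4 : (kap n ω' : ℝ) ≤ kap n ω + 1 := by exact_mod_cast h2
  rw [abs_le]
  constructor <;> linarith

end Pool.Agent.helper7.Alm
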