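import Pool.Agent.helper7.Alm.Sweep
import Pool.Agent.helper7.Alm.Basic

/-!
# M7: the number of tilings is at most `8 ^ (2 ^ n)`, and the first moment bound

`card_tilings`: `sweep` with `l = 0`, `c = 0`, `Ω = True`, `rect_sum` and `card_Tg`.
`Pr_kap_le`: union bound over the tilings; for one tiling `R`,
`Pr (cl ω R ≤ s) ≤ θ ^ (-s) * E θ ^ (cl ω R) = θ ^ (-s) * (p + (1 - p) θ) ^ (card R)`.
-/

set_option autoImplicit false
open scoped Classical
open Finset Pool.Agent.helper17.Dya Pool.Agent.helper17.DyS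

namespace Pool.Agent.helper7.Alm

lemma Tg_Ti3 {n : ℕ} {R : Finset (It n)} (h : Tg n R) : Ti3 n 0 0 (fun _ _ => True) R := by
  constructor
  · intro b _
    refine ⟨Nat.zero_le _, ?_, fun _ _ _ _ _ => trivial⟩
    rw [Nat.sub_zero]
    exact Nat.div_eq_of_lt (b.2.2 2)
  · intro x hx y hy z hz _ _
    have h1 := h ![x, y, z] (by
      intro i
      fin_cases i
      · exact hx
      · exact hy
      · exact hz)
    have h2 : ∀ b : It n, Cv n b.1 ![x, y, z] ↔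
        Col n b.1 x y ∧ z / 2 ^ (n - b.1.1 2) = b.1.2 2 := by
      intro b
      constructor
      · intro h
        exact ⟨⟨h 0, h 1⟩, h 2⟩
      · rintro ⟨⟨h0, h1⟩, h2⟩ i
        fin_cases i
        · exact h0
        · exact h1
        · exact h2
    obtain ⟨b, ⟨hb1, hb2⟩, hb3⟩ := h1
    refine ⟨b, ⟨hb1, (h2 b).1 hb2⟩, fun b' hb' => hb3 b' ⟨hb'.1, (h2 b').2 hb'.2⟩⟩

theorem card_tilings (n : ℕ) :
    (((univ : Finset (Finset (It n))).filter (Tg n)).card : ℝ) ≤ 8 ^ (2 ^ n) := by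
  have h1 : ∑ R ∈ (univ : Finset (Finset (It n))).filter (Tg n), (1 / 8 : ℝ) ^ R.card =
      (((univ : Finset (Finset (It n))).filter (Tg n)).card : ℝ) * (1 / 8 : ℝ) ^ (2 ^ n) := by
    rw [← nsmul_eq_mul, ← sum_const]
    refine sum_congr rfl fun R hR => ?_
    rw [card_Tg (mem_filter.1 hR).2]
  have h2 : ∑ R ∈ (univ : Finset (Finset (It n))).filter (Tg n), (1 / 8 : ℝ) ^ R.card ≤
      ∑ R ∈ (univ : Finset (Finset (It n))).filter (Ti3 n 0 0 (fun _ _ => True)),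
        (1 / 8 : ℝ) ^ R.card := by
    refine sum_le_sum_of_subset_of_nonneg ?_ fun _ _ _ => by positivity
    intro R hR
    rw [mem_filter] at hR ⊢
    exact ⟨hR.1, Tg_Ti3 hR.2⟩
  have h3 := sweep n (l := 0) (c := 0) (Nat.zero_le n) (by norm_num) (fun _ _ => True)
  have h4 : ∑ S ∈ (rects n).powerset.filter
      (fun S => Ti2 n (fun _ _ => True) S ∧ ∀ q ∈ S, q.1.1 + q.1.2 ≤ n - 0),
        (1 / 8 : ℝ) ^ S.card ≤
      ∑ S ∈ (rects n).powerset.filter (Ti2 n (fun _ _ => True)), (1 / 8 : ℝ) ^ S.card := by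
    refine sum_le_sum_of_subset_of_nonneg ?_ fun _ _ _ => by positivity
    intro S hS
    rw [mem_filter] at hS ⊢
    exact ⟨hS.1, hS.2.1⟩
  have h5 := rect_sum n (fun _ _ => True)
  have h6 : (((univ : Finset (Finset (It n))).filter (Tg n)).card : ℝ) * (1 / 8 : ℝ) ^ (2 ^ n) ≤
      1 := by
    rw [← h1]
    exact h2.trans (h3.trans (h4.trans h5))
  rw [one_div, inv_pow, ← div_eq_mul_inv, div_le_one (by positivity)] at h6
  exact h6

lemma pow_cl {n : ℕ} (θ : ℝ) (ω : It n → Bool) (R : Finset (It n)) :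
    θ ^ cl ω R = ∏ b : It n, (if b ∈ R ∧ ω b = false then θ else 1) := by
  unfold cl
  rw [prod_ite, prod_const, prod_const_one, mul_one]
  congr 2
  ext b
  simp

lemma Ev_pow_cl {n : ℕ} (p θ : ℝ) (R : Finset (It n)) :
    Ev p (fun ω : It n → Bool => θ ^ cl ω R) = (p + (1 - p) * θ) ^ R.card := by
  have h1 : ∀ ω : It n → Bool, wt p ω * θ ^ cl ω R =
      ∏ b : It n, (wb p (ω b) * (if b ∈ R ∧ ω b = false then θ else 1)) := by
    intro ω
    rw [pow_cl, prod_mul_distrib]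
    rfl
  unfold Ev
  rw [sum_congr rfl fun ω _ => h1 ω,
    sum_prod fun (b : It n) (c : Bool) => wb p c * (if b ∈ R ∧ c = false then θ else 1)]
  have h2 : ∀ b : It n, ∑ c : Bool, wb p c * (if b ∈ R ∧ c = false then θ else 1) =
      if b ∈ R then p + (1 - p) * θ else 1 := by
    intro b
    rw [Fintype.sum_bool]
    by_cases hb : b ∈ R
    · simp [wb, hb]
    · simp [wb, hb]
  rw [prod_congr rfl fun b _ => h2 b, prod_ite, prod_const, prod_const_one, mul_one]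
  congr 2
  ext b
  simp

lemma Pr_cl_le {n : ℕ} {p θ : ℝ} (h0 : 0 ≤ p) (h1 : p ≤ 1) (ht : 0 < θ) (ht1 : θ ≤ 1) (s : ℕ)
    (R : Finset (It n)) :
    Pr p (fun ω => cl ω R ≤ s) ≤ (p + (1 - p) * θ) ^ R.card / θ ^ s := by
  rw [← Ev_pow_cl, le_div_iff₀ (by positivity)]
  unfold Pr Ev
  rw [sum_mul]
  refine sum_le_sum fun ω _ => ?_
  rw [mul_assoc]
  refine mul_le_mul_of_nonneg_left ?_ (wt_nonneg h0 h1 ω)
  beta_reduce
  by_cases h : cl ω R ≤ s
  · rw [if_pos h, one_mul]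
    exact pow_le_pow_of_le_one ht.le ht1 h
  · rw [if_neg h, zero_mul]
    positivity

theorem Pr_kap_le {n : ℕ} {p θ : ℝ} (h0 : 0 ≤ p) (h1 : p ≤ 1) (ht : 0 < θ) (ht1 : θ ≤ 1) (s : ℕ) :
    Pr p (fun ω => kap n ω ≤ s) ≤ (8 * (p + (1 - p) * θ)) ^ (2 ^ n) / θ ^ s := by
  have h2 : Pr p (fun ω => kap n ω ≤ s) ≤
      Pr p (fun ω => ∃ R ∈ (univ : Finset (Finset (It n))).filter (Tg n), cl ω R ≤ s) := by
    refine Pr_mono h0 h1 fun ω h => ?_
    obtain ⟨R, hR1, hR2⟩ := exists_kap ω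
    exact ⟨R, mem_filter.2 ⟨mem_univ _, hR1⟩, hR2.le.trans h⟩
  have h3 := Pr_exists_le h0 h1 ((univ : Finset (Finset (It n))).filter (Tg n))
    (fun R (ω : It n → Bool) => cl ω R ≤ s)
  have hq : 0 ≤ p + (1 - p) * θ := add_nonneg h0 (mul_nonneg (by linarith) ht.le)
  have h4 : ∑ R ∈ (univ : Finset (Finset (It n))).filter (Tg n),
      Pr p (fun ω : It n → Bool => cl ω R ≤ s) ≤
      (((univ : Finset (Finset (It n))).filter (Tg n)).card : ℝ) *
        ((p + (1 - p) * θ) ^ (2 ^ n) / θ ^ s) := by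
    rw [← nsmul_eq_mul, ← sum_const]
    refine sum_le_sum fun R hR => ?_
    have h5 := Pr_cl_le h0 h1 ht ht1 s R
    rwa [card_Tg (mem_filter.1 hR).2] at h5
  have h6 : (((univ : Finset (Finset (It n))).filter (Tg n)).card : ℝ) *
        ((p + (1 - p) * θ) ^ (2 ^ n) / θ ^ s) ≤
      (8 * (p + (1 - p) * θ)) ^ (2 ^ n) / θ ^ s := by
    rw [mul_pow, mul_div_assoc]
    exact mul_le_mul_of_nonneg_right (card_tilings n) (by positivity)
  exact h2.trans (h3.trans (h4.trans h6))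

end Pool.Agent.helper7.Alm
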