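import Pool.Agent.helper17.DyS.Geo
import Pool.Agent.helper17.DyS.Half

/-!
# Tilings of the unit cube with few closed boxes: definitions
-/

set_option autoImplicit false
open scoped Classical
open Finset Pool.Agent.helper17.Dya Pool.Agent.helper17.DyS

namespace Pool.Agent.helper7.Alm

/-- `R` is a tiling of the unit cube by boxes of order `n` -/
def Tg (n : ℕ) (R : Finset (It n)) : Prop :=
  ∀ x : Fin 3 → ℕ, (∀ i, x i < 2 ^ n) → ∃! b, b ∈ R ∧ Cv n b.1 x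

/-- the number of closed boxes of `R` -/
noncomputable def cl {n : ℕ} (ω : It n → Bool) (R : Finset (It n)) : ℕ :=
  (R.filter fun b => ω b = false).card

/-- the least number of closed boxes in a tiling -/
noncomputable def kap (n : ℕ) (ω : It n → Bool) : ℕ := sInf {s | ∃ R, Tg n R ∧ cl ω R = s}

/-- the density of defects -/
noncomputable def Rn (n : ℕ) (p : ℝ) : ℝ := Ev p (fun ω => (kap n ω : ℝ)) / 2 ^ n

/-- a dyadic rectangle `((i, j), (a, b))`: levels `i`, `j` and positions `a`, `b` -/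
abbrev Q2 : Type := (ℕ × ℕ) × (ℕ × ℕ)

/-- the rectangle `q` contains the cell `(x, y)` (cells have side `2 ^ (-n)`) -/
def Cv2 (n : ℕ) (q : Q2) (x y : ℕ) : Prop :=
  x / 2 ^ (n - q.1.1) = q.2.1 ∧ y / 2 ^ (n - q.1.2) = q.2.2

/-- the dyadic rectangles with levels at most `n` -/
noncomputable def rects (n : ℕ) : Finset Q2 :=
  ((range (n + 1) ×ˢ range (n + 1)) ×ˢ (range (2 ^ n) ×ˢ range (2 ^ n))).filter
    fun q => q.2.1 < 2 ^ q.1.1 ∧ q.2.2 < 2 ^ q.1.2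

/-- `S` tiles the region `Ω` of the square -/
def Ti2 (n : ℕ) (Ω : ℕ → ℕ → Prop) (S : Finset Q2) : Prop :=
  (∀ q ∈ S, ∀ x < 2 ^ n, ∀ y < 2 ^ n, Cv2 n q x y → Ω x y) ∧
    ∀ x < 2 ^ n, ∀ y < 2 ^ n, Ω x y → ∃! q, q ∈ S ∧ Cv2 n q x y

/-- the column of the cell: the box `b` lies above the cell `(x, y)` -/
def Col (n : ℕ) (b : Tl) (x y : ℕ) : Prop :=
  x / 2 ^ (n - b.1 0) = b.2 0 ∧ y / 2 ^ (n - b.1 1) = b.2 1

/-- `R` tiles the product of `Ω` and the dyadic interval of level `l` and position `c` -/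
def Ti3 (n l c : ℕ) (Ω : ℕ → ℕ → Prop) (R : Finset (It n)) : Prop :=
  (∀ b ∈ R, l ≤ b.1.1 2 ∧ b.1.2 2 / 2 ^ (b.1.1 2 - l) = c ∧
    ∀ x < 2 ^ n, ∀ y < 2 ^ n, Col n b.1 x y → Ω x y) ∧
  ∀ x < 2 ^ n, ∀ y < 2 ^ n, ∀ z < 2 ^ n, z / 2 ^ (n - l) = c → Ω x y →
    ∃! b, b ∈ R ∧ Col n b.1 x y ∧ z / 2 ^ (n - b.1.1 2) = b.1.2 2

end Pool.Agent.helper7.Alm
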