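import Pool.Agent.helper7.Alm.Rho

/-!
# The critical point of exponential decay
-/

set_option autoImplicit false
open scoped Classical
open Finset Filter Pool.Agent.helper17.Dya Pool.Agent.helper17.DyS

namespace Pool.Agent.helper7.Alm

/-- open the closed boxes of an optimal tiling -/
theorem T_ge {n k : ℕ} {p r : ℝ} (h0 : 0 ≤ p) (h1 : p ≤ 1) (hr0 : 0 ≤ r) (hr1 : r ≤ 1) :
    Pr p (fun ω : It n → Bool => kap n ω ≤ k) * r ^ k ≤ T n (1 - (1 - p) * (1 - r)) := by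
  have e1 : T n (1 - (1 - p) * (1 - r)) =
      Ev p (fun ω : It n → Bool => Ev r (fun η : It n → Bool =>
        if Al n cube (fun i => ω i || η i) then (1 : ℝ) else 0)) := by
    rw [Ev_or p r fun ω : It n → Bool => if Al n cube ω then (1 : ℝ) else 0]
    rfl
  have e2 : Pr p (fun ω : It n → Bool => kap n ω ≤ k) * r ^ k =
      Ev p (fun ω : It n → Bool => (if kap n ω ≤ k then (1 : ℝ) else 0) * r ^ k) := by
    unfold Pr Ev
    rw [sum_mul]
    exact sum_congr rfl fun _ _ => by ring_nf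
  rw [e1, e2]
  refine Ev_mono h0 h1 fun ω => ?_
  split_ifs with h
  · obtain ⟨R, hR, hc⟩ := exists_kap ω
    have h2 := Pr_cyl (p := r) (R.filter fun b => ω b = false) (fun _ : It n => true)
    have h3 : ∏ i ∈ R.filter (fun b => ω b = false), wb r true = r ^ kap n ω := by
      rw [prod_const]
      have : (R.filter fun b => ω b = false).card = kap n ω := hc
      rw [this]
      rfl
    rw [h3] at h2
    rw [one_mul]
    have h4 : r ^ k ≤ r ^ kap n ω := pow_le_pow_of_le_one hr0 hr1 h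
    refine h4.trans (h2.symm.trans_le ?_)
    refine Ev_mono hr0 hr1 fun η => ?_
    split_ifs with h5 h6
    · exact le_rfl
    · exact (h6 (by
        refine (kap_zero _).1 (Nat.le_zero.1 ((kap_le_cl hR).trans ?_))
        unfold cl
        rw [Nat.le_zero, card_eq_zero, filter_eq_empty_iff]
        intro b hb hb2
        rcases Bool.eq_false_or_eq_true (ω b) with hω | hω
        · have h7 : (ω b || η b) = false := hb2
          rw [hω, Bool.true_or] at h7
          exact Bool.noConfusion h7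
        · have h8 := h5 b (mem_filter.2 ⟨hb, hω⟩)
          have h7 : (ω b || η b) = false := hb2
          rw [h8, Bool.or_true] at h7
          exact Bool.noConfusion h7)).elim
    · exact zero_le_one
    · exact le_rfl
  · rw [zero_mul]
    exact Pr_nonneg hr0 hr1 (fun η : It n → Bool => Al n cube fun i => ω i || η i)

theorem log_T_tendsto {p : ℝ} {q : ℝ} (h0 : 0 ≤ q) (hq : Rl q = 0) (hqp : q < p) (h1 : p ≤ 1) :
    Tendsto (fun n => Real.log (T n p) / 2 ^ n) atTop (nhds 0) := by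
  have hq1 : q < 1 := hqp.trans_le h1
  have hp0 : 0 ≤ p := h0.trans hqp.le
  set r : ℝ := (p - q) / (1 - q) with hr
  have hr0 : 0 < r := div_pos (by linarith) (by linarith)
  have hr1 : r ≤ 1 := (div_le_one (by linarith)).2 (by linarith)
  have hpr : 1 - (1 - q) * (1 - r) = p := by
    rw [hr]
    field_simp [show (1 - q) ≠ 0 by linarith]
    ring
  have hL : 0 ≤ Real.log r⁻¹ := Real.log_nonneg ((one_le_inv₀ hr0).2 hr1)
  rw [Metric.tendsto_atTop]
  intro ε hε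
  set d : ℝ := ε / (2 * (Real.log r⁻¹ + 1)) with hd
  have hd0 : 0 < d := by positivity
  have hdL : d * Real.log r⁻¹ ≤ ε / 2 := by
    rw [hd, div_mul_eq_mul_div, div_le_div_iff₀ (by positivity) (by norm_num)]
    nlinarith
  have h2 := Td_tendsto_one h0 hq1.le (show Rl q < d by rw [hq]; exact hd0)
  have h3 : ∀ᶠ n in atTop, (1 / 2 : ℝ) < Td d n q := h2.eventually (lt_mem_nhds (by norm_num))
  have h4 : Tendsto (fun n : ℕ => Real.log 2 / 2 ^ n) atTop (nhds 0) :=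
    tendsto_const_nhds.div_atTop (tendsto_pow_atTop_atTop_of_one_lt (by norm_num))
  have h5 : ∀ᶠ n : ℕ in atTop, Real.log 2 / 2 ^ n < ε / 2 :=
    h4.eventually (gt_mem_nhds (by positivity))
  obtain ⟨N, hN⟩ := eventually_atTop.1 (h3.and h5)
  refine ⟨N, fun n hn => ?_⟩
  obtain ⟨h6, h7⟩ := hN n hn
  have h2n : (0 : ℝ) < 2 ^ n := by positivity
  have h8 := T_ge (n := n) (k := ⌊d * 2 ^ n⌋₊) h0 hq1.le hr0.le hr1
  rw [hpr] at h8
  have h9 : Td d n q ≤ Pr q (fun ω : It n → Bool => kap n ω ≤ ⌊d * 2 ^ n⌋₊) :=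
    Pr_mono h0 hq1.le fun ω hω => Nat.le_floor hω
  have h10 : r ^ (d * 2 ^ n) ≤ r ^ ⌊d * 2 ^ n⌋₊ := by
    rw [← Real.rpow_natCast r ⌊d * 2 ^ n⌋₊]
    exact Real.rpow_le_rpow_of_exponent_ge hr0 hr1 (Nat.floor_le (by positivity))
  have h11 : 1 / 2 * r ^ (d * 2 ^ n) ≤ T n p := by
    refine le_trans ?_ h8
    exact mul_le_mul (h6.le.trans h9) h10 (by positivity) (Pr_nonneg h0 hq1.le _)
  have h12 : 0 < 1 / 2 * r ^ (d * 2 ^ n) := by positivity
  have h13 : 0 < T n p := h12.trans_le h11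
  have h14 : Real.log (T n p) ≤ 0 := Real.log_nonpos h13.le (Pr_le_one hp0 h1 _)
  have h15 := Real.log_le_log h12 h11
  rw [Real.log_mul (by norm_num) (by positivity), Real.log_rpow hr0, one_div, Real.log_inv] at h15
  rw [Real.log_inv] at hdL
  rw [Real.dist_eq, sub_zero, abs_of_nonpos (div_nonpos_of_nonpos_of_nonneg h14 h2n.le),
    ← neg_div, div_lt_iff₀ h2n]
  rw [div_lt_iff₀ h2n] at h7
  nlinarith

theorem log_T {p p' : ℝ} (h0 : 0 ≤ p) (h : p < p') (h1 : p' ≤ 1) (hp : Rl p = 0) :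
    Tendsto (fun n : ℕ => Real.log (T n p') / 2 ^ n) atTop (nhds 0) :=
  log_T_tendsto h0 hp h h1

/-- the critical point of exponential decay -/
theorem exists_ps' : ∃ ps : ℝ, 1 / 8 ≤ ps ∧ ps ≤ crit T ∧
    Tendsto (fun d => crit (Td d)) (nhdsWithin 0 (Set.Ioi 0)) (nhds ps) ∧
    (∀ p : ℝ, 0 ≤ p → p < ps → 0 < Rl p) ∧ (∀ p : ℝ, ps < p → p ≤ 1 → Rl p = 0) ∧
    (∀ p : ℝ, 0 ≤ p → p < ps → ∃ c : ℝ, 0 < c ∧ ∀ n : ℕ, T n p ≤ Real.exp (-(c * 2 ^ n))) ∧
    ∀ p : ℝ, ps < p → p ≤ 1 → Tendsto (fun n => Real.log (T n p) / 2 ^ n) atTop (nhds 0) := by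
  obtain ⟨ps, h1, h2, h3, h4⟩ := exists_ps
  have hz : ∀ p : ℝ, ps < p → p ≤ 1 → Rl p = 0 := by
    intro p hp hp1
    have h0 : 0 ≤ p := by linarith
    refine le_antisymm ?_ (Rl_nonneg h0 hp1)
    by_contra h
    rw [not_le] at h
    have h5 : ∀ᶠ d in nhdsWithin (0 : ℝ) (Set.Ioi 0), crit (Td d) < p :=
      h3.eventually (gt_mem_nhds hp)
    have h6 : ∀ᶠ d in nhdsWithin (0 : ℝ) (Set.Ioi 0), d ∈ Set.Ioo (0 : ℝ) (min 1 (Rl p)) :=
      Ioo_mem_nhdsGT (lt_min one_pos h)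
    obtain ⟨d, hd1, hd2⟩ := (h5.and h6).exists
    obtain ⟨hd3, hd4⟩ := lt_min_iff.1 hd2.2
    have h7 := Rl_crit hd2.1 hd3
    have h8 := Rl_anti (crit_nonneg hd2.1.le) hd1.le hp1
    linarith
  refine ⟨ps, h1, h2, h3, fun p h0 hp => ?_, hz, h4, fun p hp hp1 => ?_⟩
  · obtain ⟨q, hq1, hq2⟩ := exists_between hp
    have h5 : ∀ᶠ d in nhdsWithin (0 : ℝ) (Set.Ioi 0), q < crit (Td d) :=
      h3.eventually (lt_mem_nhds hq2)
    have h6 : ∀ᶠ d in nhdsWithin (0 : ℝ) (Set.Ioi 0), d ∈ Set.Ioo (0 : ℝ) 1 :=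
      Ioo_mem_nhdsGT one_pos
    obtain ⟨d, hd1, hd2⟩ := (h5.and h6).exists
    have h7 := Rl_crit hd2.1 hd2.2
    have h8 := Rl_anti h0 (hq1.trans hd1).le (crit_le_one hd2.1.le)
    linarith [hd2.1]
  · obtain ⟨q, hq1, hq2⟩ := exists_between hp
    exact log_T_tendsto (by linarith) (hz q hq1 (hq2.le.trans hp1)) hq2 hp1

end Pool.Agent.helper7.Alm
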