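import Pool.Agent.helper7.Alm.Exp

/-!
# The tilings with few closed boxes: final form
-/

set_option autoImplicit false
open scoped Classical
open Finset Filter Pool.Agent.helper17.Dya Pool.Agent.helper17.DyS

namespace Pool.Agent.helper7.Alm

lemma Rl_zero_of_le {p p' : ℝ} (h0 : 0 ≤ p) (h : p ≤ p') (h1 : p' ≤ 1) (hp : Rl p = 0) :
    Rl p' = 0 := by
  rcases h1.lt_or_eq with h2 | h2
  · have h3 := Rl_thin h0 h h1
    rw [hp, mul_zero] at h3
    have h4 : 0 < 1 - p := by linarith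
    refine le_antisymm ?_ (Rl_nonneg (h0.trans h) h1)
    by_contra h5
    rw [not_le] at h5
    exact absurd h3 (not_le.2 (mul_pos h4 h5))
  · rw [h2]
    exact Rl_one

lemma Rl_gt {d p q : ℝ} (hd : 0 < d) (h0 : 0 ≤ p) (h : p < q) (h1 : q ≤ 1) (hq : Rl q = d) :
    d < Rl p := by
  have h2 : 0 < Rl p := by
    rcases (Rl_nonneg h0 (h.le.trans h1)).lt_or_eq with h3 | h3
    · exact h3
    · exact absurd ((Rl_zero_of_le h0 h.le h1 h3.symm).symm.trans hq) hd.ne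
  rw [← hq]
  exact Rl_lt h0 h h1 h2

/-- the value of the critical point -/
lemma exists_sol {d : ℝ} (hd : 0 < d) (hd1 : d < 1) : ∃ q : ℝ, 0 < q ∧ q < 1 ∧ Rl q = d := by
  have h1 : Set.Icc (Rl 1) (Rl 0) ⊆ Rl '' Set.Icc 0 1 :=
    intermediate_value_Icc' zero_le_one Rl_cont
  obtain ⟨q, hq, h2⟩ := h1 (show d ∈ Set.Icc (Rl 1) (Rl 0) by
    rw [Rl_one, Rl_zero]
    exact ⟨hd.le, hd1.le⟩)
  refine ⟨q, lt_of_le_of_ne hq.1 ?_, lt_of_le_of_ne hq.2 ?_, h2⟩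
  · rintro rfl
    rw [Rl_zero] at h2
    exact hd1.ne' h2
  · rintro rfl
    rw [Rl_one] at h2
    exact hd.ne h2

theorem final :
    ∃ (ρ : ℝ → ℝ) (ps : ℝ), ContinuousOn ρ (Set.Icc 0 1) ∧ ρ 0 = 1 ∧ 1 / 8 ≤ ps ∧ ps ≤ crit T ∧
      (∀ p p' : ℝ, 0 ≤ p → p < p' → p' ≤ ps → ρ p' < ρ p) ∧
      (∀ p : ℝ, ps ≤ p → p ≤ 1 → ρ p = 0) ∧
      (∀ p : ℝ, 0 ≤ p → p ≤ 1 → ∀ n : ℕ,
        T n p ≤ (8 * p) ^ 2 ^ n ∧ T n p ≤ Real.exp (-(ρ p ^ 2 / 4 * 2 ^ n))) ∧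
      (∀ p : ℝ, ps < p → p ≤ 1 → Tendsto (fun n => Real.log (T n p) / 2 ^ n) atTop (nhds 0)) ∧
      (∀ p : ℝ, 0 ≤ p → p ≤ 1 →
        (∀ d : ℝ, d ≤ ρ p → ∀ n : ℕ, Td d n p ≤ Real.exp (-((ρ p - d) ^ 2 / 4 * 2 ^ n))) ∧
        ∀ d : ℝ, ρ p < d → ∃ N : ℕ, ∀ n : ℕ, N ≤ n →
          1 - Real.exp (-((d - ρ p) ^ 2 / 16 * 2 ^ n)) ≤ Td d n p) ∧
      (∀ d : ℝ, 0 < d → d < 1 → 0 < crit (Td d) ∧ crit (Td d) < ps ∧ ρ (crit (Td d)) = d ∧
        (∀ p : ℝ, 0 ≤ p → p < crit (Td d) → Tendsto (fun n => Td d n p) atTop (nhds 0)) ∧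
        ∀ p : ℝ, crit (Td d) < p → p ≤ 1 → Tendsto (fun n => Td d n p) atTop (nhds 1)) ∧
      Tendsto (fun d => crit (Td d)) (nhdsWithin 0 (Set.Ioi 0)) (nhds ps) := by
  set Z : Set ℝ := Set.Icc 0 1 ∩ Rl ⁻¹' {0} with hZ
  have hcl : IsClosed Z := Rl_cont.preimage_isClosed_of_isClosed isClosed_Icc isClosed_singleton
  have hne : Z.Nonempty := ⟨1, ⟨zero_le_one, le_rfl⟩, Rl_one⟩
  have hb : BddBelow Z := ⟨0, fun p hp => hp.1.1⟩
  have hmem : sInf Z ∈ Z := hcl.csInf_mem hne hb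
  have hz : ∀ p : ℝ, sInf Z ≤ p → p ≤ 1 → Rl p = 0 := fun p h1 h2 =>
    Rl_zero_of_le hmem.1.1 h1 h2 hmem.2
  have hpos : ∀ p : ℝ, 0 ≤ p → p < sInf Z → 0 < Rl p := by
    intro p h0 hp
    have h1 : p ≤ 1 := hp.le.trans hmem.1.2
    rcases (Rl_nonneg h0 h1).lt_or_eq with h3 | h3
    · exact h3
    · exact absurd (csInf_le hb (show p ∈ Z from ⟨⟨h0, h1⟩, h3.symm⟩)) (not_le.2 hp)
  have hd' : ∀ d : ℝ, 0 < d → d < 1 → 0 < crit (Td d) ∧ crit (Td d) < sInf Z ∧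
      Rl (crit (Td d)) = d := by
    intro d hd hd1
    obtain ⟨q, hq0, hq1, hq⟩ := exists_sol hd hd1
    rw [crit_eq hd hq0.le hq1 hq]
    refine ⟨hq0, ?_, hq⟩
    by_contra h
    rw [not_lt] at h
    exact hd.ne ((hz q h hq1.le).symm.trans hq)
  refine ⟨Rl, sInf Z, Rl_cont, Rl_zero, ?_, ?_, ?_, hz, ?_, ?_, ?_, ?_, ?_⟩
  · refine le_csInf hne fun p hp => ?_
    by_contra h
    rw [not_le] at h
    exact (Rl_pos hp.1.1 h).ne' hp.2
  · refine le_of_forall_gt_imp_ge_of_dense fun p hp => ?_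
    have h0 : 0 ≤ crit T := Real.sInf_nonneg fun x hx => hx.1
    rcases le_or_gt p 1 with h | h
    · exact csInf_le hb ⟨⟨h0.trans hp.le, h⟩, Rl_eq_zero hp h⟩
    · exact hmem.1.2.trans h.le
  · intro p p' h0 h h1
    exact Rl_lt h0 h (h1.trans hmem.1.2) (hpos p h0 (h.trans_le h1))
  · intro p h0 h1 n
    refine ⟨T_le_pow h0 h1, ?_⟩
    have := Td_lower h0 h1 (Rl_nonneg h0 h1) n
    rw [sub_zero] at this
    rw [T_eq_Td]
    exact this
  · intro p hp h1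
    exact log_T hmem.1.1 hp h1 hmem.2
  · intro p h0 h1
    refine ⟨fun d hd n => Td_lower h0 h1 hd n, fun d hd => ?_⟩
    obtain ⟨N, hN⟩ := Td_upper' h0 h1 hd
    exact ⟨N, fun n hn => by linarith [hN n hn]⟩
  · intro d hd hd1
    obtain ⟨q, hq0, hq1, hq⟩ := exists_sol hd hd1
    have hc := crit_eq hd hq0.le hq1 hq
    rw [hc]
    refine ⟨hq0, ?_, hq, ?_, ?_⟩
    · by_contra h
      rw [not_lt] at h
      exact hd.ne ((hz q h hq1.le).symm.trans hq)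
    · intro p h0 hp
      have h2 := Rl_gt hd h0 hp hq1.le hq
      have h3 : 0 < (Rl p - d) ^ 2 / 4 := by
        have : 0 < Rl p - d := by linarith
        positivity
      exact squeeze_zero (fun n => Td_nonneg h0 (by linarith) d n)
        (fun n => Td_lower h0 (by linarith) h2.le n) (tendsto_exp h3)
    · intro p hp h1
      refine Td_tendsto_one (hq0.trans hp).le h1 ?_
      rw [← hq]
      exact Rl_lt hq0.le hp h1 (hq ▸ hd)
  · rw [tendsto_order]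
    constructor
    · intro a ha
      have h2 : 0 < sInf Z := (hd' (1 / 2) (by norm_num) (by norm_num)).1.trans
        (hd' (1 / 2) (by norm_num) (by norm_num)).2.1
      obtain ⟨p, hp1, hp2⟩ := exists_between (max_lt ha h2)
      have h0 : 0 ≤ p := (le_max_right a 0).trans hp1.le
      have h3 := hpos p h0 hp2
      filter_upwards [Ioo_mem_nhdsGT (lt_min h3 one_pos)] with d hd
      obtain ⟨h4, h5, h6⟩ := hd' d hd.1 (hd.2.trans_le (min_le_right _ _))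
      refine ((le_max_left a 0).trans_lt hp1).trans ?_
      by_contra h7
      rw [not_lt] at h7
      rcases h7.lt_or_eq with h8 | h8
      · have h9 := Rl_lt h4.le h8 (hp2.le.trans hmem.1.2) (by rw [h6]; exact hd.1)
        rw [h6] at h9
        exact absurd (h9.trans (hd.2.trans_le (min_le_left _ _))) (lt_irrefl _)
      · rw [h8] at h6
        rw [← h6] at hd
        exact absurd (hd.2.trans_le (min_le_left _ _)) (lt_irrefl _)
    · intro a ha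
      filter_upwards [Ioo_mem_nhdsGT (one_pos : (0 : ℝ) < 1)] with d hd
      exact (hd' d hd.1 hd.2).2.1.trans ha

end Pool.Agent.helper7.Alm
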