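import Pool.Agent.helper17.Dya.Prob

/-!
# M3: McDiarmid's inequality for groups of coordinates

Sketch.  For a group `g` let `av g f ω = Ev p (fun η => f (fun i => if π i = g then η i else ω i))`.
Then `Ev p (av g f) = Ev p f` (swap the coordinates of the group `g` between `ω` and `η`, see `swp`,
`wt_swp` in Dya/Prob), `av g f` does not depend on the coordinates of the group `g` nor on any
coordinate on which `f` does not depend, `av g` is monotone and keeps the hypothesis `hf`.  Since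
`exp x ≤ x + exp (x ^ 2)`, a random variable `X` with mean zero and `|X| ≤ 1` has
`E exp (λ X) ≤ exp (λ ^ 2)`; hence `av g (exp (λ f)) ≤ exp (λ ^ 2) * exp (λ (av g f))` pointwise and
`Ev p (exp (λ f)) ≤ exp (λ ^ 2) * Ev p (exp (λ (av g f)))`.  Average over all groups one after the
other: `Ev p (exp (λ f)) ≤ exp (M λ ^ 2 + λ Ev p f)`, `M = card κ`, for every real `λ`.
Markov's inequality with `λ = ± t / (2 M)`.
-/

set_option autoImplicit false
open scoped Classical
open Finset Pool.Agent.helper17.Dya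

namespace Pool.Agent.helper7.Alm

section

variable {ι : Type} [Fintype ι]

/-- the average over the coordinates in `G` -/
noncomputable def Mcd_av (p : ℝ) (G : Set ι) (f : (ι → Bool) → ℝ) (ω : ι → Bool) : ℝ :=
  Ev p fun η => f fun i => if i ∈ G then η i else ω i

lemma Mcd_Ev_const (p c : ℝ) : Ev p (fun _ : ι → Bool => c) = c := by
  unfold Ev
  rw [← sum_mul, sum_wt, one_mul]

lemma Mcd_Ev_mul (p c : ℝ) (f : (ι → Bool) → ℝ) : Ev p (fun ω => c * f ω) = c * Ev p f := by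
  unfold Ev
  rw [mul_sum]
  exact sum_congr rfl fun _ _ => by ring

lemma Mcd_Ev_av (p : ℝ) (G : Set ι) (f : (ι → Bool) → ℝ) : Ev p (Mcd_av p G f) = Ev p f := by
  have h1 : Ev p (Mcd_av p G f) = ∑ q : (ι → Bool) × (ι → Bool),
      wt p q.1 * wt p q.2 * f (swp Gᶜ q).1 := by
    unfold Mcd_av Ev
    rw [← univ_product_univ, sum_product]
    refine sum_congr rfl fun ω _ => ?_
    rw [mul_sum]
    refine sum_congr rfl fun η _ => ?_
    have h : (fun i => if i ∈ G then η i else ω i) = (swp Gᶜ (ω, η)).1 := by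
      funext i
      by_cases hi : i ∈ G <;> simp [swp, hi]
    beta_reduce
    rw [h]
    ring
  have h2 : ∑ q : (ι → Bool) × (ι → Bool), wt p q.1 * wt p q.2 * f (swp Gᶜ q).1 =
      ∑ q : (ι → Bool) × (ι → Bool), wt p q.1 * wt p q.2 * f q.1 := by
    refine Finset.sum_nbij' (swp Gᶜ) (swp Gᶜ) (fun _ _ => mem_univ _) (fun _ _ => mem_univ _)
      (fun q _ => swp_swp _ q) (fun q _ => swp_swp _ q) fun q _ => ?_
    rw [wt_swp]
  rw [h1, h2, ← univ_product_univ, sum_product]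
  unfold Ev
  refine sum_congr rfl fun ω _ => ?_
  change ∑ η, wt p ω * wt p η * f ω = _
  rw [← sum_mul, ← mul_sum, sum_wt, mul_one]

lemma Mcd_abs_Ev_le {p : ℝ} (h0 : 0 ≤ p) (h1 : p ≤ 1) {f : (ι → Bool) → ℝ}
    (h : ∀ ω, |f ω| ≤ 1) : |Ev p f| ≤ 1 := by
  rw [abs_le]
  constructor
  · have := Ev_mono h0 h1 (f := fun _ => -1) (g := f) fun ω => (abs_le.1 (h ω)).1
    rwa [Mcd_Ev_const] at this
  · have := Ev_mono h0 h1 (f := f) (g := fun _ => 1) fun ω => (abs_le.1 (h ω)).2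
    rwa [Mcd_Ev_const] at this

lemma Mcd_exp_le {x : ℝ} (hx : |x| ≤ 1) (l : ℝ) :
    Real.exp (l * x) ≤ Real.cosh l + x * Real.sinh l := by
  obtain ⟨h1, h2⟩ := abs_le.1 hx
  have h := convexOn_exp.2 (Set.mem_univ (-l)) (Set.mem_univ l)
    (show (0 : ℝ) ≤ (1 - x) / 2 by linarith) (show (0 : ℝ) ≤ (1 + x) / 2 by linarith) (by ring)
  simp only [smul_eq_mul] at h
  have h3 : (1 - x) / 2 * -l + (1 + x) / 2 * l = l * x := by ring
  rw [h3] at h
  rw [Real.cosh_eq, Real.sinh_eq]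
  linarith

lemma Mcd_hoeff {p : ℝ} (h0 : 0 ≤ p) (h1 : p ≤ 1) {Y : (ι → Bool) → ℝ}
    (hY : ∀ η η', |Y η - Y η'| ≤ 1) (l : ℝ) :
    Ev p (fun η => Real.exp (l * Y η)) ≤ Real.exp (l ^ 2) * Real.exp (l * Ev p Y) := by
  have hm : ∀ η, |Y η - Ev p Y| ≤ 1 := by
    intro η
    have := Mcd_abs_Ev_le h0 h1 (f := fun η' => Y η - Y η') fun η' => hY η η'
    rwa [Ev_sub, Mcd_Ev_const] at this
  have h2 : Ev p (fun η => Real.exp (l * Y η)) ≤
      Ev p fun η => Real.exp (l * Ev p Y) * (Real.cosh l + (Y η - Ev p Y) * Real.sinh l) := by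
    refine Ev_mono h0 h1 fun η => ?_
    have h3 : l * Y η = l * Ev p Y + l * (Y η - Ev p Y) := by ring
    rw [h3, Real.exp_add]
    exact mul_le_mul_of_nonneg_left (Mcd_exp_le (hm η) l) (Real.exp_pos _).le
  refine h2.trans ?_
  rw [Mcd_Ev_mul, Ev_add, Mcd_Ev_const]
  have h4 : Ev p (fun η => (Y η - Ev p Y) * Real.sinh l) = 0 := by
    have h5 : Ev p (fun η => (Y η - Ev p Y) * Real.sinh l) =
        Ev p (fun η => Real.sinh l * (Y η - Ev p Y)) := by
      congr 1
      funext η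
      ring
    rw [h5, Mcd_Ev_mul, Ev_sub, Mcd_Ev_const, sub_self, mul_zero]
  rw [h4, add_zero, mul_comm]
  refine mul_le_mul_of_nonneg_right ((Real.cosh_le_exp_half_sq l).trans ?_) (Real.exp_pos _).le
  rw [Real.exp_le_exp]
  nlinarith [sq_nonneg l]

lemma Mcd_step {κ : Type} (π : ι → κ) {p : ℝ} (h0 : 0 ≤ p) (h1 : p ≤ 1) (l : ℝ) (T : Finset κ) :
    ∀ f : (ι → Bool) → ℝ, (∀ g : κ, ∀ ω ω' : ι → Bool, (∀ i, π i ≠ g → ω i = ω' i) →
      |f ω - f ω'| ≤ 1) → (∀ ω ω' : ι → Bool, (∀ i, π i ∈ T → ω i = ω' i) → f ω = f ω') →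
    Ev p (fun ω => Real.exp (l * f ω)) ≤ Real.exp (T.card * l ^ 2 + l * Ev p f) := by
  induction T using Finset.induction_on with
  | empty =>
    intro f _ hd
    have hc : f = fun _ => f fun _ => true := by
      funext ω
      exact hd _ _ fun i hi => absurd hi (notMem_empty _)
    have h2 : Ev p f = f fun _ => true := by
      conv_lhs => rw [hc]
      exact Mcd_Ev_const _ _
    have h3 : Ev p (fun ω => Real.exp (l * f ω)) = Real.exp (l * f fun _ => true) := by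
      have : (fun ω => Real.exp (l * f ω)) = fun _ => Real.exp (l * f fun _ => true) := by
        funext ω
        rw [hd ω (fun _ => true) fun i hi => absurd hi (notMem_empty _)]
      rw [this]
      exact Mcd_Ev_const _ _
    rw [h3, h2, card_empty, Nat.cast_zero, zero_mul, zero_add]
  | insert g T hg ih =>
    intro f hf hd
    have h2 := ih (Mcd_av p {i | π i = g} f) ?_ ?_
    · rw [Mcd_Ev_av] at h2
      have h3 : Ev p (fun ω => Real.exp (l * f ω)) ≤
          Ev p fun ω => Real.exp (l ^ 2) * Real.exp (l * Mcd_av p {i | π i = g} f ω) := by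
        rw [← Mcd_Ev_av p {i | π i = g} fun ω => Real.exp (l * f ω)]
        refine Ev_mono h0 h1 fun ω => ?_
        unfold Mcd_av
        refine Mcd_hoeff h0 h1 (fun η η' => hf g _ _ fun i hi => ?_) l
        have : i ∉ {i | π i = g} := hi
        simp only [if_neg this]
      refine h3.trans ?_
      rw [Mcd_Ev_mul]
      refine (mul_le_mul_of_nonneg_left h2 (Real.exp_pos _).le).trans (le_of_eq ?_)
      rw [← Real.exp_add, card_insert_of_notMem hg]
      congr 1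
      push_cast
      ring
    · intro g' ω ω' h
      unfold Mcd_av
      rw [← Ev_sub]
      refine Mcd_abs_Ev_le h0 h1 fun η => hf g' _ _ fun i hi => ?_
      by_cases hi' : i ∈ {i | π i = g}
      · rw [if_pos hi', if_pos hi']
      · rw [if_neg hi', if_neg hi']
        exact h i hi
    · intro ω ω' h
      unfold Mcd_av
      congr 1
      funext η
      refine hd _ _ fun i hi => ?_
      by_cases hi' : i ∈ {i | π i = g}
      · rw [if_pos hi', if_pos hi']
      · rw [if_neg hi', if_neg hi']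
        exact h i ((mem_insert.1 hi).resolve_left hi')

/-- Markov's inequality for the exponential -/
lemma Mcd_markov {p : ℝ} (h0 : 0 ≤ p) (h1 : p ≤ 1) (f : (ι → Bool) → ℝ) (l s : ℝ)
    (E : (ι → Bool) → Prop) (hE : ∀ ω, E ω → s ≤ l * f ω) :
    Pr p E ≤ Real.exp (-s) * Ev p fun ω => Real.exp (l * f ω) := by
  rw [← Mcd_Ev_mul]
  unfold Pr
  refine Ev_mono h0 h1 fun ω => ?_
  rw [← Real.exp_add]
  split_ifs with h
  · rw [← Real.exp_zero, Real.exp_le_exp]
    linarith [hE ω h]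
  · exact (Real.exp_pos _).le

end

theorem mgf_le {ι κ : Type} [Fintype ι] [Fintype κ] (π : ι → κ) {p : ℝ} (h0 : 0 ≤ p) (h1 : p ≤ 1)
    {f : (ι → Bool) → ℝ} (hf : ∀ g : κ, ∀ ω ω' : ι → Bool, (∀ i, π i ≠ g → ω i = ω' i) →
      |f ω - f ω'| ≤ 1) (l : ℝ) :
    Ev p (fun ω => Real.exp (l * f ω)) ≤
      Real.exp (Fintype.card κ * l ^ 2 + l * Ev p f) :=
  Mcd_step π h0 h1 l univ f hf fun ω ω' h => by
    rw [show ω = ω' from funext fun i => h i (mem_univ _)]

lemma Mcd_alg {M t : ℝ} (hM : M ≠ 0) :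
    -(t / (2 * M) * t) + M * (t / (2 * M)) ^ 2 = -(t ^ 2 / (4 * M)) := by
  field_simp
  ring

theorem mcd_lower {ι κ : Type} [Fintype ι] [Fintype κ] (π : ι → κ) {p : ℝ} (h0 : 0 ≤ p)
    (h1 : p ≤ 1) {f : (ι → Bool) → ℝ} (hf : ∀ g : κ, ∀ ω ω' : ι → Bool,
      (∀ i, π i ≠ g → ω i = ω' i) → |f ω - f ω'| ≤ 1) {t : ℝ} (ht : 0 ≤ t) :
    Pr p (fun ω => f ω ≤ Ev p f - t) ≤ Real.exp (-(t ^ 2 / (4 * Fintype.card κ))) := by
  by_cases hM : (Fintype.card κ : ℝ) = 0
  · rw [hM]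
    simpa using Pr_le_one h0 h1 _
  have hM' : (0 : ℝ) < Fintype.card κ := lt_of_le_of_ne (Nat.cast_nonneg _) (Ne.symm hM)
  have hl : 0 ≤ t / (2 * Fintype.card κ) := by positivity
  have h2 := Mcd_markov h0 h1 f (-(t / (2 * Fintype.card κ)))
    (-(t / (2 * Fintype.card κ)) * (Ev p f - t)) (fun ω => f ω ≤ Ev p f - t) fun ω h => by
      nlinarith
  refine h2.trans ((mul_le_mul_of_nonneg_left (mgf_le π h0 h1 hf _) (Real.exp_pos _).le).trans
    (le_of_eq ?_))
  rw [← Real.exp_add, ← Mcd_alg hM]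
  congr 1
  ring

theorem mcd_upper {ι κ : Type} [Fintype ι] [Fintype κ] (π : ι → κ) {p : ℝ} (h0 : 0 ≤ p)
    (h1 : p ≤ 1) {f : (ι → Bool) → ℝ} (hf : ∀ g : κ, ∀ ω ω' : ι → Bool,
      (∀ i, π i ≠ g → ω i = ω' i) → |f ω - f ω'| ≤ 1) {t : ℝ} (ht : 0 ≤ t) :
    Pr p (fun ω => Ev p f + t ≤ f ω) ≤ Real.exp (-(t ^ 2 / (4 * Fintype.card κ))) := by
  by_cases hM : (Fintype.card κ : ℝ) = 0
  · rw [hM]
    simpa using Pr_le_one h0 h1 _
  have hM' : (0 : ℝ) < Fintype.card κ := lt_of_le_of_ne (Nat.cast_nonneg _) (Ne.symm hM)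
  have hl : 0 ≤ t / (2 * Fintype.card κ) := by positivity
  have h2 := Mcd_markov h0 h1 f (t / (2 * Fintype.card κ))
    (t / (2 * Fintype.card κ) * (Ev p f + t)) (fun ω => Ev p f + t ≤ f ω) fun ω h => by
      nlinarith
  refine h2.trans ((mul_le_mul_of_nonneg_left (mgf_le π h0 h1 hf _) (Real.exp_pos _).le).trans
    (le_of_eq ?_))
  rw [← Real.exp_add, ← Mcd_alg hM]
  congr 1
  ring

end Pool.Agent.helper7.Alm
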