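import Pool.Agent.helper7.Alm.Defs
import Mathlib

/-!
# M4: a set of `2 ^ n` cells which meets every box of order `n` (a digital (0, n, 3)-net in base 2)

Sketch.  Let `f` run over the polynomials of degree `< n` over `ZMod 2` (there are `2 ^ n`).  The
binary digits (most significant digit first) of the first coordinate of the cell of `f` are the
coefficients `f_0, f_1, ..., f_(n-1)`, those of the second coordinate are the coefficients of
`f (X + 1)` (Taylor coefficients at `1`), those of the third one are `f_(n-1), f_(n-2), ..., f_0`.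
For `k 0 + k 1 + k 2 = n` the map from `f` to (the first `k 0` digits of the first, the first `k 1`
digits of the second, the first `k 2` digits of the third coordinate) is additive with trivial
kernel: `X ^ (k 0)` and `(X - 1) ^ (k 1)` divide `f` and `deg f < n - k 2 = k 0 + k 1`, so `f = 0`.
So it is injective, hence bijective (both sides have `2 ^ n` elements): every box with levels `k`
contains the cell of exactly one `f`.
-/

set_option autoImplicit false
open scoped Classical
open Finset Pool.Agent.helper17.Dya Pool.Agent.helper17.DyS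

namespace Pool.Agent.helper7.Alm

/-- the number whose binary digits are `d 0, ..., d (m - 1)`, most significant digit first -/
def vl (d : ℕ → ZMod 2) : ℕ → ℕ
  | 0 => 0
  | m + 1 => 2 * vl d m + (d m).val

lemma vl_lt (d : ℕ → ZMod 2) (m : ℕ) : vl d m < 2 ^ m := by
  induction m with
  | zero => simp [vl]
  | succ m ih =>
    have h1 : (d m).val < 2 := ZMod.val_lt (d m)
    rw [vl, pow_succ]
    omega

lemma vl_div (d : ℕ → ZMod 2) (k t : ℕ) : vl d (k + t) / 2 ^ t = vl d k := by
  induction t with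
  | zero => simp
  | succ t ih =>
    have h1 : (d (k + t)).val < 2 := ZMod.val_lt (d (k + t))
    have h2 : vl d (k + (t + 1)) / 2 = vl d (k + t) := by
      change (2 * vl d (k + t) + (d (k + t)).val) / 2 = _
      omega
    rw [pow_succ', ← Nat.div_div_eq_div_mul, h2, ih]

lemma vl_inj {d d' : ℕ → ZMod 2} {m : ℕ} (h : vl d m = vl d' m) : ∀ j < m, d j = d' j := by
  induction m with
  | zero => intro j hj; omega
  | succ m ih =>
    have h1 : (d m).val < 2 := ZMod.val_lt (d m)
    have h2 : (d' m).val < 2 := ZMod.val_lt (d' m)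
    change 2 * vl d m + (d m).val = 2 * vl d' m + (d' m).val at h
    have h3 : vl d m = vl d' m := by omega
    have h4 : (d m).val = (d' m).val := by omega
    intro j hj
    rcases Nat.lt_succ_iff_lt_or_eq.1 hj with h5 | h5
    · exact ih h3 j h5
    · rw [h5]
      exact ZMod.val_injective 2 h4

/-- the digits of the three coordinates of the cell of `f` -/
noncomputable def dig (n : ℕ) (f : Polynomial (ZMod 2)) : Fin 3 → ℕ → ZMod 2 :=
  ![fun j => f.coeff j, fun j => (f.comp (Polynomial.X + Polynomial.C 1)).coeff j, fun j => f.coeff (n - 1 - j)]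

/-- a polynomial of degree less than `n` with `k 0 + k 1 + k 2 = n` vanishing digits is zero -/
lemma dig_zero {n a b c : ℕ} (habc : a + b + c = n) {f : Polynomial (ZMod 2)}
    (hf : f ∈ Polynomial.degreeLT (ZMod 2) n) (h0 : ∀ j < a, f.coeff j = 0)
    (h1 : ∀ j < b, (f.comp (Polynomial.X + Polynomial.C 1)).coeff j = 0)
    (h2 : ∀ j < c, f.coeff (n - 1 - j) = 0) : f = 0 := by
  have hd0 : Polynomial.X ^ a ∣ f := Polynomial.X_pow_dvd_iff.2 h0
  have hd1 : (Polynomial.X - Polynomial.C (1 : ZMod 2)) ^ b ∣ f :=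
    Polynomial.X_sub_C_pow_dvd_iff.2 (Polynomial.X_pow_dvd_iff.2 h1)
  have hcop : IsCoprime (Polynomial.X : Polynomial (ZMod 2)) (Polynomial.X - Polynomial.C (1 : ZMod 2)) :=
    ⟨1, -1, by rw [Polynomial.C_1]; ring⟩
  have hd : Polynomial.X ^ a * (Polynomial.X - Polynomial.C (1 : ZMod 2)) ^ b ∣ f :=
    (hcop.pow (m := a) (n := b)).mul_dvd hd0 hd1
  have hdeg : f.degree < ((a + b : ℕ) : WithBot ℕ) := by
    rw [Polynomial.degree_lt_iff_coeff_zero]
    intro m hm
    by_cases hmn : n ≤ m
    · exact (Polynomial.degree_lt_iff_coeff_zero f n).1 (Polynomial.mem_degreeLT.1 hf) m hmn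
    · have h3 := h2 (n - 1 - m) (by omega)
      have h4 : n - 1 - (n - 1 - m) = m := by omega
      rwa [h4] at h3
  refine Polynomial.eq_zero_of_dvd_of_degree_lt hd ?_
  rw [Polynomial.degree_mul, Polynomial.degree_X_pow, Polynomial.degree_pow, Polynomial.degree_X_sub_C]
  rw [nsmul_one]
  exact_mod_cast hdeg

theorem net (n : ℕ) : ∃ pt : Fin (2 ^ n) → (Fin 3 → ℕ), (∀ c i, pt c i < 2 ^ n) ∧
    ∀ b : It n, ∃ c, Cv n b.1 (pt c) := by
  have : Fintype (Polynomial.degreeLT (ZMod 2) n) :=
    Fintype.ofEquiv _ (Polynomial.degreeLTEquiv (ZMod 2) n).toEquiv.symm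
  have hcard : Fintype.card (Polynomial.degreeLT (ZMod 2) n) = 2 ^ n := by
    rw [Fintype.card_congr (Polynomial.degreeLTEquiv (ZMod 2) n).toEquiv]
    simp [ZMod.card]
  let e := Fintype.equivFinOfCardEq hcard
  refine ⟨fun c i => vl (dig n ((e.symm c : Polynomial.degreeLT (ZMod 2) n) : Polynomial (ZMod 2)) i) n,
    fun c i => vl_lt _ _, fun b => ?_⟩
  let Φ : Polynomial.degreeLT (ZMod 2) n → ((i : Fin 3) → Fin (2 ^ b.1.1 i)) :=
    fun p i => ⟨vl (dig n (p : Polynomial (ZMod 2)) i) (b.1.1 i), vl_lt _ _⟩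
  have hk : b.1.1 0 + b.1.1 1 + b.1.1 2 = n := by
    have h := b.2.1
    rwa [Fin.sum_univ_three] at h
  have hinj : Function.Injective Φ := by
    intro p p' h
    have h0 := vl_inj (congrArg Fin.val (congrFun h 0))
    have h1 := vl_inj (congrArg Fin.val (congrFun h 1))
    have h2 := vl_inj (congrArg Fin.val (congrFun h 2))
    have h3 : (p - p' : Polynomial.degreeLT (ZMod 2) n).1 = 0 := by
      refine dig_zero hk (p - p').2 (fun j hj => ?_) (fun j hj => ?_) (fun j hj => ?_)
      · have h4 : (p : Polynomial (ZMod 2)).coeff j = (p' : Polynomial (ZMod 2)).coeff j := h0 j hj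
        change ((p : Polynomial (ZMod 2)) - p').coeff j = 0
        rw [Polynomial.coeff_sub, h4, sub_self]
      · have h4 : ((p : Polynomial (ZMod 2)).comp (Polynomial.X + Polynomial.C 1)).coeff j
            = ((p' : Polynomial (ZMod 2)).comp (Polynomial.X + Polynomial.C 1)).coeff j := h1 j hj
        change (((p : Polynomial (ZMod 2)) - p').comp (Polynomial.X + Polynomial.C 1)).coeff j = 0
        rw [Polynomial.sub_comp, Polynomial.coeff_sub, h4, sub_self]
      · have h4 : (p : Polynomial (ZMod 2)).coeff (n - 1 - j) = (p' : Polynomial (ZMod 2)).coeff (n - 1 - j) :=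
          h2 j hj
        change ((p : Polynomial (ZMod 2)) - p').coeff (n - 1 - j) = 0
        rw [Polynomial.coeff_sub, h4, sub_self]
    have h4 : p - p' = 0 := Subtype.ext h3
    exact sub_eq_zero.1 h4
  have hbij : Function.Bijective Φ := by
    rw [Fintype.bijective_iff_injective_and_card]
    refine ⟨hinj, ?_⟩
    rw [hcard, Fintype.card_pi]
    simp only [Fintype.card_fin]
    rw [prod_pow_eq_pow_sum, b.2.1]
  obtain ⟨p, hp⟩ := hbij.2 fun i => ⟨b.1.2 i, b.2.2 i⟩
  refine ⟨e p, fun i => ?_⟩
  have h1 : vl (dig n (p : Polynomial (ZMod 2)) i) (b.1.1 i) = b.1.2 i := congrArg Fin.val (congrFun hp i)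
  have h2 : b.1.1 i + (n - b.1.1 i) = n := Nat.add_sub_cancel' (b.2.le i)
  have h3 := vl_div (dig n (p : Polynomial (ZMod 2)) i) (b.1.1 i) (n - b.1.1 i)
  rw [h2] at h3
  rw [← h1, ← h3]
  simp only [Equiv.symm_apply_apply]

/-- boxes of the same colour meet -/
theorem colour (n : ℕ) : ∃ col : It n → Fin (2 ^ n), ∀ b b' : It n, col b = col b' →
    ∃ x : Fin 3 → ℕ, (∀ i, x i < 2 ^ n) ∧ Cv n b.1 x ∧ Cv n b'.1 x := by
  obtain ⟨pt, h1, h2⟩ := net n
  choose col hcol using h2
  refine ⟨col, fun b b' h => ⟨pt (col b), h1 _, hcol b, ?_⟩⟩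
  rw [h]
  exact hcol b'

end Pool.Agent.helper7.Alm
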