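import Pool.Agent.helper7.Alm.Basic

/-!
# M8: thinning (proofs: helper33)

`Ev_or`: if every coordinate is open with probability `p` in `ω` and with probability `s` in `η`,
independently, then it is open in `ω ∨ η` with probability `1 - (1 - p) (1 - s)`.
`kap_thin`: with `1 - p' = (1 - p) (1 - s)` and an optimal tiling `R` for `ω`,
`kap (ω ∨ η) ≤ #{b ∈ R | ω b = false, η b = false}`, whose mean over `η` is `(1 - s) * kap ω`.
-/

set_option autoImplicit false
open scoped Classical
open Finset Pool.Agent.helper17.Dya Pool.Agent.helper17.DyS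

namespace Pool.Agent.helper7.Alm

/-- the law of `ω ∨ η` -/
theorem wt_or {ι : Type} [Fintype ι] (p s : ℝ) (ζ : ι → Bool) :
    ∑ ω : ι → Bool, ∑ η : ι → Bool, wt p ω * wt s η * (if (fun i => ω i || η i) = ζ then 1 else 0) =
      wt (1 - (1 - p) * (1 - s)) ζ := by
  have h1 : ∀ ω η : ι → Bool, (if (fun i => ω i || η i) = ζ then (1 : ℝ) else 0) =
      ∏ i, (if (ω i || η i) = ζ i then 1 else 0) := by
    intro ω η
    rw [Finset.prod_boole]
    simp only [Finset.mem_univ, true_imp_iff, funext_iff]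
  have h2 : ∀ ω η : ι → Bool, wt p ω * wt s η * (if (fun i => ω i || η i) = ζ then 1 else 0) =
      ∏ i, (wb p (ω i) * wb s (η i) * (if (ω i || η i) = ζ i then 1 else 0)) := by
    intro ω η
    rw [h1, wt, wt, ← Finset.prod_mul_distrib, ← Finset.prod_mul_distrib]
  simp only [h2]
  have h3 : ∀ ω : ι → Bool, ∑ η : ι → Bool,
      ∏ i, (wb p (ω i) * wb s (η i) * (if (ω i || η i) = ζ i then 1 else 0)) =
      ∏ i, ∑ b : Bool, (wb p (ω i) * wb s b * (if (ω i || b) = ζ i then 1 else 0)) := fun ω =>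
    sum_prod (fun i b => wb p (ω i) * wb s b * (if (ω i || b) = ζ i then 1 else 0))
  simp only [h3]
  rw [sum_prod (fun i a => ∑ b : Bool, (wb p a * wb s b * (if (a || b) = ζ i then 1 else 0))), wt]
  refine Finset.prod_congr rfl fun i _ => ?_
  cases ζ i
  · simp [wb]
  · simp [wb]
    ring

theorem Ev_or {ι : Type} [Fintype ι] (p s : ℝ) (f : (ι → Bool) → ℝ) :
    Ev p (fun ω => Ev s (fun η => f (fun i => ω i || η i))) =
      Ev (1 - (1 - p) * (1 - s)) f := by
  unfold Ev
  have h1 : ∀ ω η : ι → Bool, f (fun i => ω i || η i) =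
      ∑ ζ : ι → Bool, (if (fun i => ω i || η i) = ζ then 1 else 0) * f ζ := by
    intro ω η
    simp [ite_mul]
  have h2 : ∀ ω : ι → Bool, wt p ω * ∑ η : ι → Bool, wt s η * f (fun i => ω i || η i) =
      ∑ ζ : ι → Bool, (∑ η : ι → Bool, wt p ω * wt s η * (if (fun i => ω i || η i) = ζ then 1 else 0)) * f ζ := by
    intro ω
    rw [Finset.mul_sum]
    simp only [Finset.sum_mul]
    rw [Finset.sum_comm]
    refine Finset.sum_congr rfl fun η _ => ?_
    rw [h1 ω η, Finset.mul_sum, Finset.mul_sum]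
    refine Finset.sum_congr rfl fun ζ _ => ?_
    ring
  simp only [h2]
  rw [Finset.sum_comm]
  refine Finset.sum_congr rfl fun ζ _ => ?_
  rw [← Finset.sum_mul, wt_or]

theorem Ev_sum {ι : Type} [Fintype ι] {α : Type} (p : ℝ) (S : Finset α) (f : α → (ι → Bool) → ℝ) :
    Ev p (fun ω => ∑ a ∈ S, f a ω) = ∑ a ∈ S, Ev p (f a) := by
  unfold Ev
  rw [Finset.sum_comm]
  refine Finset.sum_congr rfl fun ω _ => ?_
  rw [Finset.mul_sum]

theorem Ev_smul {ι : Type} [Fintype ι] (p c : ℝ) (f : (ι → Bool) → ℝ) :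
    Ev p (fun ω => c * f ω) = c * Ev p f := by
  unfold Ev
  rw [Finset.mul_sum]
  refine Finset.sum_congr rfl fun ω _ => ?_
  ring

theorem Ev_closed {ι : Type} [Fintype ι] (s : ℝ) (i : ι) :
    Ev s (fun η : ι → Bool => if η i = false then (1 : ℝ) else 0) = 1 - s := by
  have h1 : Ev s (fun η : ι → Bool => if η i = false then (1 : ℝ) else 0) =
      Pr s (fun η : ι → Bool => ¬ η i = true) := by
    unfold Pr
    congr 1
    funext η
    rcases Bool.eq_false_or_eq_true (η i) with h | h <;> simp [h]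
  rw [h1, Pr_not, Pr_coord]

/-- the mean over `η` for fixed `ω` -/
theorem kap_or {n : ℕ} {s : ℝ} (h0 : 0 ≤ s) (h1 : s ≤ 1) (ω : It n → Bool) :
    Ev s (fun η => (kap n (fun i => ω i || η i) : ℝ)) ≤ (1 - s) * kap n ω := by
  obtain ⟨R, hR, hk⟩ := exists_kap ω
  have h2 : ∀ η : It n → Bool, (kap n (fun i => ω i || η i) : ℝ) ≤
      ∑ b ∈ R.filter (fun b => ω b = false), (if η b = false then (1 : ℝ) else 0) := by
    intro η
    have h3 : kap n (fun i => ω i || η i) ≤ cl (fun i => ω i || η i) R := kap_le_cl hR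
    have h4 : (cl (fun i => ω i || η i) R : ℝ) =
        ∑ b ∈ R.filter (fun b => ω b = false), (if η b = false then (1 : ℝ) else 0) := by
      rw [Finset.sum_boole, cl, Finset.filter_filter]
      congr 2
      refine Finset.filter_congr fun b _ => ?_
      simp
    rw [← h4]
    exact_mod_cast h3
  refine (Ev_mono h0 h1 h2).trans ?_
  rw [Ev_sum]
  simp only [Ev_closed]
  rw [Finset.sum_const, nsmul_eq_mul, ← hk, cl]
  exact le_of_eq (mul_comm _ _)

theorem kap_thin {n : ℕ} {p p' : ℝ} (h0 : 0 ≤ p) (h : p ≤ p') (h1 : p' ≤ 1) :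
    (1 - p) * Rn n p' ≤ (1 - p') * Rn n p := by
  rcases eq_or_lt_of_le (h.trans h1) with hp | hp
  · have hp' : p' = 1 := le_antisymm h1 (hp ▸ h)
    rw [hp, hp', sub_self, zero_mul]
  · have hq : 0 < 1 - p := by linarith
    set s : ℝ := (p' - p) / (1 - p) with hs
    have hs0 : 0 ≤ s := div_nonneg (by linarith) hq.le
    have hs1 : s ≤ 1 := by
      rw [hs, div_le_one hq]
      linarith
    have hs2 : (1 - p) * (1 - s) = 1 - p' := by
      rw [hs]
      field_simp
      ring
    have h2 : Ev p' (fun ω : It n → Bool => (kap n ω : ℝ)) ≤ (1 - s) * Ev p (fun ω : It n → Bool => (kap n ω : ℝ)) := by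
      have h3 := Ev_or (ι := It n) p s (fun ω => (kap n ω : ℝ))
      rw [hs2, sub_sub_cancel] at h3
      rw [← h3, ← Ev_smul]
      exact Ev_mono h0 (by linarith) fun ω => kap_or hs0 hs1 ω
    have h4 : (1 - p) * Ev p' (fun ω : It n → Bool => (kap n ω : ℝ)) ≤
        (1 - p') * Ev p (fun ω : It n → Bool => (kap n ω : ℝ)) := by
      calc (1 - p) * Ev p' (fun ω : It n → Bool => (kap n ω : ℝ)) ≤
          (1 - p) * ((1 - s) * Ev p (fun ω : It n → Bool => (kap n ω : ℝ))) := mul_le_mul_of_nonneg_left h2 hq.le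
        _ = (1 - p') * Ev p (fun ω : It n → Bool => (kap n ω : ℝ)) := by rw [← mul_assoc, hs2]
    unfold Rn
    rw [← mul_div_assoc, ← mul_div_assoc]
    exact div_le_div_of_nonneg_right h4 (by positivity)

end Pool.Agent.helper7.Alm
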