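import Pool.Agent.helper7.Alm.Sub
import Pool.Agent.helper7.Alm.Mcd
import Pool.Agent.helper7.Alm.Net
import Pool.Agent.helper7.Alm.Count
import Pool.Agent.helper7.Alm.Thin

/-!
# The critical points of the tilings with few closed boxes
-/

set_option autoImplicit false
open scoped Classical
open Finset Filter Pool.Agent.helper17.Dya Pool.Agent.helper17.DyS

namespace Pool.Agent.helper7.Alm

/-- the probability of a tiling with at most `d 2 ^ n` closed boxes -/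
noncomputable def Td (d : ℝ) (n : ℕ) (p : ℝ) : ℝ := Pr p fun ω => (kap n ω : ℝ) ≤ d * 2 ^ n

/-- the critical point -/
noncomputable def crit (f : ℕ → ℝ → ℝ) : ℝ :=
  sInf {p : ℝ | 0 ≤ p ∧ p ≤ 1 ∧ Tendsto (fun n => f n p) atTop (nhds 1)}

/-- the limit of `Rn` -/
noncomputable def Rl (p : ℝ) : ℝ := ⨅ n, Rn n p

lemma Rn_nonneg {p : ℝ} (h0 : 0 ≤ p) (h1 : p ≤ 1) (n : ℕ) : 0 ≤ Rn n p := by
  unfold Rn
  refine div_nonneg ?_ (by positivity)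
  unfold Ev
  exact sum_nonneg fun ω _ => mul_nonneg (wt_nonneg h0 h1 ω) (Nat.cast_nonneg _)

lemma Rn_zero_le (n : ℕ) : Rn n 0 ≤ 1 := by
  unfold Rn
  rw [div_le_one (by positivity)]
  calc Ev 0 (fun ω => (kap n ω : ℝ)) ≤ Ev 0 (fun _ : It n → Bool => (2 : ℝ) ^ n) :=
        Ev_mono le_rfl zero_le_one fun ω => by exact_mod_cast kap_le ω
    _ = 2 ^ n := by
        unfold Ev
        rw [← sum_mul, sum_wt, one_mul]

lemma Rn_le {p : ℝ} (h0 : 0 ≤ p) (h1 : p ≤ 1) (n : ℕ) : Rn n p ≤ 1 - p := by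
  have := kap_thin (n := n) (p := 0) (p' := p) le_rfl h0 h1
  rw [sub_zero, one_mul] at this
  exact this.trans (mul_le_of_le_one_right (by linarith) (Rn_zero_le n))

lemma bdd {p : ℝ} (h0 : 0 ≤ p) (h1 : p ≤ 1) : BddBelow (Set.range fun n => Rn n p) :=
  ⟨0, by rintro _ ⟨n, rfl⟩; exact Rn_nonneg h0 h1 n⟩

lemma Rl_le {p : ℝ} (h0 : 0 ≤ p) (h1 : p ≤ 1) (n : ℕ) : Rl p ≤ Rn n p := ciInf_le (bdd h0 h1) n

lemma Rl_nonneg {p : ℝ} (h0 : 0 ≤ p) (h1 : p ≤ 1) : 0 ≤ Rl p := le_ciInf fun n => Rn_nonneg h0 h1 n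

lemma Rl_le_one_sub {p : ℝ} (h0 : 0 ≤ p) (h1 : p ≤ 1) : Rl p ≤ 1 - p :=
  (Rl_le h0 h1 0).trans (Rn_le h0 h1 0)

lemma Rn_anti {p : ℝ} (h0 : 0 ≤ p) (h1 : p ≤ 1) : Antitone fun n => Rn n p :=
  antitone_nat_of_succ_le fun _ => Rn_succ_le h0 h1

lemma Rl_thin {p p' : ℝ} (h0 : 0 ≤ p) (h : p ≤ p') (h1 : p' ≤ 1) :
    (1 - p) * Rl p' ≤ (1 - p') * Rl p := by
  rcases h1.lt_or_eq with h2 | h2
  · have h3 : 0 < 1 - p' := by linarith
    rw [← div_le_iff₀' h3]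
    refine le_ciInf fun n => ?_
    rw [div_le_iff₀' h3]
    refine le_trans ?_ (kap_thin (n := n) h0 h h1)
    exact mul_le_mul_of_nonneg_left (Rl_le (h0.trans h) h1 n) (by linarith)
  · subst h2
    have h3 : Rl 1 = 0 := le_antisymm (by simpa using Rl_le_one_sub zero_le_one le_rfl)
      (Rl_nonneg zero_le_one le_rfl)
    rw [h3]
    simp

lemma exists_pi (n : ℕ) : ∃ π : It n → Fin (2 ^ n), ∀ g : Fin (2 ^ n), ∀ ω ω' : It n → Bool,
    (∀ i, π i ≠ g → ω i = ω' i) → |(kap n ω : ℝ) - kap n ω'| ≤ 1 := by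
  obtain ⟨col, hcol⟩ := colour n
  refine ⟨col, fun g ω ω' h => kap_lip (A := {b | col b = g}) ?_ fun b hb => h b hb⟩
  intro b hb b' hb'
  exact hcol b b' (by rw [hb, hb'])

lemma Td_lower {d p : ℝ} (h0 : 0 ≤ p) (h1 : p ≤ 1) (hd : d ≤ Rl p) (n : ℕ) :
    Td d n p ≤ Real.exp (-((Rl p - d) ^ 2 / 4 * 2 ^ n)) := by
  obtain ⟨π, hπ⟩ := exists_pi n
  have h2 := mcd_lower π h0 h1 hπ (t := (Rl p - d) * 2 ^ n) (mul_nonneg (by linarith) (by positivity))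
  rw [Fintype.card_fin] at h2
  have h3 : ((Rl p - d) * 2 ^ n) ^ 2 / (4 * ((2 ^ n : ℕ) : ℝ)) = (Rl p - d) ^ 2 / 4 * 2 ^ n := by
    have : ((2 : ℝ) ^ n) ≠ 0 := by positivity
    push_cast
    field_simp
  rw [h3] at h2
  refine le_trans (Pr_mono h0 h1 fun ω hω => ?_) h2
  have h4 : Ev p (fun ω => (kap n ω : ℝ)) = Rn n p * 2 ^ n := by
    unfold Rn
    have : ((2 : ℝ) ^ n) ≠ 0 := by positivity
    field_simp
  rw [h4]
  have h5 : Rl p * 2 ^ n ≤ Rn n p * 2 ^ n :=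
    mul_le_mul_of_nonneg_right (Rl_le h0 h1 n) (by positivity)
  linarith

lemma Td_upper {d p : ℝ} (h0 : 0 ≤ p) (h1 : p ≤ 1) (hd : Rl p < d) :
    ∃ c : ℝ, 0 < c ∧ ∃ N : ℕ, ∀ n : ℕ, N ≤ n → 1 - Real.exp (-(c * 2 ^ n)) ≤ Td d n p := by
  obtain ⟨N, hN⟩ := exists_lt_of_ciInf_lt (show (⨅ n, Rn n p) < (Rl p + d) / 2 by
    have : (⨅ n, Rn n p) = Rl p := rfl
    linarith)
  set m := (Rl p + d) / 2 with hm
  have hmd : 0 < d - m := by linarith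
  refine ⟨(d - m) ^ 2 / 4, by positivity, N, fun n hn => ?_⟩
  obtain ⟨π, hπ⟩ := exists_pi n
  have h2 := mcd_upper π h0 h1 hπ (t := (d - m) * 2 ^ n) (mul_nonneg hmd.le (by positivity))
  rw [Fintype.card_fin] at h2
  have h3 : ((d - m) * 2 ^ n) ^ 2 / (4 * ((2 ^ n : ℕ) : ℝ)) = (d - m) ^ 2 / 4 * 2 ^ n := by
    have : ((2 : ℝ) ^ n) ≠ 0 := by positivity
    push_cast
    field_simp
  rw [h3] at h2
  have h4 : Ev p (fun ω => (kap n ω : ℝ)) = Rn n p * 2 ^ n := by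
    unfold Rn
    have : ((2 : ℝ) ^ n) ≠ 0 := by positivity
    field_simp
  have h5 : Rn n p * 2 ^ n ≤ m * 2 ^ n :=
    mul_le_mul_of_nonneg_right (((Rn_anti h0 h1) hn).trans hN.le) (by positivity)
  have h6 := Pr_not (p := p) (fun ω : It n → Bool => (kap n ω : ℝ) ≤ d * 2 ^ n)
  have h7 : Pr p (fun ω : It n → Bool => ¬ (kap n ω : ℝ) ≤ d * 2 ^ n) ≤
      Real.exp (-((d - m) ^ 2 / 4 * 2 ^ n)) := by
    refine le_trans (Pr_mono h0 h1 fun ω hω => ?_) h2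
    rw [h4]
    rw [not_le] at hω
    linarith
  unfold Td
  linarith

lemma Td_le_one {p : ℝ} (h0 : 0 ≤ p) (h1 : p ≤ 1) (d : ℝ) (n : ℕ) : Td d n p ≤ 1 :=
  Pr_le_one h0 h1 _

lemma Td_nonneg {p : ℝ} (h0 : 0 ≤ p) (h1 : p ≤ 1) (d : ℝ) (n : ℕ) : 0 ≤ Td d n p :=
  Pr_nonneg h0 h1 _

lemma tendsto_exp {c : ℝ} (hc : 0 < c) :
    Tendsto (fun n : ℕ => Real.exp (-(c * 2 ^ n))) atTop (nhds 0) := by
  refine Real.tendsto_exp_neg_atTop_nhds_zero.comp ?_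
  exact (tendsto_pow_atTop_atTop_of_one_lt (by norm_num)).const_mul_atTop hc

lemma Td_tendsto_one {d p : ℝ} (h0 : 0 ≤ p) (h1 : p ≤ 1) (hd : Rl p < d) :
    Tendsto (fun n => Td d n p) atTop (nhds 1) := by
  obtain ⟨c, hc, N, hN⟩ := Td_upper h0 h1 hd
  have h2 : Tendsto (fun n : ℕ => 1 - Real.exp (-(c * 2 ^ n))) atTop (nhds 1) := by
    simpa using (tendsto_exp hc).const_sub 1
  refine tendsto_of_tendsto_of_tendsto_of_le_of_le' h2 tendsto_const_nhds ?_ ?_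
  · filter_upwards [eventually_ge_atTop N] with n hn using hN n hn
  · exact Eventually.of_forall fun n => Td_le_one h0 h1 d n

lemma Rl_le_of_tendsto {d p : ℝ} (h0 : 0 ≤ p) (h1 : p ≤ 1)
    (h : Tendsto (fun n => Td d n p) atTop (nhds 1)) : Rl p ≤ d := by
  by_contra h2
  rw [not_le] at h2
  have h3 : 0 < (Rl p - d) ^ 2 / 4 := by
    have : 0 < Rl p - d := by linarith
    positivity
  have h4 : Tendsto (fun n => Td d n p) atTop (nhds 0) :=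
    squeeze_zero (fun n => Td_nonneg h0 h1 d n) (fun n => Td_lower h0 h1 h2.le n) (tendsto_exp h3)
  exact zero_ne_one (tendsto_nhds_unique h4 h)

lemma le_Rl_of_tendsto {d p : ℝ} (h0 : 0 ≤ p) (h1 : p ≤ 1)
    (h : Tendsto (fun n => Td d n p) atTop (nhds 0)) : d ≤ Rl p := by
  by_contra h2
  rw [not_le] at h2
  exact zero_ne_one (tendsto_nhds_unique h (Td_tendsto_one h0 h1 h2))

lemma Td_one_mem {d : ℝ} (hd : 0 ≤ d) :
    (1 : ℝ) ∈ {p : ℝ | 0 ≤ p ∧ p ≤ 1 ∧ Tendsto (fun n => Td d n p) atTop (nhds 1)} := by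
  refine ⟨zero_le_one, le_rfl, ?_⟩
  have h1 : ∀ n, Td d n 1 = 1 := by
    intro n
    refine le_antisymm (Td_le_one zero_le_one le_rfl d n) ?_
    have h2 : Rn n 1 = 0 := le_antisymm (by simpa using Rn_le zero_le_one le_rfl n)
      (Rn_nonneg zero_le_one le_rfl n)
    have h3 : Ev 1 (fun ω : It n → Bool => (kap n ω : ℝ)) = 0 := by
      unfold Rn at h2
      rcases div_eq_zero_iff.1 h2 with h | h
      · exact h
      · exact absurd h (by positivity)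
    have h4 : Pr 1 (fun ω : It n → Bool => ¬ (kap n ω : ℝ) ≤ d * 2 ^ n) ≤
        Ev 1 (fun ω : It n → Bool => (kap n ω : ℝ)) := by
      refine Ev_mono zero_le_one le_rfl fun ω => ?_
      split_ifs with h
      · have h' : d * 2 ^ n < (kap n ω : ℝ) := not_le.1 h
        have h5 : (0 : ℝ) < kap n ω := lt_of_le_of_lt (by positivity) h'
        have h6 : 0 < kap n ω := by exact_mod_cast h5
        exact_mod_cast h6
      · exact Nat.cast_nonneg _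
    rw [Pr_not, h3] at h4
    unfold Td
    linarith
  simp only [h1]
  exact tendsto_const_nhds

lemma bddC (f : ℕ → ℝ → ℝ) :
    BddBelow {p : ℝ | 0 ≤ p ∧ p ≤ 1 ∧ Tendsto (fun n => f n p) atTop (nhds 1)} :=
  ⟨0, fun _ h => h.1⟩

lemma crit_nonneg {d : ℝ} (hd : 0 ≤ d) : 0 ≤ crit (Td d) :=
  le_csInf ⟨1, Td_one_mem hd⟩ fun _ h => h.1

lemma crit_le_one {d : ℝ} (hd : 0 ≤ d) : crit (Td d) ≤ 1 := csInf_le (bddC _) (Td_one_mem hd)

/-- `crit (Td d)` is at least every point whose defect density is at least `d` -/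
lemma le_crit_of {d p : ℝ} (hd : 0 < d) (h1 : p < 1) (h : d ≤ Rl p) :
    p ≤ crit (Td d) := by
  refine le_csInf ⟨1, Td_one_mem hd.le⟩ fun q hq => ?_
  by_contra h2
  rw [not_le] at h2
  have h3 := Rl_le_of_tendsto hq.1 hq.2.1 hq.2.2
  have h4 := Rl_thin hq.1 h2.le h1.le
  have h5 : (1 - p) * Rl q ≤ (1 - p) * d := mul_le_mul_of_nonneg_left h3 (by linarith)
  have h6 : (1 - q) * d ≤ (1 - q) * Rl p := mul_le_mul_of_nonneg_left h (by linarith [hq.2.1])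
  nlinarith

theorem below {d : ℝ} (hd : 0 < d) {p : ℝ} (h0 : 0 ≤ p) (hp : p < crit (Td d)) :
    ∃ c : ℝ, 0 < c ∧ ∀ n : ℕ, Td d n p ≤ Real.exp (-(c * 2 ^ n)) := by
  have hc1 := crit_le_one hd.le
  obtain ⟨q, hq1, hq2⟩ := exists_between hp
  have hq0 : 0 ≤ q := h0.trans hq1.le
  have hq3 : q < 1 := hq2.trans_le hc1
  have h1 : d ≤ Rl q := by
    by_contra h
    rw [not_le] at h
    have := csInf_le (bddC (Td d)) ⟨hq0, hq3.le, Td_tendsto_one hq0 hq3.le h⟩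
    exact absurd (this : crit (Td d) ≤ q) (not_le.2 hq2)
  have h2 := Rl_thin h0 hq1.le hq3.le
  have h3 : d < Rl p := by
    have h4 : (1 - p) * d ≤ (1 - p) * Rl q := mul_le_mul_of_nonneg_left h1 (by linarith)
    by_contra h
    rw [not_lt] at h
    have h5 : (1 - q) * Rl p ≤ (1 - q) * d := mul_le_mul_of_nonneg_left h (by linarith)
    nlinarith
  refine ⟨(Rl p - d) ^ 2 / 4, ?_, fun n => Td_lower h0 (by linarith) h3.le n⟩
  have : 0 < Rl p - d := by linarith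
  positivity

theorem above {d : ℝ} (hd : 0 < d) {p : ℝ} (hp : crit (Td d) < p) (h1 : p ≤ 1) :
    ∃ c : ℝ, 0 < c ∧ ∃ N : ℕ, ∀ n : ℕ, N ≤ n → 1 - Real.exp (-(c * 2 ^ n)) ≤ Td d n p := by
  obtain ⟨q, hq, hqp⟩ := exists_lt_of_csInf_lt ⟨1, Td_one_mem hd.le⟩ hp
  have h2 := Rl_le_of_tendsto hq.1 hq.2.1 hq.2.2
  have h3 := Rl_thin hq.1 hqp.le h1
  have h0 : 0 ≤ p := hq.1.trans hqp.le
  refine Td_upper h0 h1 ?_
  by_contra h
  rw [not_lt] at h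
  have h4 : (1 - q) * d ≤ (1 - q) * Rl p := mul_le_mul_of_nonneg_left h (by linarith)
  have h5 : (1 - p) * Rl q ≤ (1 - p) * d := mul_le_mul_of_nonneg_left h2 (by linarith)
  nlinarith

theorem crit_le {d : ℝ} (hd : 0 < d) (hd1 : d < 1) : crit (Td d) ≤ 1 - d := by
  refine le_of_forall_gt_imp_ge_of_dense fun p hp => ?_
  rcases lt_or_ge p 1 with h | h
  · have h0 : 0 ≤ p := by linarith
    refine csInf_le (bddC _) ⟨h0, h.le, Td_tendsto_one h0 h.le ?_⟩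
    have := Rl_le_one_sub h0 h.le
    linarith
  · exact (crit_le_one hd.le).trans h

theorem crit_anti {d d' : ℝ} (hd : 0 ≤ d) (h : d ≤ d') : crit (Td d') ≤ crit (Td d) := by
  refine csInf_le_csInf (bddC _) ⟨1, Td_one_mem hd⟩ ?_
  rintro p ⟨h0, h1, h2⟩
  refine ⟨h0, h1, ?_⟩
  refine tendsto_of_tendsto_of_tendsto_of_le_of_le h2 tendsto_const_nhds (fun n => ?_)
    (fun n => Td_le_one h0 h1 d' n)
  refine Pr_mono h0 h1 fun ω hω => hω.trans ?_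
  exact mul_le_mul_of_nonneg_right h (by positivity)

/-- the first moment bound -/
lemma Td_le_pow {d p θ : ℝ} (hd : 0 ≤ d) (h0 : 0 ≤ p) (h1 : p ≤ 1) (ht : 0 < θ) (ht1 : θ ≤ 1)
    (n : ℕ) : Td d n p ≤ (8 * (p + θ) * θ ^ (-d)) ^ (2 ^ n) := by
  have h2 := Pr_kap_le (n := n) h0 h1 ht ht1 ⌊d * 2 ^ n⌋₊
  have h3 : Td d n p ≤ Pr p (fun ω => kap n ω ≤ ⌊d * 2 ^ n⌋₊) :=
    Pr_mono h0 h1 fun ω hω => Nat.le_floor hω
  refine h3.trans (h2.trans ?_)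
  have h4 : θ ^ (d * 2 ^ n) ≤ θ ^ ⌊d * 2 ^ n⌋₊ := by
    rw [← Real.rpow_natCast θ ⌊d * 2 ^ n⌋₊]
    exact Real.rpow_le_rpow_of_exponent_ge ht ht1 (Nat.floor_le (by positivity))
  have h5 : (8 * (p + (1 - p) * θ)) ^ (2 ^ n) ≤ (8 * (p + θ)) ^ (2 ^ n) := by
    refine pow_le_pow_left₀ (by have : 0 ≤ (1 - p) * θ := mul_nonneg (by linarith) ht.le
                                linarith) ?_ _
    nlinarith
  have h6 : (θ ^ (-d)) ^ (2 ^ n) = (θ ^ (d * 2 ^ n))⁻¹ := by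
    rw [← Real.rpow_natCast, ← Real.rpow_mul ht.le, ← Real.rpow_neg ht.le]
    congr 1
    push_cast
    ring
  rw [mul_pow (8 * (p + θ)) (θ ^ (-d)), h6, div_eq_mul_inv]
  refine mul_le_mul h5 ?_ (by positivity) (by positivity)
  exact inv_anti₀ (by positivity) h4

lemma tendsto_pow {r : ℝ} (h0 : 0 ≤ r) (h1 : r < 1) :
    Tendsto (fun n : ℕ => r ^ (2 ^ n)) atTop (nhds 0) :=
  (tendsto_pow_atTop_nhds_zero_of_lt_one h0 h1).comp
    (tendsto_pow_atTop_atTop_of_one_lt (by norm_num : 1 < 2))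

lemma le_Rl {d p θ : ℝ} (hd : 0 ≤ d) (h0 : 0 ≤ p) (h1 : p ≤ 1) (ht : 0 < θ) (ht1 : θ ≤ 1)
    (h : 8 * (p + θ) * θ ^ (-d) < 1) : d ≤ Rl p := by
  refine le_Rl_of_tendsto h0 h1 ?_
  exact squeeze_zero (fun n => Td_nonneg h0 h1 d n) (fun n => Td_le_pow hd h0 h1 ht ht1 n)
    (tendsto_pow (by positivity) h)

theorem crit_pos {d : ℝ} (hd : 0 < d) (hd1 : d < 1) : 0 < crit (Td d) := by
  have h1 : 0 < 1 - d := by linarith
  set θ : ℝ := (1 / 32) ^ (1 / (1 - d)) with hθ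
  have ht : 0 < θ := by positivity
  have ht1 : θ ≤ 1 / 32 := by
    rw [hθ]
    calc (1 / 32 : ℝ) ^ (1 / (1 - d)) ≤ (1 / 32) ^ (1 : ℝ) := by
          refine Real.rpow_le_rpow_of_exponent_ge (by norm_num) (by norm_num) ?_
          rw [le_div_iff₀ h1]
          linarith
      _ = 1 / 32 := Real.rpow_one _
  have h2 : θ ^ (1 - d) = 1 / 32 := by
    rw [hθ, ← Real.rpow_mul (by norm_num), one_div_mul_cancel h1.ne', Real.rpow_one]
  have h3 : 8 * (θ + θ) * θ ^ (-d) = 1 / 2 := by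
    have : θ * θ ^ (-d) = 1 / 32 := by
      rw [← h2, sub_eq_add_neg, Real.rpow_add ht, Real.rpow_one]
    linarith
  have h4 : d ≤ Rl θ := le_Rl hd.le ht.le (by linarith) ht (by linarith) (by rw [h3]; norm_num)
  exact ht.trans_le (le_crit_of hd (by linarith) h4)

theorem exists_d {p : ℝ} (h0 : 0 ≤ p) (h1 : p < 1 / 8) : ∃ d : ℝ, 0 < d ∧ d < 1 ∧
    p ≤ crit (Td d) := by
  set θ : ℝ := (1 / 8 - p) / 2 with hθ
  have ht : 0 < θ := by rw [hθ]; linarith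
  have hr : 8 * (p + θ) < 1 := by rw [hθ]; linarith
  have h2 : Tendsto (fun d : ℝ => 8 * (p + θ) * θ ^ (-d)) (nhds 0) (nhds (8 * (p + θ))) := by
    have h3 : ContinuousAt (fun d : ℝ => 8 * (p + θ) * θ ^ (-d)) 0 := by
      refine ContinuousAt.mul continuousAt_const ?_
      exact (Real.continuousAt_const_rpow ht.ne').comp continuousAt_neg
    have h4 := h3.tendsto
    simpa using h4
  have h3 : ∀ᶠ d : ℝ in nhds 0, 8 * (p + θ) * θ ^ (-d) < 1 := h2.eventually (gt_mem_nhds hr)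
  have h4 : ∀ᶠ d : ℝ in nhdsWithin 0 (Set.Ioi 0), 8 * (p + θ) * θ ^ (-d) < 1 :=
    h3.filter_mono nhdsWithin_le_nhds
  have h5 : ∀ᶠ d : ℝ in nhdsWithin 0 (Set.Ioi 0), d ∈ Set.Ioo (0 : ℝ) 1 :=
    Ioo_mem_nhdsGT one_pos
  obtain ⟨d, hd1, hd2⟩ := (h4.and h5).exists
  refine ⟨d, hd2.1, hd2.2, le_crit_of hd2.1 (by linarith) ?_⟩
  exact le_Rl hd2.1.le h0 (by linarith) ht (by rw [hθ]; linarith) hd1

theorem T_eq_Td (n : ℕ) (p : ℝ) : T n p = Td 0 n p := by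
  refine Pr_congr fun ω => ?_
  rw [← kap_zero]
  constructor
  · intro h
    rw [h]
    simp
  · intro h
    rw [zero_mul] at h
    have : (kap n ω : ℝ) = 0 := le_antisymm h (Nat.cast_nonneg _)
    exact_mod_cast this

theorem T_le_Td {d p : ℝ} (hd : 0 ≤ d) (h0 : 0 ≤ p) (h1 : p ≤ 1) (n : ℕ) : T n p ≤ Td d n p := by
  rw [T_eq_Td]
  refine Pr_mono h0 h1 fun ω hω => hω.trans ?_
  exact mul_le_mul_of_nonneg_right hd (by positivity)

theorem crit_le_crit_T {d : ℝ} (hd : 0 ≤ d) : crit (Td d) ≤ crit T := by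
  have h : T = Td 0 := funext fun n => funext fun p => T_eq_Td n p
  rw [h]
  exact crit_anti le_rfl hd

theorem T_le_pow {n : ℕ} {p : ℝ} (h0 : 0 ≤ p) (h1 : p ≤ 1) : T n p ≤ (8 * p) ^ (2 ^ n) := by
  have h2 : ∀ᶠ θ : ℝ in nhdsWithin 0 (Set.Ioi 0), T n p ≤ (8 * (p + θ)) ^ (2 ^ n) := by
    filter_upwards [Ioo_mem_nhdsGT (one_pos : (0 : ℝ) < 1)] with θ hθ
    have := Td_le_pow (d := 0) le_rfl h0 h1 hθ.1 hθ.2.le n
    rw [T_eq_Td]
    simpa using this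
  have h3 : Tendsto (fun θ : ℝ => (8 * (p + θ)) ^ (2 ^ n)) (nhdsWithin 0 (Set.Ioi 0))
      (nhds ((8 * p) ^ (2 ^ n))) := by
    have h4 : Continuous fun θ : ℝ => (8 * (p + θ)) ^ (2 ^ n) := by fun_prop
    have h5 := (h4.tendsto 0).mono_left (nhdsWithin_le_nhds (s := Set.Ioi (0 : ℝ)))
    simpa using h5
  exact ge_of_tendsto h3 h2

theorem exists_ps : ∃ ps : ℝ, 1 / 8 ≤ ps ∧ ps ≤ crit T ∧
    Tendsto (fun d => crit (Td d)) (nhdsWithin 0 (Set.Ioi 0)) (nhds ps) ∧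
    ∀ p : ℝ, 0 ≤ p → p < ps → ∃ c : ℝ, 0 < c ∧ ∀ n : ℕ, T n p ≤ Real.exp (-(c * 2 ^ n)) := by
  set I : Set ℝ := (fun d => crit (Td d)) '' Set.Ioo (0 : ℝ) 1 with hI
  have hb : BddAbove I := by
    refine ⟨1, ?_⟩
    rintro _ ⟨d, hd, rfl⟩
    exact crit_le_one hd.1.le
  have hne : I.Nonempty := ⟨_, 1 / 2, ⟨by norm_num, by norm_num⟩, rfl⟩
  refine ⟨sSup I, ?_, ?_, ?_, ?_⟩
  · refine le_of_forall_lt fun p hp => ?_
    rcases lt_or_ge p 0 with h | h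
    · refine lt_of_lt_of_le h ?_
      exact (crit_nonneg (by norm_num : (0 : ℝ) ≤ 1 / 2)).trans
        (le_csSup hb ⟨1 / 2, ⟨by norm_num, by norm_num⟩, rfl⟩)
    · obtain ⟨q, hq1, hq2⟩ := exists_between hp
      obtain ⟨d, hd0, hd1, hd⟩ := exists_d (h.trans hq1.le) hq2
      exact hq1.trans_le (hd.trans (le_csSup hb ⟨d, ⟨hd0, hd1⟩, rfl⟩))
  · refine csSup_le hne ?_
    rintro _ ⟨d, hd, rfl⟩
    exact crit_le_crit_T hd.1.le
  · rw [tendsto_order]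
    constructor
    · intro a ha
      obtain ⟨_, ⟨d0, hd0, rfl⟩, h⟩ := exists_lt_of_lt_csSup hne ha
      filter_upwards [Ioo_mem_nhdsGT hd0.1] with d hd
      exact h.trans_le (crit_anti hd.1.le hd.2.le)
    · intro a ha
      filter_upwards [Ioo_mem_nhdsGT (one_pos : (0 : ℝ) < 1)] with d hd
      exact (le_csSup hb ⟨d, hd, rfl⟩).trans_lt ha
  · intro p h0 hp
    obtain ⟨_, ⟨d, hd, rfl⟩, h⟩ := exists_lt_of_lt_csSup hne hp
    obtain ⟨c, hc, hN⟩ := below hd.1 h0 h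
    refine ⟨c, hc, fun n => (T_le_Td hd.1.le h0 ?_ n).trans (hN n)⟩
    exact h.le.trans (crit_le_one hd.1.le)

end Pool.Agent.helper7.Alm
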