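import Pool.Agent.helper7.Alm.Defs

/-!
# M5: tilings of a plane region by dyadic rectangles

Sketch.  For a region `Ω` let `Wr Ω` be the sum of `(1/8) ^ card S` over all `S ⊆ rects n` which
tile `Ω`.  Claim (induction on `(n - i) + (n - j)`): if `Ω` is not empty and contained in the
rectangle `Q = ((i, j), (a, b))`, then `Wr Ω ≤ 1/4`.
If `Ω` is contained in one of the halves of `Q`, this is the induction hypothesis.
Otherwise `Ω` meets all four halves, and `Wr Ω ≤ 1/8 + 1/16 + 1/16`: `S = {Q}`, or no member of `S`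
spans `Q` in direction x, or none spans `Q` in direction y.
-/

set_option autoImplicit false
open scoped Classical
open Finset Pool.Agent.helper17.Dya Pool.Agent.helper17.DyS

namespace Pool.Agent.helper7.Alm

/-- the weighted number of tilings of the region `Ω` -/
noncomputable def Wr (n : ℕ) (Ω : ℕ → ℕ → Prop) : ℝ :=
  ∑ S ∈ (rects n).powerset.filter (Ti2 n Ω), (1 / 8 : ℝ) ^ S.card

lemma Wr_nonneg (n : ℕ) (Ω : ℕ → ℕ → Prop) : 0 ≤ Wr n Ω :=
  Finset.sum_nonneg fun _ _ => by positivity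

lemma mem_rects {n : ℕ} {q : Q2} :
    q ∈ rects n ↔ (q.1.1 ≤ n ∧ q.1.2 ≤ n) ∧ q.2.1 < 2 ^ q.1.1 ∧ q.2.2 < 2 ^ q.1.2 := by
  unfold rects
  simp only [Finset.mem_filter, Finset.mem_product, Finset.mem_range]
  constructor
  · rintro ⟨⟨⟨h1, h2⟩, h3, h4⟩, h5, h6⟩
    exact ⟨⟨by omega, by omega⟩, h5, h6⟩
  · rintro ⟨⟨h1, h2⟩, h5, h6⟩
    refine ⟨⟨⟨by omega, by omega⟩, ?_, ?_⟩, h5, h6⟩
    · exact lt_of_lt_of_le h5 (Nat.pow_le_pow_right (by norm_num) h1)
    · exact lt_of_lt_of_le h6 (Nat.pow_le_pow_right (by norm_num) h2)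

lemma iv_point {n i a : ℕ} (hi : i ≤ n) (ha : a < 2 ^ i) :
    a * 2 ^ (n - i) < 2 ^ n ∧ a * 2 ^ (n - i) / 2 ^ (n - i) = a := by
  constructor
  · calc a * 2 ^ (n - i) < 2 ^ i * 2 ^ (n - i) := Nat.mul_lt_mul_of_pos_right ha (by positivity)
      _ = 2 ^ n := by rw [← pow_add]; congr 1; omega
  · exact Nat.mul_div_cancel _ (by positivity)

lemma iv_up {n i i' : ℕ} (x : ℕ) (h : i ≤ i') (hi' : i' ≤ n) :
    x / 2 ^ (n - i) = x / 2 ^ (n - i') / 2 ^ (i' - i) := by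
  have hpow : 2 ^ (n - i) = 2 ^ (n - i') * 2 ^ (i' - i) := by rw [← pow_add]; congr 1; omega
  rw [hpow, ← Nat.div_div_eq_div_mul]

lemma iv_sub {n i a i' a' : ℕ} (hi : i ≤ n) (hi' : i' ≤ n) (ha' : a' < 2 ^ i')
    (h : ∀ x < 2 ^ n, x / 2 ^ (n - i') = a' → x / 2 ^ (n - i) = a) :
    i ≤ i' ∧ a' / 2 ^ (i' - i) = a := by
  obtain ⟨h1, h2⟩ := iv_point hi' ha'
  have key := h _ h1 h2
  have hle : i ≤ i' := by
    by_contra hlt
    push Not at hlt
    have hpow : 2 ^ (n - i') = 2 ^ (n - i) * 2 ^ (i - i') := by rw [← pow_add]; congr 1; omega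
    have h2le : 2 ≤ 2 ^ (i - i') := by
      calc 2 = 2 ^ 1 := rfl
        _ ≤ 2 ^ (i - i') := Nat.pow_le_pow_right (by norm_num) (by omega)
    have hp : 0 < 2 ^ (n - i) := by positivity
    have hlt2 : 2 ^ (n - i) < 2 ^ (n - i') := by rw [hpow]; nlinarith
    have hx2 : a' * 2 ^ (n - i') + 2 ^ (n - i) < 2 ^ n := by
      calc a' * 2 ^ (n - i') + 2 ^ (n - i) < a' * 2 ^ (n - i') + 2 ^ (n - i') := by omega
        _ = (a' + 1) * 2 ^ (n - i') := by ring
        _ ≤ 2 ^ i' * 2 ^ (n - i') := Nat.mul_le_mul_right _ ha'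
        _ = 2 ^ n := by rw [← pow_add]; congr 1; omega
    have hx2' : (a' * 2 ^ (n - i') + 2 ^ (n - i)) / 2 ^ (n - i') = a' := by
      rw [Nat.add_comm, Nat.add_mul_div_right _ _ (by positivity), Nat.div_eq_of_lt hlt2]; omega
    have h3 := h _ hx2 hx2'
    have h4 : (a' * 2 ^ (n - i') + 2 ^ (n - i)) / 2 ^ (n - i) =
        a' * 2 ^ (n - i') / 2 ^ (n - i) + 1 := Nat.add_div_right _ hp
    omega
  refine ⟨hle, ?_⟩
  rw [iv_up _ hle hi', h2] at key
  exact key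

lemma iv_half {i i' a a' : ℕ} (h : i < i') (ha : a' / 2 ^ (i' - i) = a) :
    a' / 2 ^ (i' - (i + 1)) = 2 * a ∨ a' / 2 ^ (i' - (i + 1)) = 2 * a + 1 := by
  have hpow : 2 ^ (i' - i) = 2 ^ (i' - (i + 1)) * 2 := by
    rw [← pow_succ]; congr 1; omega
  rw [hpow, ← Nat.div_div_eq_div_mul] at ha
  omega

/-- a rectangle has a cell -/
lemma exists_cell {n : ℕ} {q : Q2} (hq : q ∈ rects n) :
    ∃ x < 2 ^ n, ∃ y < 2 ^ n, Cv2 n q x y := by
  obtain ⟨⟨h1, h2⟩, h3, h4⟩ := mem_rects.1 hq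
  obtain ⟨a1, a2⟩ := iv_point h1 h3
  obtain ⟨b1, b2⟩ := iv_point h2 h4
  exact ⟨_, a1, _, b1, a2, b2⟩

lemma rect_sub {n i j a b : ℕ} (hi : i ≤ n) (hj : j ≤ n) {q : Q2} (hq : q ∈ rects n)
    (h : ∀ x < 2 ^ n, ∀ y < 2 ^ n, Cv2 n q x y → Cv2 n ((i, j), (a, b)) x y) :
    (i ≤ q.1.1 ∧ q.2.1 / 2 ^ (q.1.1 - i) = a) ∧ (j ≤ q.1.2 ∧ q.2.2 / 2 ^ (q.1.2 - j) = b) := by
  obtain ⟨⟨h1, h2⟩, h3, h4⟩ := mem_rects.1 hq
  obtain ⟨a1, a2⟩ := iv_point h1 h3
  obtain ⟨b1, b2⟩ := iv_point h2 h4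
  exact ⟨iv_sub hi h1 h3 fun x hx hx' => (h x hx _ b1 ⟨hx', b2⟩).1,
    iv_sub hj h2 h4 fun y hy hy' => (h _ a1 y hy ⟨a2, hy'⟩).2⟩

/-- splitting the tilings all of whose members are of one of two kinds -/
lemma Wr_split {n : ℕ} {Ω A B : ℕ → ℕ → Prop} {U V : Q2 → Prop} {F : Finset (Finset Q2)}
    (hF : ∀ S ∈ F, S ⊆ rects n ∧ Ti2 n Ω S ∧ ∀ q ∈ S, U q ∨ V q)
    (h1 : ∀ q ∈ rects n, U q → ∀ x < 2 ^ n, ∀ y < 2 ^ n, Cv2 n q x y → A x y)
    (h2 : ∀ q ∈ rects n, V q → ∀ x < 2 ^ n, ∀ y < 2 ^ n, Cv2 n q x y → B x y)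
    (h3 : ∀ x < 2 ^ n, ∀ y < 2 ^ n, A x y → B x y → False) :
    ∑ S ∈ F, (1 / 8 : ℝ) ^ S.card ≤
      Wr n (fun x y => Ω x y ∧ A x y) * Wr n (fun x y => Ω x y ∧ B x y) := by
  have hdis : ∀ q ∈ rects n, U q → V q → False := by
    intro q hq hu hv
    obtain ⟨x, hx, y, hy, hc⟩ := exists_cell hq
    exact h3 x hx y hy (h1 q hq hu x hx y hy hc) (h2 q hq hv x hx y hy hc)
  let φ : Finset Q2 → Finset Q2 × Finset Q2 := fun S => (S.filter U, S.filter V)
  have hun : ∀ S ∈ F, S.filter U ∪ S.filter V = S := by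
    intro S hS
    replace hS := hF S hS
    ext q
    simp only [Finset.mem_union, Finset.mem_filter]
    constructor
    · rintro (h | h) <;> exact h.1
    · intro h
      rcases hS.2.2 q h with h' | h'
      · exact Or.inl ⟨h, h'⟩
      · exact Or.inr ⟨h, h'⟩
  have hcard : ∀ S ∈ F, S.card = (S.filter U).card + (S.filter V).card := by
    intro S hS
    rw [← Finset.card_union_of_disjoint, hun S hS]
    rw [Finset.disjoint_left]
    intro q hq hq'
    replace hS := hF S hS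
    exact hdis q (hS.1 (Finset.mem_filter.1 hq).1) (Finset.mem_filter.1 hq).2
      (Finset.mem_filter.1 hq').2
  have hinj : Set.InjOn φ (F : Set (Finset Q2)) := by
    intro S hS S' hS' h
    have e1 : S.filter U = S'.filter U := congrArg Prod.fst h
    have e2 : S.filter V = S'.filter V := congrArg Prod.snd h
    rw [← hun S hS, ← hun S' hS', e1, e2]
  have hmem : ∀ S ∈ F, φ S ∈ ((rects n).powerset.filter (Ti2 n fun x y => Ω x y ∧ A x y)) ×ˢ
      ((rects n).powerset.filter (Ti2 n fun x y => Ω x y ∧ B x y)) := by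
    intro S hS
    obtain ⟨hsub, ⟨ht1, ht2⟩, huv⟩ := hF S hS
    rw [Finset.mem_product, Finset.mem_filter, Finset.mem_filter, Finset.mem_powerset,
      Finset.mem_powerset]
    refine ⟨⟨(Finset.filter_subset _ _).trans hsub, ?_, ?_⟩,
      ⟨(Finset.filter_subset _ _).trans hsub, ?_, ?_⟩⟩
    · intro q hq x hx y hy hc
      rw [Finset.mem_filter] at hq
      exact ⟨ht1 q hq.1 x hx y hy hc, h1 q (hsub hq.1) hq.2 x hx y hy hc⟩
    · intro x hx y hy hxy
      obtain ⟨q, ⟨hq, hc⟩, huq⟩ := ht2 x hx y hy hxy.1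
      refine ⟨q, ⟨?_, hc⟩, fun q' hq' => huq q' ⟨(Finset.mem_filter.1 hq'.1).1, hq'.2⟩⟩
      rw [Finset.mem_filter]
      refine ⟨hq, ?_⟩
      rcases huv q hq with h' | h'
      · exact h'
      · exact (h3 x hx y hy hxy.2 (h2 q (hsub hq) h' x hx y hy hc)).elim
    · intro q hq x hx y hy hc
      rw [Finset.mem_filter] at hq
      exact ⟨ht1 q hq.1 x hx y hy hc, h2 q (hsub hq.1) hq.2 x hx y hy hc⟩
    · intro x hx y hy hxy
      obtain ⟨q, ⟨hq, hc⟩, huq⟩ := ht2 x hx y hy hxy.1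
      refine ⟨q, ⟨?_, hc⟩, fun q' hq' => huq q' ⟨(Finset.mem_filter.1 hq'.1).1, hq'.2⟩⟩
      rw [Finset.mem_filter]
      refine ⟨hq, ?_⟩
      rcases huv q hq with h' | h'
      · exact (h3 x hx y hy (h1 q (hsub hq) h' x hx y hy hc) hxy.2).elim
      · exact h'
  calc ∑ S ∈ F, (1 / 8 : ℝ) ^ S.card
      = ∑ S ∈ F, (1 / 8 : ℝ) ^ (φ S).1.card * (1 / 8 : ℝ) ^ (φ S).2.card := by
        refine Finset.sum_congr rfl fun S hS => ?_
        rw [hcard S hS, pow_add]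
    _ = ∑ p ∈ F.image φ, (1 / 8 : ℝ) ^ p.1.card * (1 / 8 : ℝ) ^ p.2.card := by
        rw [Finset.sum_image hinj]
    _ ≤ ∑ p ∈ ((rects n).powerset.filter (Ti2 n fun x y => Ω x y ∧ A x y)) ×ˢ
          ((rects n).powerset.filter (Ti2 n fun x y => Ω x y ∧ B x y)),
          (1 / 8 : ℝ) ^ p.1.card * (1 / 8 : ℝ) ^ p.2.card := by
        refine Finset.sum_le_sum_of_subset_of_nonneg ?_ fun _ _ _ => by positivity
        intro p hp
        rw [Finset.mem_image] at hp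
        obtain ⟨S, hS, rfl⟩ := hp
        exact hmem S hS
    _ = Wr n (fun x y => Ω x y ∧ A x y) * Wr n (fun x y => Ω x y ∧ B x y) := by
        unfold Wr
        rw [Finset.sum_product, Finset.sum_mul_sum]

/-- the three kinds of tilings -/
lemma kinds {n i j a b : ℕ} (hi : i ≤ n) (hj : j ≤ n) {Ω : ℕ → ℕ → Prop}
    (hΩ : ∀ x < 2 ^ n, ∀ y < 2 ^ n, Ω x y → Cv2 n ((i, j), (a, b)) x y)
    {S : Finset Q2} (hS : S ⊆ rects n) (hT : Ti2 n Ω S) :
    S = {((i, j), (a, b))} ∨ (∀ q ∈ S, i < q.1.1) ∨ ∀ q ∈ S, j < q.1.2 := by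
  have hsub : ∀ q ∈ S, (i ≤ q.1.1 ∧ q.2.1 / 2 ^ (q.1.1 - i) = a) ∧
      (j ≤ q.1.2 ∧ q.2.2 / 2 ^ (q.1.2 - j) = b) := fun q hq =>
    rect_sub hi hj (hS hq) fun x hx y hy hc => hΩ x hx y hy (hT.1 q hq x hx y hy hc)
  by_cases hx : ∀ q ∈ S, i < q.1.1
  · exact Or.inr (Or.inl hx)
  by_cases hy : ∀ q ∈ S, j < q.1.2
  · exact Or.inr (Or.inr hy)
  left
  push Not at hx hy
  obtain ⟨q1, hq1, h1⟩ := hx
  obtain ⟨q2, hq2, h2⟩ := hy
  obtain ⟨⟨e1, e1'⟩, e2, e2'⟩ := hsub q1 hq1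
  obtain ⟨⟨f1, f1'⟩, f2, f2'⟩ := hsub q2 hq2
  have g1 : q1.1.1 = i := le_antisymm h1 e1
  have g2 : q2.1.2 = j := le_antisymm h2 f2
  have k1 : q1.2.1 = a := by
    rw [g1] at e1'
    simpa using e1'
  have k2 : q2.2.2 = b := by
    rw [g2] at f2'
    simpa using f2'
  obtain ⟨⟨m1, m2⟩, m3, m4⟩ := mem_rects.1 (hS hq1)
  obtain ⟨⟨l1, l2⟩, l3, l4⟩ := mem_rects.1 (hS hq2)
  -- the common cell
  obtain ⟨px, px'⟩ := iv_point l1 l3
  obtain ⟨py, py'⟩ := iv_point m2 m4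
  set x := q2.2.1 * 2 ^ (n - q2.1.1) with hxd
  set y := q1.2.2 * 2 ^ (n - q1.1.2) with hyd
  have c1 : Cv2 n q1 x y := by
    refine ⟨?_, py'⟩
    rw [g1, k1, iv_up x f1 l1, px', f1']
  have c2 : Cv2 n q2 x y := by
    refine ⟨px', ?_⟩
    rw [g2, k2, iv_up y e2 m2, py', e2']
  obtain ⟨q, -, hu⟩ := hT.2 x px y py (hT.1 q1 hq1 x px y py c1)
  have e12 : q1 = q2 := (hu q1 ⟨hq1, c1⟩).trans (hu q2 ⟨hq2, c2⟩).symm
  have eQ : q1 = ((i, j), (a, b)) := by
    have g2' : q1.1.2 = j := by rw [e12]; exact g2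
    have k2' : q1.2.2 = b := by rw [e12]; exact k2
    ext
    · exact g1
    · exact g2'
    · exact k1
    · exact k2'
  ext q'
  rw [Finset.mem_singleton]
  constructor
  · intro hq'
    obtain ⟨x', hx', y', hy', hc'⟩ := exists_cell (hS hq')
    have ho := hT.1 q' hq' x' hx' y' hy' hc'
    obtain ⟨q0, -, hu'⟩ := hT.2 x' hx' y' hy' ho
    have hc1 : Cv2 n q1 x' y' := by
      rw [eQ]
      exact hΩ x' hx' y' hy' ho
    rw [← eQ]
    exact (hu' q' ⟨hq', hc'⟩).trans (hu' q1 ⟨hq1, hc1⟩).symm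
  · rintro rfl
    rw [← eQ]
    exact hq1

theorem Wr_le (n : ℕ) : ∀ m i j a b : ℕ, (n - i) + (n - j) = m → i ≤ n → j ≤ n →
    ∀ Ω : ℕ → ℕ → Prop, (∀ x < 2 ^ n, ∀ y < 2 ^ n, Ω x y → Cv2 n ((i, j), (a, b)) x y) →
    (∃ x < 2 ^ n, ∃ y < 2 ^ n, Ω x y) → Wr n Ω ≤ 1 / 4 := by
  intro m
  induction m using Nat.strong_induction_on with
  | _ m ih =>
    intro i j a b hm hi hj Ω hΩ hne
    -- halves in direction x
    have hX : i < n → Wr n Ω ≤ 1 / 4 ∨
        Wr n (fun x y => Ω x y ∧ x / 2 ^ (n - (i + 1)) = 2 * a) *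
          Wr n (fun x y => Ω x y ∧ x / 2 ^ (n - (i + 1)) = 2 * a + 1) ≤ 1 / 16 := by
      intro hin
      have hlt : (n - (i + 1)) + (n - j) < m := by omega
      by_cases hl : ∃ x < 2 ^ n, ∃ y < 2 ^ n, Ω x y ∧ x / 2 ^ (n - (i + 1)) = 2 * a
      · by_cases hr : ∃ x < 2 ^ n, ∃ y < 2 ^ n, Ω x y ∧ x / 2 ^ (n - (i + 1)) = 2 * a + 1
        · right
          have w1 := ih _ hlt (i + 1) j (2 * a) b rfl hin hj
            (fun x y => Ω x y ∧ x / 2 ^ (n - (i + 1)) = 2 * a)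
            (fun x hx y hy h => ⟨h.2, (hΩ x hx y hy h.1).2⟩) hl
          have w2 := ih _ hlt (i + 1) j (2 * a + 1) b rfl hin hj
            (fun x y => Ω x y ∧ x / 2 ^ (n - (i + 1)) = 2 * a + 1)
            (fun x hx y hy h => ⟨h.2, (hΩ x hx y hy h.1).2⟩) hr
          calc _ ≤ (1 / 4 : ℝ) * (1 / 4) := mul_le_mul w1 w2 (Wr_nonneg _ _) (by norm_num)
            _ = 1 / 16 := by norm_num
        · left
          refine ih _ hlt (i + 1) j (2 * a) b rfl hin hj Ω (fun x hx y hy h => ⟨?_, (hΩ x hx y hy h).2⟩) hne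
          rcases iv_half hin (hΩ x hx y hy h).1 with h' | h'
          · exact h'
          · exact (hr ⟨x, hx, y, hy, h, h'⟩).elim
      · left
        refine ih _ hlt (i + 1) j (2 * a + 1) b rfl hin hj Ω
          (fun x hx y hy h => ⟨?_, (hΩ x hx y hy h).2⟩) hne
        rcases iv_half hin (hΩ x hx y hy h).1 with h' | h'
        · exact (hl ⟨x, hx, y, hy, h, h'⟩).elim
        · exact h'
    have hY : j < n → Wr n Ω ≤ 1 / 4 ∨
        Wr n (fun x y => Ω x y ∧ y / 2 ^ (n - (j + 1)) = 2 * b) *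
          Wr n (fun x y => Ω x y ∧ y / 2 ^ (n - (j + 1)) = 2 * b + 1) ≤ 1 / 16 := by
      intro hjn
      have hlt : (n - i) + (n - (j + 1)) < m := by omega
      by_cases hl : ∃ x < 2 ^ n, ∃ y < 2 ^ n, Ω x y ∧ y / 2 ^ (n - (j + 1)) = 2 * b
      · by_cases hr : ∃ x < 2 ^ n, ∃ y < 2 ^ n, Ω x y ∧ y / 2 ^ (n - (j + 1)) = 2 * b + 1
        · right
          have w1 := ih _ hlt i (j + 1) a (2 * b) rfl hi hjn
            (fun x y => Ω x y ∧ y / 2 ^ (n - (j + 1)) = 2 * b)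
            (fun x hx y hy h => ⟨(hΩ x hx y hy h.1).1, h.2⟩) hl
          have w2 := ih _ hlt i (j + 1) a (2 * b + 1) rfl hi hjn
            (fun x y => Ω x y ∧ y / 2 ^ (n - (j + 1)) = 2 * b + 1)
            (fun x hx y hy h => ⟨(hΩ x hx y hy h.1).1, h.2⟩) hr
          calc _ ≤ (1 / 4 : ℝ) * (1 / 4) := mul_le_mul w1 w2 (Wr_nonneg _ _) (by norm_num)
            _ = 1 / 16 := by norm_num
        · left
          refine ih _ hlt i (j + 1) a (2 * b) rfl hi hjn Ω (fun x hx y hy h => ⟨(hΩ x hx y hy h).1, ?_⟩) hne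
          rcases iv_half hjn (hΩ x hx y hy h).2 with h' | h'
          · exact h'
          · exact (hr ⟨x, hx, y, hy, h, h'⟩).elim
      · left
        refine ih _ hlt i (j + 1) a (2 * b + 1) rfl hi hjn Ω
          (fun x hx y hy h => ⟨(hΩ x hx y hy h).1, ?_⟩) hne
        rcases iv_half hjn (hΩ x hx y hy h).2 with h' | h'
        · exact (hl ⟨x, hx, y, hy, h, h'⟩).elim
        · exact h'
    -- the sums over the three kinds
    set F := (rects n).powerset.filter (Ti2 n Ω) with hF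
    set F0 := F.filter fun S => S = {((i, j), (a, b))} with hF0
    set F1 := F.filter fun S => ∀ q ∈ S, i < q.1.1 with hF1
    set F2 := F.filter fun S => ∀ q ∈ S, j < q.1.2 with hF2
    have hsub : ∀ S ∈ F, ∀ q ∈ S, (i ≤ q.1.1 ∧ q.2.1 / 2 ^ (q.1.1 - i) = a) ∧
        (j ≤ q.1.2 ∧ q.2.2 / 2 ^ (q.1.2 - j) = b) := by
      intro S hS q hq
      rw [hF, Finset.mem_filter, Finset.mem_powerset] at hS
      exact rect_sub hi hj (hS.1 hq) fun x hx y hy hc =>
        hΩ x hx y hy (hS.2.1 q hq x hx y hy hc)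
    have hcov : F ⊆ F0 ∪ (F1 ∪ F2) := by
      intro S hS
      have hS' := hS
      rw [hF, Finset.mem_filter, Finset.mem_powerset] at hS'
      rcases kinds hi hj hΩ hS'.1 hS'.2 with h | h | h
      · exact Finset.mem_union_left _ (Finset.mem_filter.2 ⟨hS, h⟩)
      · exact Finset.mem_union_right _ (Finset.mem_union_left _ (Finset.mem_filter.2 ⟨hS, h⟩))
      · exact Finset.mem_union_right _ (Finset.mem_union_right _ (Finset.mem_filter.2 ⟨hS, h⟩))
    have hnonempty : ∀ S ∈ F, ∃ q, q ∈ S := by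
      intro S hS
      rw [hF, Finset.mem_filter, Finset.mem_powerset] at hS
      obtain ⟨x, hx, y, hy, h⟩ := hne
      obtain ⟨q, hq, -⟩ := hS.2.2 x hx y hy h
      exact ⟨q, hq.1⟩
    have hle : ∀ S ∈ F, ∀ q ∈ S, q.1.1 ≤ n ∧ q.1.2 ≤ n := by
      intro S hS q hq
      rw [hF, Finset.mem_filter, Finset.mem_powerset] at hS
      exact (mem_rects.1 (hS.1 hq)).1
    have s0 : ∑ S ∈ F0, (1 / 8 : ℝ) ^ S.card ≤ 1 / 8 := by
      have hs : F0 ⊆ {{((i, j), (a, b))}} := by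
        intro S hS
        rw [hF0, Finset.mem_filter] at hS
        rw [Finset.mem_singleton]
        exact hS.2
      calc ∑ S ∈ F0, (1 / 8 : ℝ) ^ S.card
          ≤ ∑ S ∈ ({{((i, j), (a, b))}} : Finset (Finset Q2)), (1 / 8 : ℝ) ^ S.card :=
            Finset.sum_le_sum_of_subset_of_nonneg hs fun _ _ _ => by positivity
        _ = 1 / 8 := by rw [Finset.sum_singleton, Finset.card_singleton]; norm_num
    have s1 : Wr n Ω ≤ 1 / 4 ∨ ∑ S ∈ F1, (1 / 8 : ℝ) ^ S.card ≤ 1 / 16 := by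
      by_cases hin : i < n
      · rcases hX hin with h | h
        · exact Or.inl h
        · right
          refine le_trans ?_ h
          refine (Wr_split (n := n) (Ω := Ω) (F := F1)
            (A := fun x _ => x / 2 ^ (n - (i + 1)) = 2 * a)
            (B := fun x _ => x / 2 ^ (n - (i + 1)) = 2 * a + 1)
            (U := fun q => i + 1 ≤ q.1.1 ∧ q.2.1 / 2 ^ (q.1.1 - (i + 1)) = 2 * a)
            (V := fun q => i + 1 ≤ q.1.1 ∧ q.2.1 / 2 ^ (q.1.1 - (i + 1)) = 2 * a + 1) ?_ ?_ ?_ ?_)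
          · intro S hS
            rw [hF1, Finset.mem_filter] at hS
            have hS' := hS.1
            rw [hF, Finset.mem_filter, Finset.mem_powerset] at hS'
            refine ⟨hS'.1, hS'.2, fun q hq => ?_⟩
            rcases iv_half (hS.2 q hq) (hsub S hS.1 q hq).1.2 with h' | h'
            · exact Or.inl ⟨hS.2 q hq, h'⟩
            · exact Or.inr ⟨hS.2 q hq, h'⟩
          · intro q hq hu x hx y hy hc
            show x / 2 ^ (n - (i + 1)) = 2 * a
            rw [iv_up x hu.1 (mem_rects.1 hq).1.1, hc.1, hu.2]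
          · intro q hq hu x hx y hy hc
            show x / 2 ^ (n - (i + 1)) = 2 * a + 1
            rw [iv_up x hu.1 (mem_rects.1 hq).1.1, hc.1, hu.2]
          · intro x hx y hy h1 h2
            have h1' : x / 2 ^ (n - (i + 1)) = 2 * a := h1
            have h2' : x / 2 ^ (n - (i + 1)) = 2 * a + 1 := h2
            omega
      · right
        have : F1 = ∅ := by
          rw [Finset.eq_empty_iff_forall_notMem]
          intro S hS
          rw [hF1, Finset.mem_filter] at hS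
          obtain ⟨q, hq⟩ := hnonempty S hS.1
          have := hS.2 q hq
          have := (hle S hS.1 q hq).1
          omega
        rw [this, Finset.sum_empty]
        norm_num
    have s2 : Wr n Ω ≤ 1 / 4 ∨ ∑ S ∈ F2, (1 / 8 : ℝ) ^ S.card ≤ 1 / 16 := by
      by_cases hjn : j < n
      · rcases hY hjn with h | h
        · exact Or.inl h
        · right
          refine le_trans ?_ h
          refine (Wr_split (n := n) (Ω := Ω) (F := F2)
            (A := fun _ y => y / 2 ^ (n - (j + 1)) = 2 * b)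
            (B := fun _ y => y / 2 ^ (n - (j + 1)) = 2 * b + 1)
            (U := fun q => j + 1 ≤ q.1.2 ∧ q.2.2 / 2 ^ (q.1.2 - (j + 1)) = 2 * b)
            (V := fun q => j + 1 ≤ q.1.2 ∧ q.2.2 / 2 ^ (q.1.2 - (j + 1)) = 2 * b + 1) ?_ ?_ ?_ ?_)
          · intro S hS
            rw [hF2, Finset.mem_filter] at hS
            have hS' := hS.1
            rw [hF, Finset.mem_filter, Finset.mem_powerset] at hS'
            refine ⟨hS'.1, hS'.2, fun q hq => ?_⟩
            rcases iv_half (hS.2 q hq) (hsub S hS.1 q hq).2.2 with h' | h'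
            · exact Or.inl ⟨hS.2 q hq, h'⟩
            · exact Or.inr ⟨hS.2 q hq, h'⟩
          · intro q hq hu x hx y hy hc
            show y / 2 ^ (n - (j + 1)) = 2 * b
            rw [iv_up y hu.1 (mem_rects.1 hq).1.2, hc.2, hu.2]
          · intro q hq hu x hx y hy hc
            show y / 2 ^ (n - (j + 1)) = 2 * b + 1
            rw [iv_up y hu.1 (mem_rects.1 hq).1.2, hc.2, hu.2]
          · intro x hx y hy h1 h2
            have h1' : y / 2 ^ (n - (j + 1)) = 2 * b := h1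
            have h2' : y / 2 ^ (n - (j + 1)) = 2 * b + 1 := h2
            omega
      · right
        have : F2 = ∅ := by
          rw [Finset.eq_empty_iff_forall_notMem]
          intro S hS
          rw [hF2, Finset.mem_filter] at hS
          obtain ⟨q, hq⟩ := hnonempty S hS.1
          have := hS.2 q hq
          have := (hle S hS.1 q hq).2
          omega
        rw [this, Finset.sum_empty]
        norm_num
    rcases s1 with h | s1
    · exact h
    rcases s2 with h | s2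
    · exact h
    have t : ∀ G H : Finset (Finset Q2), ∑ S ∈ G ∪ H, (1 / 8 : ℝ) ^ S.card ≤
        ∑ S ∈ G, (1 / 8 : ℝ) ^ S.card + ∑ S ∈ H, (1 / 8 : ℝ) ^ S.card := by
      intro G H
      rw [← Finset.sum_union_inter]
      have : 0 ≤ ∑ S ∈ G ∩ H, (1 / 8 : ℝ) ^ S.card := Finset.sum_nonneg fun _ _ => by positivity
      linarith
    have t1 : Wr n Ω ≤ ∑ S ∈ F0 ∪ (F1 ∪ F2), (1 / 8 : ℝ) ^ S.card :=
      Finset.sum_le_sum_of_subset_of_nonneg hcov fun _ _ _ => by positivity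
    have t2 := t F0 (F1 ∪ F2)
    have t3 := t F1 F2
    linarith

theorem rect_sum (n : ℕ) (Ω : ℕ → ℕ → Prop) :
    ∑ S ∈ (rects n).powerset.filter (Ti2 n Ω), (1 / 8 : ℝ) ^ S.card ≤ 1 := by
  by_cases hne : ∃ x < 2 ^ n, ∃ y < 2 ^ n, Ω x y
  · have h := Wr_le n _ 0 0 0 0 rfl (Nat.zero_le _) (Nat.zero_le _) Ω (fun x hx y hy _ => by
      refine ⟨?_, ?_⟩
      · show x / 2 ^ (n - 0) = 0
        rw [Nat.sub_zero]
        exact Nat.div_eq_of_lt hx
      · show y / 2 ^ (n - 0) = 0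
        rw [Nat.sub_zero]
        exact Nat.div_eq_of_lt hy) hne
    unfold Wr at h
    linarith
  · have hs : (rects n).powerset.filter (Ti2 n Ω) ⊆ {∅} := by
      intro S hS
      rw [Finset.mem_filter, Finset.mem_powerset] at hS
      rw [Finset.mem_singleton, Finset.eq_empty_iff_forall_notMem]
      intro q hq
      obtain ⟨x, hx, y, hy, hc⟩ := exists_cell (hS.1 hq)
      exact hne ⟨x, hx, y, hy, hS.2.1 q hq x hx y hy hc⟩
    calc ∑ S ∈ (rects n).powerset.filter (Ti2 n Ω), (1 / 8 : ℝ) ^ S.card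
        ≤ ∑ S ∈ ({∅} : Finset (Finset Q2)), (1 / 8 : ℝ) ^ S.card :=
          Finset.sum_le_sum_of_subset_of_nonneg hs fun _ _ _ => by positivity
      _ = 1 := by simp

end Pool.Agent.helper7.Alm
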