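import Pool.Agent.helper7.Alm.Main
import Pool.Agent.helper7.Alm.And

/-!
# The limit density of closed boxes: continuity, strict monotonicity, positivity
-/

set_option autoImplicit false
open scoped Classical
open Finset Filter Pool.Agent.helper17.Dya Pool.Agent.helper17.DyS

namespace Pool.Agent.helper7.Alm

lemma Rl_le_one {p : ℝ} (h0 : 0 ≤ p) (h1 : p ≤ 1) : Rl p ≤ 1 :=
  (Rl_le_one_sub h0 h1).trans (by linarith)

theorem Rl_and {p p' : ℝ} (h0 : 0 ≤ p) (h : p ≤ p') (h1 : p' ≤ 1) :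
    p * (1 - Rl p') ≤ p' * (1 - Rl p) := by
  rcases h0.lt_or_eq with h2 | h2
  · have h3 : (p' * Rl p - p' + p) / p ≤ Rl p' := by
      refine le_ciInf fun n => ?_
      rw [div_le_iff₀' h2]
      have h4 := Rn_and (n := n) h0 h h1
      have h5 : p' * Rl p ≤ p' * Rn n p :=
        mul_le_mul_of_nonneg_left (Rl_le h0 (h.trans h1) n) (h0.trans h)
      linarith
    rw [div_le_iff₀' h2] at h3
    linarith
  · subst h2
    rw [zero_mul]
    exact mul_nonneg h (by linarith [Rl_le_one le_rfl zero_le_one])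

/-- the density is close to `1` near `0` -/
lemma Rl_near_zero {d : ℝ} (hd : 0 < d) (hd1 : d < 1) :
    ∃ θ : ℝ, 0 < θ ∧ ∀ p : ℝ, 0 ≤ p → p ≤ θ → d ≤ Rl p := by
  have h1 : 0 < 1 - d := by linarith
  set θ : ℝ := (1 / 32) ^ (1 / (1 - d)) with hθ
  have ht : 0 < θ := by positivity
  have ht1 : θ ≤ 1 / 32 := by
    rw [hθ]
    calc (1 / 32 : ℝ) ^ (1 / (1 - d)) ≤ (1 / 32) ^ (1 : ℝ) := by
          refine Real.rpow_le_rpow_of_exponent_ge (by norm_num) (by norm_num) ?_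
          rw [le_div_iff₀ h1]
          linarith
      _ = 1 / 32 := Real.rpow_one _
  have h2 : θ ^ (1 - d) = 1 / 32 := by
    rw [hθ, ← Real.rpow_mul (by norm_num), one_div_mul_cancel h1.ne', Real.rpow_one]
  have h3 : θ * θ ^ (-d) = 1 / 32 := by
    rw [← h2, sub_eq_add_neg, Real.rpow_add ht, Real.rpow_one]
  refine ⟨θ, ht, fun p h0 hp => ?_⟩
  refine le_Rl hd.le h0 (by linarith) ht (by linarith) ?_
  have h4 : 8 * (p + θ) * θ ^ (-d) ≤ 8 * (θ + θ) * θ ^ (-d) := by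
    refine mul_le_mul_of_nonneg_right ?_ (by positivity)
    linarith
  have h5 : 8 * (θ + θ) * θ ^ (-d) = 1 / 2 := by linarith
  linarith

theorem Rl_zero : Rl 0 = 1 := by
  refine le_antisymm (Rl_le_one le_rfl zero_le_one) ?_
  refine le_of_forall_lt fun d hd => ?_
  obtain ⟨e, h1, h2⟩ := exists_between (max_lt hd (zero_lt_one : (0 : ℝ) < 1))
  obtain ⟨θ, ht, h3⟩ := Rl_near_zero ((le_max_right d 0).trans_lt h1) h2
  exact ((le_max_left d 0).trans_lt h1).trans_le (h3 0 le_rfl ht.le)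

theorem Rl_one : Rl 1 = 0 :=
  le_antisymm (by simpa using Rl_le_one_sub zero_le_one le_rfl) (Rl_nonneg zero_le_one le_rfl)

theorem Rl_anti {p p' : ℝ} (h0 : 0 ≤ p) (h : p ≤ p') (h1 : p' ≤ 1) : Rl p' ≤ Rl p := by
  rcases h1.lt_or_eq with h2 | h2
  · have h3 := Rl_thin h0 h h1
    have h4 : (1 - p') * Rl p ≤ (1 - p) * Rl p :=
      mul_le_mul_of_nonneg_right (by linarith) (Rl_nonneg h0 (h.trans h1))
    exact le_of_mul_le_mul_left (h3.trans h4) (by linarith)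
  · rw [h2, Rl_one]
    exact Rl_nonneg h0 (h.trans h1)

theorem Rl_lt {p p' : ℝ} (h0 : 0 ≤ p) (h : p < p') (h1 : p' ≤ 1) (hp : 0 < Rl p) :
    Rl p' < Rl p := by
  have h3 := Rl_thin h0 h.le h1
  have h4 : (1 - p') * Rl p < (1 - p) * Rl p := mul_lt_mul_of_pos_right (by linarith) hp
  exact lt_of_mul_lt_mul_left (h3.trans_lt h4) (by linarith)

lemma Rl_lip {p p' : ℝ} (h0 : 0 < p) (h : p ≤ p') (h1 : p' ≤ 1) :
    |Rl p - Rl p'| ≤ (p' - p) / p := by
  rw [abs_of_nonneg (by linarith [Rl_anti h0.le h h1]), le_div_iff₀ h0]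
  have h2 := Rl_and h0.le h h1
  have h3 : (p' - p) * Rl p ≥ 0 := mul_nonneg (by linarith) (Rl_nonneg h0.le (h.trans h1))
  nlinarith

theorem Rl_cont : ContinuousOn Rl (Set.Icc 0 1) := by
  intro p hp
  rcases hp.1.lt_or_eq with h | h
  · rw [Metric.continuousWithinAt_iff]
    intro ε hε
    refine ⟨min (p / 2) (ε * (p / 2) / 2), by positivity, fun {q} hq hd => ?_⟩
    rw [Real.dist_eq] at hd ⊢
    have h2 := lt_min_iff.1 hd
    have h3 : p / 2 < q := by
      have := (abs_lt.1 h2.1).1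
      linarith
    have hq0 : 0 < q := by linarith
    have key : |Rl q - Rl p| ≤ |q - p| / (p / 2) := by
      rcases le_total p q with h4 | h4
      · rw [abs_sub_comm, abs_of_nonneg (show 0 ≤ q - p by linarith)]
        refine (Rl_lip h h4 hq.2).trans ?_
        exact div_le_div_of_nonneg_left (by linarith) (by linarith) (by linarith)
      · rw [abs_sub_comm q p, abs_of_nonneg (show 0 ≤ p - q by linarith)]
        refine (Rl_lip hq0 h4 hp.2).trans ?_
        exact div_le_div_of_nonneg_left (by linarith) (by linarith) (by linarith)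
    refine key.trans_lt ?_
    rw [div_lt_iff₀ (by linarith)]
    have : 0 < ε * (p / 2) := by positivity
    linarith
  · subst h
    rw [Metric.continuousWithinAt_iff]
    intro ε hε
    have h1 : 1 - min ε (1 / 2) / 2 < 1 := by
      have : 0 < min ε (1 / 2) := lt_min hε (by norm_num)
      linarith
    have h2 : 0 < 1 - min ε (1 / 2) / 2 := by
      have : min ε (1 / 2) ≤ 1 / 2 := min_le_right _ _
      linarith
    obtain ⟨θ, ht, h3⟩ := Rl_near_zero h2 h1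
    refine ⟨θ, ht, fun {q} hq hd => ?_⟩
    rw [Real.dist_eq, sub_zero] at hd
    rw [Real.dist_eq, Rl_zero, abs_sub_comm, abs_of_nonneg (by linarith [Rl_le_one hq.1 hq.2])]
    have h4 := h3 q hq.1 ((le_abs_self q).trans hd.le)
    have h5 : min ε (1 / 2) ≤ ε := min_le_left _ _
    linarith

theorem Rl_pos {p : ℝ} (h0 : 0 ≤ p) (h1 : p < 1 / 8) : 0 < Rl p := by
  set θ : ℝ := (1 / 8 - p) / 2 with hθ
  have ht : 0 < θ := by rw [hθ]; linarith
  have hr : 8 * (p + θ) < 1 := by rw [hθ]; linarith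
  have h2 : Tendsto (fun d : ℝ => 8 * (p + θ) * θ ^ (-d)) (nhds 0) (nhds (8 * (p + θ))) := by
    have h3 : ContinuousAt (fun d : ℝ => 8 * (p + θ) * θ ^ (-d)) 0 := by
      refine ContinuousAt.mul continuousAt_const ?_
      exact (Real.continuousAt_const_rpow ht.ne').comp continuousAt_neg
    have h4 := h3.tendsto
    simpa using h4
  have h3 : ∀ᶠ d : ℝ in nhds 0, 8 * (p + θ) * θ ^ (-d) < 1 := h2.eventually (gt_mem_nhds hr)
  have h4 : ∀ᶠ d : ℝ in nhdsWithin 0 (Set.Ioi 0), 8 * (p + θ) * θ ^ (-d) < 1 :=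
    h3.filter_mono nhdsWithin_le_nhds
  have h5 : ∀ᶠ d : ℝ in nhdsWithin 0 (Set.Ioi 0), d ∈ Set.Ioo (0 : ℝ) 1 :=
    Ioo_mem_nhdsGT one_pos
  obtain ⟨d, hd1, hd2⟩ := (h4.and h5).exists
  exact hd2.1.trans_le (le_Rl hd2.1.le h0 (by linarith) ht (by rw [hθ]; linarith) hd1)

theorem Rl_eq_zero {p : ℝ} (hp : crit T < p) (h1 : p ≤ 1) : Rl p = 0 := by
  have hT : T = Td 0 := funext fun n => funext fun p => T_eq_Td n p
  rw [hT] at hp
  obtain ⟨q, hq, hqp⟩ := exists_lt_of_csInf_lt ⟨1, Td_one_mem le_rfl⟩ hp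
  have h0 : 0 ≤ p := hq.1.trans hqp.le
  have h2 := Rl_le_of_tendsto hq.1 hq.2.1 hq.2.2
  exact le_antisymm ((Rl_anti hq.1 hqp.le h1).trans h2) (Rl_nonneg h0 h1)

/-- upper tail with an explicit rate -/
theorem Td_upper' {d p : ℝ} (h0 : 0 ≤ p) (h1 : p ≤ 1) (hd : Rl p < d) :
    ∃ N : ℕ, ∀ n : ℕ, N ≤ n → 1 - Real.exp (-((d - Rl p) ^ 2 / 16 * 2 ^ n)) ≤ Td d n p := by
  obtain ⟨N, hN⟩ := exists_lt_of_ciInf_lt (show (⨅ n, Rn n p) < (Rl p + d) / 2 by
    have : (⨅ n, Rn n p) = Rl p := rfl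
    linarith)
  set m := (Rl p + d) / 2 with hm
  have hmd : 0 < d - m := by linarith
  have hc : (d - Rl p) ^ 2 / 16 = (d - m) ^ 2 / 4 := by
    rw [hm]
    ring
  rw [hc]
  refine ⟨N, fun n hn => ?_⟩
  obtain ⟨π, hπ⟩ := exists_pi n
  have h2 := mcd_upper π h0 h1 hπ (t := (d - m) * 2 ^ n) (mul_nonneg hmd.le (by positivity))
  rw [Fintype.card_fin] at h2
  have h3 : ((d - m) * 2 ^ n) ^ 2 / (4 * ((2 ^ n : ℕ) : ℝ)) = (d - m) ^ 2 / 4 * 2 ^ n := by
    have : ((2 : ℝ) ^ n) ≠ 0 := by positivity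
    push_cast
    field_simp
  rw [h3] at h2
  have h4 : Ev p (fun ω => (kap n ω : ℝ)) = Rn n p * 2 ^ n := by
    unfold Rn
    have : ((2 : ℝ) ^ n) ≠ 0 := by positivity
    field_simp
  have h5 : Rn n p * 2 ^ n ≤ m * 2 ^ n :=
    mul_le_mul_of_nonneg_right (((Rn_anti h0 h1) hn).trans hN.le) (by positivity)
  have h6 := Pr_not (p := p) (fun ω : It n → Bool => (kap n ω : ℝ) ≤ d * 2 ^ n)
  have h7 : Pr p (fun ω : It n → Bool => ¬ (kap n ω : ℝ) ≤ d * 2 ^ n) ≤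
      Real.exp (-((d - m) ^ 2 / 4 * 2 ^ n)) := by
    refine le_trans (Pr_mono h0 h1 fun ω hω => ?_) h2
    rw [h4]
    rw [not_le] at hω
    linarith
  unfold Td
  linarith

/-- the critical point `crit (Td d)` is the unique solution of `Rl p = d` -/
theorem exists_pd {d : ℝ} (hd : 0 < d) (hd1 : d < 1) : ∃ pd : ℝ, 0 < pd ∧ pd < 1 ∧ Rl pd = d ∧
    (∀ p : ℝ, 0 ≤ p → p < pd → d < Rl p) ∧ ∀ p : ℝ, pd < p → p ≤ 1 → Rl p < d := by
  have h1 : d ∈ Set.Icc (Rl 1) (Rl 0) := by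
    rw [Rl_zero, Rl_one]
    exact ⟨hd.le, hd1.le⟩
  obtain ⟨pd, hpd, he⟩ := intermediate_value_Icc' (zero_le_one' ℝ) Rl_cont h1
  have h2 : 0 < pd := by
    rcases hpd.1.lt_or_eq with h | h
    · exact h
    · rw [← h, Rl_zero] at he
      exact absurd he hd1.ne'
  have h3 : pd < 1 := by
    rcases hpd.2.lt_or_eq with h | h
    · exact h
    · rw [h, Rl_one] at he
      exact absurd he hd.ne
  refine ⟨pd, h2, h3, he, fun p h0 hp => ?_, fun p hp hp1 => ?_⟩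
  · have h4 : 0 < Rl p := (hd.trans_eq he.symm).trans_le (Rl_anti h0 hp.le hpd.2)
    have h5 := Rl_lt h0 hp hpd.2 h4
    rwa [he] at h5
  · have h5 := Rl_lt hpd.1 hp hp1 (by rw [he]; exact hd)
    rwa [he] at h5

theorem crit_eq {d pd : ℝ} (hd : 0 < d) (h0 : 0 ≤ pd) (h1 : pd < 1) (he : Rl pd = d) :
    crit (Td d) = pd := by
  refine le_antisymm ?_ (le_crit_of hd h1 he.ge)
  refine le_of_forall_gt_imp_ge_of_dense fun p hp => ?_
  rcases lt_or_ge p 1 with h | h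
  · refine csInf_le (bddC _) ⟨h0.trans hp.le, h.le, Td_tendsto_one (h0.trans hp.le) h.le ?_⟩
    have := Rl_lt h0 hp h.le (by rw [he]; exact hd)
    rwa [he] at this
  · exact (crit_le_one hd.le).trans h

theorem Rl_crit {d : ℝ} (hd : 0 < d) (hd1 : d < 1) : Rl (crit (Td d)) = d := by
  obtain ⟨pd, h1, h2, h3, -, -⟩ := exists_pd hd hd1
  rw [crit_eq hd h1.le h2 h3, h3]

end Pool.Agent.helper7.Alm
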