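import Pool.Agent.helper7.Alm.Basic

/-!
# M2: subadditivity

The two halves of the cube in direction `0`: `hf e b` is the box with levels `(k 0 + 1, k 1, k 2)`
and positions `(a 0 + e * 2 ^ (k 0), a 1, a 2)`.
-/

set_option autoImplicit false
open scoped Classical
open Finset Pool.Agent.helper17.Dya Pool.Agent.helper17.DyS

namespace Pool.Agent.helper7.Alm

lemma hf_valid {n : ℕ} (e : Fin 2) (b : It n) :
    Vl (n + 1) (fun i => if i = 0 then b.1.1 0 + 1 else b.1.1 i,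
      fun i => if i = 0 then b.1.2 0 + e * 2 ^ (b.1.1 0) else b.1.2 i) := by
  constructor
  · have h := b.2.1
    rw [Fin.sum_univ_three] at h ⊢
    simp only [if_true, if_neg (show (1 : Fin 3) ≠ 0 by decide),
      if_neg (show (2 : Fin 3) ≠ 0 by decide)]
    omega
  · intro i
    by_cases hi : i = 0
    · subst hi
      simp only [if_true]
      have h := b.2.2 0
      have he : (e : ℕ) ≤ 1 := by omega
      have : (e : ℕ) * 2 ^ (b.1.1 0) ≤ 1 * 2 ^ (b.1.1 0) := Nat.mul_le_mul_right _ he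
      rw [pow_succ]
      omega
    · simp only [if_neg hi]
      exact b.2.2 i

/-- the copy of the box `b` in the half `e` of the cube -/
def hf {n : ℕ} (e : Fin 2) (b : It n) : It (n + 1) :=
  ⟨(fun i => if i = 0 then b.1.1 0 + 1 else b.1.1 i,
    fun i => if i = 0 then b.1.2 0 + e * 2 ^ (b.1.1 0) else b.1.2 i), hf_valid e b⟩

theorem hf_inj {n : ℕ} (e : Fin 2) : Function.Injective (hf (n := n) e) := by
  intro b b' h
  have h1 := congrArg (fun c : It (n + 1) => c.1.1) h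
  have h2 := congrArg (fun c : It (n + 1) => c.1.2) h
  have h3 : b.1.1 = b'.1.1 := by
    funext i
    have h4 := congrFun h1 i
    by_cases hi : i = 0
    · subst hi
      simpa [hf] using h4
    · simpa [hf, hi] using h4
  refine Subtype.ext (Prod.ext h3 (funext fun i => ?_))
  have h4 := congrFun h2 i
  by_cases hi : i = 0
  · subst hi
    simpa [hf, h3] using h4
  · simpa [hf, hi] using h4

lemma key0 {n k a e x : ℕ} (hk : k ≤ n) (ha : a < 2 ^ k) (he : e ≤ 1) (hx : x < 2 ^ (n + 1)) :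
    x / 2 ^ (n + 1 - (k + 1)) = a + e * 2 ^ k ↔ x / 2 ^ n = e ∧ (x % 2 ^ n) / 2 ^ (n - k) = a := by
  rw [show n + 1 - (k + 1) = n - k by omega]
  have hn : 2 ^ n = 2 ^ (n - k) * 2 ^ k := by rw [← pow_add]; congr 1; omega
  have h1 : x / 2 ^ n = x / 2 ^ (n - k) / 2 ^ k := by rw [hn, Nat.div_div_eq_div_mul]
  have h2 : (x % 2 ^ n) / 2 ^ (n - k) = (x / 2 ^ (n - k)) % 2 ^ k := by
    rw [hn, Nat.mod_mul_right_div_self]
  rw [h1, h2]
  set y := x / 2 ^ (n - k)
  have hpos : 0 < 2 ^ k := by positivity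
  constructor
  · intro h
    rw [h]
    constructor
    · rw [Nat.add_mul_div_right _ _ hpos, Nat.div_eq_of_lt ha, zero_add]
    · rw [Nat.add_mul_mod_self_right, Nat.mod_eq_of_lt ha]
  · rintro ⟨h3, h4⟩
    have := Nat.div_add_mod y (2 ^ k)
    rw [h3, h4] at this
    rw [← this, mul_comm, add_comm]

lemma key1 {n k x : ℕ} (hk : k ≤ n) : x / 2 ^ (n + 1 - k) = x / 2 / 2 ^ (n - k) := by
  rw [Nat.div_div_eq_div_mul, show n + 1 - k = (n - k) + 1 by omega, pow_succ, mul_comm]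

/-- the cell of the half -/
def dn (n : ℕ) (x : Fin 3 → ℕ) : Fin 3 → ℕ := fun i => if i = 0 then x 0 % 2 ^ n else x i / 2

lemma dn_lt {n : ℕ} {x : Fin 3 → ℕ} (hx : ∀ i, x i < 2 ^ (n + 1)) (i : Fin 3) :
    dn n x i < 2 ^ n := by
  unfold dn
  split_ifs with h
  · exact Nat.mod_lt _ (by positivity)
  · have := hx i
    rw [pow_succ] at this
    omega

lemma Cv_hf {n : ℕ} (e : Fin 2) (b : It n) {x : Fin 3 → ℕ} (hx : ∀ i, x i < 2 ^ (n + 1)) :
    Cv (n + 1) (hf e b).1 x ↔ x 0 / 2 ^ n = e ∧ Cv n b.1 (dn n x) := by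
  have h0 : x 0 / 2 ^ (n + 1 - (b.1.1 0 + 1)) = b.1.2 0 + e * 2 ^ (b.1.1 0) ↔
      x 0 / 2 ^ n = e ∧ (x 0 % 2 ^ n) / 2 ^ (n - b.1.1 0) = b.1.2 0 :=
    key0 (b.2.le 0) (b.2.2 0) (by omega) (hx 0)
  constructor
  · intro h
    obtain ⟨h1, h2⟩ := h0.1 (by simpa [hf] using h 0)
    refine ⟨h1, fun i => ?_⟩
    by_cases hi : i = 0
    · subst hi
      simpa [dn] using h2
    · have h3 := h i
      simp only [hf, if_neg hi] at h3
      rw [key1 (b.2.le i)] at h3
      simpa [dn, hi] using h3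
  · rintro ⟨h1, h2⟩ i
    by_cases hi : i = 0
    · subst hi
      have h3 := h0.2 ⟨h1, by simpa [dn] using h2 0⟩
      simpa [hf] using h3
    · have h3 := h2 i
      simp only [dn, if_neg hi] at h3
      rw [← key1 (b.2.le i)] at h3
      simpa [hf, hi] using h3

theorem kap_succ_le {n : ℕ} (ω : It (n + 1) → Bool) :
    kap (n + 1) ω ≤ kap n (fun b => ω (hf 0 b)) + kap n (fun b => ω (hf 1 b)) := by
  obtain ⟨R0, h0, c0⟩ := exists_kap fun b => ω (hf 0 b)
  obtain ⟨R1, h1, c1⟩ := exists_kap fun b => ω (hf 1 b)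
  set R : Fin 2 → Finset (It n) := fun e => if e = 0 then R0 else R1 with hR
  have hT : ∀ e, Tg n (R e) := by
    intro e
    rw [hR]
    by_cases he : e = 0
    · simpa [he] using h0
    · simpa [he] using h1
  have key : Tg (n + 1) (univ.biUnion fun e => (R e).image (hf e)) := by
    intro x hx
    have he : x 0 / 2 ^ n < 2 := by
      rw [Nat.div_lt_iff_lt_mul (by positivity)]
      have := hx 0
      rw [pow_succ] at this
      omega
    obtain ⟨b, ⟨hb, hc⟩, hu⟩ := hT ⟨x 0 / 2 ^ n, he⟩ (dn n x) (dn_lt hx)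
    refine ⟨hf ⟨x 0 / 2 ^ n, he⟩ b, ⟨?_, (Cv_hf _ b hx).2 ⟨rfl, hc⟩⟩, ?_⟩
    · exact mem_biUnion.2 ⟨_, mem_univ _, mem_image_of_mem _ hb⟩
    · rintro b' ⟨hb', hc'⟩
      obtain ⟨e, -, h2⟩ := mem_biUnion.1 hb'
      obtain ⟨b'', h3, rfl⟩ := mem_image.1 h2
      obtain ⟨h4, h5⟩ := (Cv_hf e b'' hx).1 hc'
      have h6 : e = ⟨x 0 / 2 ^ n, he⟩ := Fin.ext h4.symm
      rw [← h6] at hu ⊢
      rw [hu b'' ⟨h3, h5⟩]
  refine (kap_le_cl key).trans ?_
  rw [← c0, ← c1]
  unfold cl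
  have h2 : ((univ.biUnion fun e => (R e).image (hf e)).filter fun b => ω b = false) ⊆
      ((R0.filter fun b => ω (hf 0 b) = false).image (hf 0)) ∪
        ((R1.filter fun b => ω (hf 1 b) = false).image (hf 1)) := by
    intro c hc
    obtain ⟨h3, h4⟩ := mem_filter.1 hc
    obtain ⟨e, -, h5⟩ := mem_biUnion.1 h3
    obtain ⟨b, h6, rfl⟩ := mem_image.1 h5
    rw [mem_union]
    rcases (by omega : e = 0 ∨ e = 1) with he | he
    · subst he
      left
      exact mem_image_of_mem _ (mem_filter.2 ⟨by simpa [hR] using h6, h4⟩)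
    · subst he
      right
      exact mem_image_of_mem _ (mem_filter.2 ⟨by simpa [hR] using h6, h4⟩)
  exact (card_le_card h2).trans ((card_union_le _ _).trans (add_le_add card_image_le card_image_le))

/-- use `Ev_comp` (in Dya/Prob) with `φ = hf e` -/
theorem Rn_succ_le {n : ℕ} {p : ℝ} (h0 : 0 ≤ p) (h1 : p ≤ 1) : Rn (n + 1) p ≤ Rn n p := by
  have h2 : Ev p (fun ω => (kap (n + 1) ω : ℝ)) ≤
      Ev p (fun ω : It (n + 1) → Bool => (kap n (fun b => ω (hf 0 b)) : ℝ) +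
        (kap n (fun b => ω (hf 1 b)) : ℝ)) :=
    Ev_mono h0 h1 fun ω => by exact_mod_cast kap_succ_le ω
  rw [Ev_add, Ev_comp (hf 0) (hf_inj 0) fun σ => (kap n σ : ℝ),
    Ev_comp (hf 1) (hf_inj 1) fun σ => (kap n σ : ℝ)] at h2
  unfold Rn
  rw [div_le_div_iff₀ (by positivity) (by positivity), pow_succ]
  have h3 : (0 : ℝ) < 2 ^ n := by positivity
  nlinarith

end Pool.Agent.helper7.Alm
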