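import Pool.Agent.helper7.Alm.Rect

/-!
# M6: tilings in dimension three

Sketch.  Let `X l c Ω` be the sum of `(1/8) ^ card R` over all `R` with `Ti3 n l c Ω R`.  Claim
(induction on `n - l`): `X l c Ω` is at most the sum of `(1/8) ^ card S` over the `S ⊆ rects n` with
`Ti2 n Ω S` and all orders `q.1.1 + q.1.2 ≤ n - l`; by `rect_sum` this is at most `1`.
Step.  Split `R` in `P` = the boxes of `R` with third level exactly `l` (they span the interval
`(l, c)`; their cross-sections have order `n - l`), and `R0`, `R1` = the boxes of `R` contained in the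
two halves `(l + 1, 2 c)`, `(l + 1, 2 c + 1)` of the interval.  With `Ω' = Ω` minus the cells under
`P`, `R0` and `R1` satisfy `Ti3` for `Ω'`, and `card R = card P + card R0 + card R1`.  So
`X l c Ω ≤ ∑ P, (1/8) ^ card P * X (l+1) (2c) Ω' * X (l+1) (2c+1) Ω'
 ≤ ∑ P, (1/8) ^ card P * X (l+1) (2c) Ω' ≤ ∑ P, (1/8) ^ card P * ∑ S', (1/8) ^ card S'`,
and `(P, S') ↦ (cross-sections of P) ∪ S'` is injective into the `S` of the claim (`S'` has orders
`≤ n - l - 1`, the cross-sections of `P` have order `n - l`; a box of `P` is determined by its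
cross-section, as its third level is `l` and its third position is `c`).
(If `l = n`: the boxes have third level `n`, so the other two levels are `0` and `R` is empty or
consists of one box, namely if `Ω` contains all cells; its cross-section is `((0, 0), (0, 0))`.)
-/

set_option autoImplicit false
open scoped Classical
open Finset Pool.Agent.helper17.Dya Pool.Agent.helper17.DyS

namespace Pool.Agent.helper7.Alm

/-- the cross-section of a box -/
def Sweep_sg {n : ℕ} (b : It n) : Q2 := ((b.1.1 0, b.1.1 1), (b.1.2 0, b.1.2 1))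

theorem Sweep_cv {n : ℕ} (b : It n) (x y : ℕ) : Cv2 n (Sweep_sg b) x y ↔ Col n b.1 x y := Iff.rfl

theorem Sweep_sum {n : ℕ} (b : It n) : b.1.1 0 + b.1.1 1 + b.1.1 2 = n := by
  have h := b.2.1
  rw [Fin.sum_univ_three] at h
  exact h

theorem Sweep_sg_inj {n l c : ℕ} {b b' : It n} (h : b.1.1 2 = l) (hc : b.1.2 2 = c)
    (h' : b'.1.1 2 = l) (hc' : b'.1.2 2 = c) (hs : Sweep_sg b = Sweep_sg b') : b = b' := by
  unfold Sweep_sg at hs
  rw [Prod.mk.injEq, Prod.mk.injEq, Prod.mk.injEq] at hs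
  obtain ⟨⟨h0, h1⟩, h2, h3⟩ := hs
  refine Subtype.ext (Prod.ext (funext fun i => ?_) (funext fun i => ?_))
  · fin_cases i
    · exact h0
    · exact h1
    · exact h.trans h'.symm
  · fin_cases i
    · exact h2
    · exact h3
    · exact hc.trans hc'.symm

/-- admissible sets of boxes which span the interval -/
def Sweep_PV (n l c : ℕ) (Ω : ℕ → ℕ → Prop) (P : Finset (It n)) : Prop :=
  (∀ b ∈ P, b.1.1 2 = l ∧ b.1.2 2 = c ∧ ∀ x < 2 ^ n, ∀ y < 2 ^ n, Col n b.1 x y → Ω x y) ∧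
  ∀ x < 2 ^ n, ∀ y < 2 ^ n, ∀ b ∈ P, ∀ b' ∈ P, Col n b.1 x y → Col n b'.1 x y → b = b'

/-- the region without the cells under `P` -/
def Sweep_Om (n : ℕ) (Ω : ℕ → ℕ → Prop) (P : Finset (It n)) : ℕ → ℕ → Prop :=
  fun x y => Ω x y ∧ ∀ b ∈ P, ¬ Col n b.1 x y

theorem Sweep_pos {n l c : ℕ} (hl : l ≤ n) (hc : c < 2 ^ l) :
    c * 2 ^ (n - l) < 2 ^ n ∧ c * 2 ^ (n - l) / 2 ^ (n - l) = c := by
  constructor
  · calc c * 2 ^ (n - l) < 2 ^ l * 2 ^ (n - l) := Nat.mul_lt_mul_of_pos_right hc (by positivity)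
      _ = 2 ^ n := by rw [← pow_add]; congr 1; omega
  · exact Nat.mul_div_cancel _ (by positivity)

theorem Sweep_div {n l m z : ℕ} (h1 : l ≤ m) (h2 : m ≤ n) : z / 2 ^ (n - m) / 2 ^ (m - l) = z / 2 ^ (n - l) := by
  rw [Nat.div_div_eq_div_mul, ← pow_add]
  congr 2
  omega

theorem Sweep_P {n l c : ℕ} (hl : l ≤ n) (hc : c < 2 ^ l) {Ω : ℕ → ℕ → Prop} {R : Finset (It n)}
    (hR : Ti3 n l c Ω R) : Sweep_PV n l c Ω (R.filter fun b => b.1.1 2 = l) := by
  have hpos : ∀ b ∈ R, b.1.1 2 = l → b.1.2 2 = c := by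
    intro b hb hbl
    have h := (hR.1 b hb).2.1
    rw [hbl, Nat.sub_self, pow_zero, Nat.div_one] at h
    exact h
  refine ⟨?_, ?_⟩
  · intro b hb
    rw [mem_filter] at hb
    exact ⟨hb.2, hpos b hb.1 hb.2, (hR.1 b hb.1).2.2⟩
  · intro x hx y hy b hb b' hb' h h'
    rw [mem_filter] at hb hb'
    obtain ⟨hz, hz'⟩ := Sweep_pos hl hc
    refine (hR.2 x hx y hy _ hz hz' ((hR.1 b hb.1).2.2 x hx y hy h)).unique ⟨hb.1, h, ?_⟩ ⟨hb'.1, h', ?_⟩
    · rw [hb.2, hpos b hb.1 hb.2]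
      exact hz'
    · rw [hb'.2, hpos b' hb'.1 hb'.2]
      exact hz'

theorem Sweep_half {n l c : ℕ} (hl : l < n) {Ω : ℕ → ℕ → Prop} {R : Finset (It n)}
    (hR : Ti3 n l c Ω R) (e : ℕ) (he : e / 2 = c) :
    Ti3 n (l + 1) e (Sweep_Om n Ω (R.filter fun b => b.1.1 2 = l))
      (R.filter fun b => l < b.1.1 2 ∧ b.1.2 2 / 2 ^ (b.1.1 2 - (l + 1)) = e) := by
  refine ⟨?_, ?_⟩
  · intro b hb
    rw [mem_filter] at hb
    obtain ⟨hbR, hbl, hbe⟩ := hb
    refine ⟨hbl, hbe, ?_⟩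
    intro x hx y hy h
    refine ⟨(hR.1 b hbR).2.2 x hx y hy h, ?_⟩
    intro b' hb' h'
    rw [mem_filter] at hb'
    have hbn : b.1.1 2 ≤ n := b.2.le 2
    have hz := Sweep_pos hbn (b.2.2 2)
    have hz2 : b.1.2 2 * 2 ^ (n - b.1.1 2) / 2 ^ (n - l) = c := by
      rw [← Sweep_div (m := b.1.1 2) hbl.le hbn, hz.2]
      exact (hR.1 b hbR).2.1
    have hb'c : b'.1.2 2 = c := by
      have h := (hR.1 b' hb'.1).2.1
      rw [hb'.2, Nat.sub_self, pow_zero, Nat.div_one] at h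
      exact h
    have heq := (hR.2 x hx y hy _ hz.1 hz2 ((hR.1 b hbR).2.2 x hx y hy h)).unique ⟨hbR, h, hz.2⟩
      ⟨hb'.1, h', by rw [hb'.2, hb'c]; exact hz2⟩
    rw [← heq] at hb'
    omega
  · intro x hx y hy z hz hze hΩ
    have hzc : z / 2 ^ (n - l) = c := by
      rw [← Sweep_div (m := l + 1) (Nat.le_succ l) hl, hze]
      have : l + 1 - l = 1 := by omega
      rw [this, pow_one]
      exact he
    obtain ⟨b, ⟨hbR, hb1, hb2⟩, huniq⟩ := hR.2 x hx y hy z hz hzc hΩ.1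
    have hbl : l < b.1.1 2 := by
      rcases Nat.lt_or_ge l (b.1.1 2) with h | h
      · exact h
      · have h' : b.1.1 2 = l := le_antisymm h (hR.1 b hbR).1
        exact absurd hb1 (hΩ.2 b (mem_filter.2 ⟨hbR, h'⟩))
    refine ⟨b, ⟨mem_filter.2 ⟨hbR, hbl, ?_⟩, hb1, hb2⟩, ?_⟩
    · rw [← hb2, Sweep_div (l := l + 1) hbl (b.2.le 2)]
      exact hze
    · rintro b' ⟨hb', h1, h2⟩
      exact huniq b' ⟨(mem_filter.1 hb').1, h1, h2⟩

/-- the set of rectangles given by `P` and `S` -/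
noncomputable def Sweep_un {n : ℕ} (P : Finset (It n)) (S : Finset Q2) : Finset Q2 := P.image Sweep_sg ∪ S

theorem Sweep_mem {n l c : ℕ} (hl : l ≤ n) {Ω : ℕ → ℕ → Prop} {P : Finset (It n)} (hP : Sweep_PV n l c Ω P)
    {S : Finset Q2} (hSr : S ⊆ rects n) (hS : Ti2 n (Sweep_Om n Ω P) S) (hSo : ∀ q ∈ S, q.1.1 + q.1.2 < n - l) :
    Sweep_un P S ∈ (rects n).powerset.filter (fun S => Ti2 n Ω S ∧ ∀ q ∈ S, q.1.1 + q.1.2 ≤ n - l) := by
  rw [mem_filter, mem_powerset]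
  unfold Sweep_un
  refine ⟨?_, ⟨?_, ?_⟩, ?_⟩
  · refine union_subset ?_ hSr
    intro q hq
    rw [mem_image] at hq
    obtain ⟨b, hb, rfl⟩ := hq
    unfold rects
    rw [mem_filter, mem_product, mem_product, mem_product, mem_range, mem_range, mem_range, mem_range]
    refine ⟨⟨⟨Nat.lt_succ_of_le (b.2.le 0), Nat.lt_succ_of_le (b.2.le 1)⟩, b.2.lt 0, b.2.lt 1⟩, b.2.2 0, b.2.2 1⟩
  · intro q hq x hx y hy h
    rw [mem_union, mem_image] at hq
    rcases hq with ⟨b, hb, rfl⟩ | hq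
    · exact (hP.1 b hb).2.2 x hx y hy h
    · exact (hS.1 q hq x hx y hy h).1
  · intro x hx y hy hΩ
    by_cases hb : ∃ b ∈ P, Col n b.1 x y
    · obtain ⟨b, hb, hbc⟩ := hb
      refine ⟨Sweep_sg b, ⟨mem_union_left _ (mem_image_of_mem _ hb), hbc⟩, ?_⟩
      rintro q ⟨hq, hqc⟩
      rw [mem_union, mem_image] at hq
      rcases hq with ⟨b', hb', rfl⟩ | hq
      · rw [hP.2 x hx y hy b hb b' hb' hbc hqc]
      · exact absurd hbc ((hS.1 q hq x hx y hy hqc).2 b hb)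
    · push Not at hb
      obtain ⟨q, ⟨hq, hqc⟩, huniq⟩ := hS.2 x hx y hy ⟨hΩ, hb⟩
      refine ⟨q, ⟨mem_union_right _ hq, hqc⟩, ?_⟩
      rintro q' ⟨hq', hqc'⟩
      rw [mem_union, mem_image] at hq'
      rcases hq' with ⟨b', hb', rfl⟩ | hq'
      · exact absurd hqc' (hb b' hb')
      · exact huniq q' ⟨hq', hqc'⟩
  · intro q hq
    rw [mem_union, mem_image] at hq
    rcases hq with ⟨b, hb, rfl⟩ | hq
    · have h1 := Sweep_sum b
      have h2 := (hP.1 b hb).1
      change b.1.1 0 + b.1.1 1 ≤ n - l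
      omega
    · exact (hSo q hq).le

theorem Sweep_card {n l c : ℕ} {Ω : ℕ → ℕ → Prop} {P : Finset (It n)} (hP : Sweep_PV n l c Ω P)
    {S : Finset Q2} (hSo : ∀ q ∈ S, q.1.1 + q.1.2 < n - l) :
    (Sweep_un P S).card = P.card + S.card := by
  unfold Sweep_un
  rw [card_union_of_disjoint, card_image_of_injOn]
  · intro b hb b' hb' h
    exact Sweep_sg_inj (hP.1 b hb).1 (hP.1 b hb).2.1 (hP.1 b' hb').1 (hP.1 b' hb').2.1 h
  · rw [Finset.disjoint_left]
    intro q hq hq'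
    rw [mem_image] at hq
    obtain ⟨b, hb, rfl⟩ := hq
    have h1 := hSo _ hq'
    have h2 := Sweep_sum b
    have h3 := (hP.1 b hb).1
    change b.1.1 0 + b.1.1 1 < n - l at h1
    omega

theorem Sweep_un_inj {n l c : ℕ} {Ω : ℕ → ℕ → Prop} {P P' : Finset (It n)} (hP : Sweep_PV n l c Ω P)
    (hP' : Sweep_PV n l c Ω P') {S S' : Finset Q2} (hSo : ∀ q ∈ S, q.1.1 + q.1.2 < n - l)
    (hSo' : ∀ q ∈ S', q.1.1 + q.1.2 < n - l) (h : Sweep_un P S = Sweep_un P' S') : P = P' ∧ S = S' := by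
  have key : ∀ {A A' : Finset (It n)} {B B' : Finset Q2}, Sweep_PV n l c Ω A → Sweep_PV n l c Ω A' →
      (∀ q ∈ B, q.1.1 + q.1.2 < n - l) → (∀ q ∈ B', q.1.1 + q.1.2 < n - l) → Sweep_un A B = Sweep_un A' B' →
      A ⊆ A' ∧ B ⊆ B' := by
    intro A A' B B' hA hA' hB hB' h
    unfold Sweep_un at h
    constructor
    · intro b hb
      have h1 : Sweep_sg b ∈ A'.image Sweep_sg ∪ B' := by
        rw [← h]
        exact mem_union_left _ (mem_image_of_mem _ hb)
      rw [mem_union, mem_image] at h1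
      rcases h1 with ⟨b', hb', hbb⟩ | h1
      · rw [Sweep_sg_inj (hA.1 b hb).1 (hA.1 b hb).2.1 (hA'.1 b' hb').1 (hA'.1 b' hb').2.1 hbb.symm]
        exact hb'
      · have h2 := hB' _ h1
        have h3 := Sweep_sum b
        have h4 := (hA.1 b hb).1
        change b.1.1 0 + b.1.1 1 < n - l at h2
        omega
    · intro q hq
      have h1 : q ∈ A'.image Sweep_sg ∪ B' := by
        rw [← h]
        exact mem_union_right _ hq
      rw [mem_union, mem_image] at h1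
      rcases h1 with ⟨b', hb', rfl⟩ | h1
      · have h2 := hB _ hq
        have h3 := Sweep_sum b'
        have h4 := (hA'.1 b' hb').1
        change b'.1.1 0 + b'.1.1 1 < n - l at h2
        omega
      · exact h1
  have h1 := key hP hP' hSo hSo' h
  have h2 := key hP' hP hSo' hSo h.symm
  exact ⟨Finset.Subset.antisymm h1.1 h2.1, Finset.Subset.antisymm h1.2 h2.2⟩

theorem Sweep_sum_le {α β : Type*} (s : Finset α) (t : Finset β) (g : α → β) (f : β → ℝ) (F : α → ℝ)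
    (hg : ∀ a ∈ s, g a ∈ t) (hinj : ∀ a ∈ s, ∀ a' ∈ s, g a = g a' → a = a')
    (hF : ∀ a ∈ s, F a ≤ f (g a)) (hf : ∀ b ∈ t, 0 ≤ f b) : ∑ a ∈ s, F a ≤ ∑ b ∈ t, f b := by
  calc ∑ a ∈ s, F a ≤ ∑ a ∈ s, f (g a) := sum_le_sum hF
    _ = ∑ b ∈ s.image g, f b := (sum_image (fun a ha a' ha' h => hinj a ha a' ha' h)).symm
    _ ≤ ∑ b ∈ t, f b := by
        refine sum_le_sum_of_subset_of_nonneg ?_ (fun b hb _ => hf b hb)
        intro b hb
        obtain ⟨a, ha, rfl⟩ := mem_image.1 hb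
        exact hg a ha

theorem Sweep_base {n c : ℕ} (hc : c < 2 ^ n) (Ω : ℕ → ℕ → Prop) :
    ∑ R ∈ (univ : Finset (Finset (It n))).filter (Ti3 n n c Ω), (1 / 8 : ℝ) ^ R.card ≤
      ∑ S ∈ (rects n).powerset.filter (fun S => Ti2 n Ω S ∧ ∀ q ∈ S, q.1.1 + q.1.2 ≤ n - n),
        (1 / 8 : ℝ) ^ S.card := by
  have hPV : ∀ R : Finset (It n), Ti3 n n c Ω R → Sweep_PV n n c Ω R := by
    intro R hR
    have h1 := Sweep_P le_rfl hc hR
    have h2 : R.filter (fun b => b.1.1 2 = n) = R := by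
      refine filter_true_of_mem fun b hb => ?_
      exact le_antisymm (b.2.le 2) (hR.1 b hb).1
    rwa [h2] at h1
  have hno : ∀ q ∈ (∅ : Finset Q2), q.1.1 + q.1.2 < n - n := by simp
  refine Sweep_sum_le _ _ (fun R => Sweep_un R ∅) _ _ ?_ ?_ ?_ ?_
  · intro R hR
    have hR' := (mem_filter.1 hR).2
    refine Sweep_mem le_rfl (hPV R hR') (empty_subset _) ⟨by simp, ?_⟩ hno
    intro x hx y hy hΩ
    exfalso
    obtain ⟨hz, hz'⟩ := Sweep_pos (n := n) le_rfl hc
    obtain ⟨b, ⟨hbR, hb1, -⟩, -⟩ := hR'.2 x hx y hy _ hz hz' hΩ.1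
    exact hΩ.2 b hbR hb1
  · intro R hR R' hR' h
    exact (Sweep_un_inj (hPV R (mem_filter.1 hR).2) (hPV R' (mem_filter.1 hR').2) hno hno h).1
  · intro R hR
    rw [Sweep_card (hPV R (mem_filter.1 hR).2) hno]
    simp
  · intro S _
    positivity

theorem Sweep_le_one (n m : ℕ) (Ω : ℕ → ℕ → Prop) :
    ∑ S ∈ (rects n).powerset.filter (fun S => Ti2 n Ω S ∧ ∀ q ∈ S, q.1.1 + q.1.2 ≤ m),
        (1 / 8 : ℝ) ^ S.card ≤ 1 := by
  refine le_trans (sum_le_sum_of_subset_of_nonneg ?_ (fun S _ _ => by positivity)) (rect_sum n Ω)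
  intro S hS
  rw [mem_filter] at hS ⊢
  exact ⟨hS.1, hS.2.1⟩

theorem Sweep_fib {n l c : ℕ} (hl : l < n) {Ω : ℕ → ℕ → Prop} (P : Finset (It n)) :
    ∑ R ∈ ((univ : Finset (Finset (It n))).filter (Ti3 n l c Ω)).filter (fun R => (R.filter fun b => b.1.1 2 = l) = P),
      (1 / 8 : ℝ) ^ R.card ≤
    (1 / 8 : ℝ) ^ P.card *
      ((∑ R ∈ (univ : Finset (Finset (It n))).filter (Ti3 n (l + 1) (2 * c) (Sweep_Om n Ω P)), (1 / 8 : ℝ) ^ R.card) *
       (∑ R ∈ (univ : Finset (Finset (It n))).filter (Ti3 n (l + 1) (2 * c + 1) (Sweep_Om n Ω P)), (1 / 8 : ℝ) ^ R.card)) := by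
  rw [sum_mul_sum, ← sum_product', mul_sum]
  have hsplit : ∀ R : Finset (It n), Ti3 n l c Ω R → ∀ b ∈ R, b.1.1 2 = l ∨
      (l < b.1.1 2 ∧ b.1.2 2 / 2 ^ (b.1.1 2 - (l + 1)) = 2 * c) ∨
      (l < b.1.1 2 ∧ b.1.2 2 / 2 ^ (b.1.1 2 - (l + 1)) = 2 * c + 1) := by
    intro R hR b hb
    obtain ⟨h1, h2, -⟩ := hR.1 b hb
    rcases Nat.eq_or_lt_of_le h1 with h | h
    · exact Or.inl h.symm
    · right
      have h3 : b.1.2 2 / 2 ^ (b.1.1 2 - (l + 1)) / 2 = c := by
        rw [Nat.div_div_eq_div_mul, ← pow_succ]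
        have : b.1.1 2 - (l + 1) + 1 = b.1.1 2 - l := by omega
        rw [this]
        exact h2
      have h4 : b.1.2 2 / 2 ^ (b.1.1 2 - (l + 1)) = 2 * c ∨ b.1.2 2 / 2 ^ (b.1.1 2 - (l + 1)) = 2 * c + 1 := by
        omega
      rcases h4 with h4 | h4
      · exact Or.inl ⟨h, h4⟩
      · exact Or.inr ⟨h, h4⟩
  refine Sweep_sum_le _ _
    (fun R => (R.filter (fun b => l < b.1.1 2 ∧ b.1.2 2 / 2 ^ (b.1.1 2 - (l + 1)) = 2 * c),
      R.filter (fun b => l < b.1.1 2 ∧ b.1.2 2 / 2 ^ (b.1.1 2 - (l + 1)) = 2 * c + 1))) _ _ ?_ ?_ ?_ ?_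
  · intro R hR
    rw [mem_filter, mem_filter] at hR
    obtain ⟨⟨-, hR⟩, hRP⟩ := hR
    rw [mem_product, mem_filter, mem_filter]
    refine ⟨⟨mem_univ _, ?_⟩, mem_univ _, ?_⟩
    · rw [← hRP]
      exact Sweep_half hl hR (2 * c) (by omega)
    · rw [← hRP]
      exact Sweep_half hl hR (2 * c + 1) (by omega)
  · intro R hR R' hR' h
    rw [mem_filter, mem_filter] at hR hR'
    obtain ⟨⟨-, hR⟩, hRP⟩ := hR
    obtain ⟨⟨-, hR'⟩, hRP'⟩ := hR'
    rw [Prod.mk.injEq] at h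
    have key : ∀ {A A' : Finset (It n)}, Ti3 n l c Ω A → (A.filter fun b => b.1.1 2 = l) = (A'.filter fun b => b.1.1 2 = l) →
        A.filter (fun b => l < b.1.1 2 ∧ b.1.2 2 / 2 ^ (b.1.1 2 - (l + 1)) = 2 * c) =
        A'.filter (fun b => l < b.1.1 2 ∧ b.1.2 2 / 2 ^ (b.1.1 2 - (l + 1)) = 2 * c) →
        A.filter (fun b => l < b.1.1 2 ∧ b.1.2 2 / 2 ^ (b.1.1 2 - (l + 1)) = 2 * c + 1) =
        A'.filter (fun b => l < b.1.1 2 ∧ b.1.2 2 / 2 ^ (b.1.1 2 - (l + 1)) = 2 * c + 1) → A ⊆ A' := by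
      intro A A' hA e1 e2 e3 b hb
      rcases hsplit A hA b hb with h | h | h
      · have : b ∈ A'.filter (fun b => b.1.1 2 = l) := by
          rw [← e1]
          exact mem_filter.2 ⟨hb, h⟩
        exact (mem_filter.1 this).1
      · have : b ∈ A'.filter (fun b => l < b.1.1 2 ∧ b.1.2 2 / 2 ^ (b.1.1 2 - (l + 1)) = 2 * c) := by
          rw [← e2]
          exact mem_filter.2 ⟨hb, h⟩
        exact (mem_filter.1 this).1
      · have : b ∈ A'.filter (fun b => l < b.1.1 2 ∧ b.1.2 2 / 2 ^ (b.1.1 2 - (l + 1)) = 2 * c + 1) := by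
          rw [← e3]
          exact mem_filter.2 ⟨hb, h⟩
        exact (mem_filter.1 this).1
    exact Finset.Subset.antisymm (key hR (hRP.trans hRP'.symm) h.1 h.2)
      (key hR' (hRP'.trans hRP.symm) h.1.symm h.2.symm)
  · intro R hR
    rw [mem_filter, mem_filter] at hR
    obtain ⟨⟨-, hR⟩, hRP⟩ := hR
    have hcard : R.card = P.card + ((R.filter (fun b => l < b.1.1 2 ∧ b.1.2 2 / 2 ^ (b.1.1 2 - (l + 1)) = 2 * c)).card +
        (R.filter (fun b => l < b.1.1 2 ∧ b.1.2 2 / 2 ^ (b.1.1 2 - (l + 1)) = 2 * c + 1)).card) := by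
      rw [← hRP, ← card_union_of_disjoint, ← card_union_of_disjoint]
      · congr 1
        ext b
        rw [mem_union, mem_union, mem_filter, mem_filter, mem_filter]
        constructor
        · intro hb
          rcases hsplit R hR b hb with h | h | h
          · exact Or.inl ⟨hb, h⟩
          · exact Or.inr (Or.inl ⟨hb, h⟩)
          · exact Or.inr (Or.inr ⟨hb, h⟩)
        · rintro (h | h | h) <;> exact h.1
      · rw [Finset.disjoint_left]
        intro b hb hb'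
        rw [mem_filter] at hb
        rw [mem_union, mem_filter, mem_filter] at hb'
        rcases hb' with h | h
        · have := h.2.1
          omega
        · have := h.2.1
          omega
      · rw [Finset.disjoint_left]
        intro b hb hb'
        rw [mem_filter] at hb hb'
        have h1 := hb.2.2
        have h2 := hb'.2.2
        omega
    simp only
    rw [hcard, pow_add, pow_add]
  · rintro ⟨A, B⟩ _
    positivity

theorem sweep (n : ℕ) {l c : ℕ} (hl : l ≤ n) (hc : c < 2 ^ l) (Ω : ℕ → ℕ → Prop) :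
    ∑ R ∈ (univ : Finset (Finset (It n))).filter (Ti3 n l c Ω), (1 / 8 : ℝ) ^ R.card ≤
      ∑ S ∈ (rects n).powerset.filter (fun S => Ti2 n Ω S ∧ ∀ q ∈ S, q.1.1 + q.1.2 ≤ n - l),
        (1 / 8 : ℝ) ^ S.card := by
  obtain ⟨k, hk⟩ : ∃ k, k = n - l := ⟨_, rfl⟩
  induction k generalizing l c Ω with
  | zero =>
    have : l = n := by omega
    subst this
    exact Sweep_base hc Ω
  | succ k ih =>
    have hln : l < n := by omega
    have hc0 : 2 * c < 2 ^ (l + 1) := by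
      rw [pow_succ]
      omega
    have hc1 : 2 * c + 1 < 2 ^ (l + 1) := by
      rw [pow_succ]
      omega
    set PP := (univ : Finset (Finset (It n))).filter (Sweep_PV n l c Ω) with hPP
    have hmaps : ∀ R ∈ (univ : Finset (Finset (It n))).filter (Ti3 n l c Ω), (R.filter fun b => b.1.1 2 = l) ∈ PP := by
      intro R hR
      rw [hPP, mem_filter]
      exact ⟨mem_univ _, Sweep_P hl hc (mem_filter.1 hR).2⟩
    rw [← sum_fiberwise_of_maps_to hmaps]
    have h1 : ∀ P ∈ PP, ∑ R ∈ ((univ : Finset (Finset (It n))).filter (Ti3 n l c Ω)).filter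
        (fun R => (R.filter fun b => b.1.1 2 = l) = P), (1 / 8 : ℝ) ^ R.card ≤
        ∑ S ∈ (rects n).powerset.filter (fun S => Ti2 n (Sweep_Om n Ω P) S ∧ ∀ q ∈ S, q.1.1 + q.1.2 ≤ n - (l + 1)),
          (1 / 8 : ℝ) ^ P.card * (1 / 8 : ℝ) ^ S.card := by
      intro P _
      refine (Sweep_fib hln P).trans ?_
      rw [← mul_sum]
      refine mul_le_mul_of_nonneg_left ?_ (by positivity)
      have h2 := ih (l := l + 1) (c := 2 * c) hln hc0 (Sweep_Om n Ω P) (by omega)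
      have h3 := (ih (l := l + 1) (c := 2 * c + 1) hln hc1 (Sweep_Om n Ω P) (by omega)).trans
        (Sweep_le_one n _ _)
      refine (mul_le_of_le_one_right ?_ h3).trans h2
      exact sum_nonneg fun R _ => by positivity
    refine (sum_le_sum h1).trans ?_
    rw [sum_sigma']
    refine Sweep_sum_le _ _ (fun x => Sweep_un x.1 x.2) _ _ ?_ ?_ ?_ ?_
    · rintro ⟨P, S⟩ hx
      rw [mem_sigma, hPP, mem_filter, mem_filter, mem_powerset] at hx
      obtain ⟨⟨-, hP⟩, hSr, hS, hSo⟩ := hx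
      exact Sweep_mem hl hP hSr hS (fun q hq => by have := hSo q hq; omega)
    · rintro ⟨P, S⟩ hx ⟨P', S'⟩ hx' h
      rw [mem_sigma, hPP, mem_filter, mem_filter, mem_powerset] at hx hx'
      obtain ⟨⟨-, hP⟩, hSr, hS, hSo⟩ := hx
      obtain ⟨⟨-, hP'⟩, hSr', hS', hSo'⟩ := hx'
      obtain ⟨e1, e2⟩ := Sweep_un_inj hP hP' (fun q hq => by have := hSo q hq; omega)
        (fun q hq => by have := hSo' q hq; omega) h
      simp only at e1 e2
      subst e1
      subst e2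
      rfl
    · rintro ⟨P, S⟩ hx
      rw [mem_sigma, hPP, mem_filter, mem_filter, mem_powerset] at hx
      obtain ⟨⟨-, hP⟩, hSr, hS, hSo⟩ := hx
      simp only
      rw [Sweep_card hP (fun q hq => by have := hSo q hq; omega), pow_add]
    · intro S _
      positivity

end Pool.Agent.helper7.Alm
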